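import Pool.Agent.KS6_68.FV.Irred

/-! The irreducibility theorem. -/

set_option autoImplicit false

open Complex Filter Topology Set Function

namespace Pool.Agent.KS6_68.FV

theorem loc_const {α : Type*} {S : Set ℂ} (hS : IsPreconnected S) (hSo : IsOpen S) {κ : ℂ → α}
    (h : ∀ E ∈ S, ∀ᶠ E' in 𝓝 E, κ E' = κ E) : ∀ E ∈ S, ∀ E' ∈ S, κ E' = κ E := by
  intro E hE
  set u : Set ℂ := {E' | E' ∈ S ∧ κ E' = κ E} with hu
  have huo : IsOpen u := by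
    rw [isOpen_iff_mem_nhds]
    rintro z ⟨hz1, hz2⟩
    filter_upwards [h z hz1, hSo.mem_nhds hz1] with w h1 h2
    exact ⟨h2, h1.trans hz2⟩
  have hsub : S ⊆ u := by
    refine hS.subset_of_closure_inter_subset huo ⟨E, hE, hE, rfl⟩ ?_
    rintro z ⟨hz1, hz2⟩
    rw [mem_closure_iff_frequently] at hz1
    obtain ⟨w, hw1, hw2⟩ := (hz1.and_eventually (h z hz2)).exists
    exact ⟨hz2, hw2.symm.trans hw1.2⟩
  exact fun E' hE' => (hsub hE').2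

section

variable {φ ψ : ℂ → ℂ}

open Classical in
/-- indicator -/
noncomputable def ind (φ ψ : ℂ → ℂ) (A : Set (ℂ × ℂ)) (E r t : ℂ) : ℂ :=
  if Inn φ ψ A E r t then 1 else 0

theorem ind_congr {A : Set (ℂ × ℂ)} {E r t E' r' t' : ℂ}
    (h : Inn φ ψ A E r t ↔ Inn φ ψ A E' r' t') : ind φ ψ A E r t = ind φ ψ A E' r' t' := by
  unfold ind
  by_cases h1 : Inn φ ψ A E r t
  · rw [if_pos h1, if_pos (h.1 h1)]
  · rw [if_neg h1, if_neg (fun h2 => h1 (h.2 h2))]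

theorem ind_inj {A : Set (ℂ × ℂ)} {E r t E' r' t' : ℂ}
    (h : ind φ ψ A E r t = ind φ ψ A E' r' t') : Inn φ ψ A E r t ↔ Inn φ ψ A E' r' t' := by
  unfold ind at h
  by_cases h1 : Inn φ ψ A E r t <;> by_cases h2 : Inn φ ψ A E' r' t' <;> simp_all

/-- character sums -/
noncomputable def kk (φ ψ : ℂ → ℂ) (A : Set (ℂ × ℂ)) (i j : ℕ) (E r t : ℂ) : ℂ :=
  ind φ ψ A E r t + (-1) ^ i * ind φ ψ A E (-r) t + (-1) ^ j * ind φ ψ A E r (-t) +
    (-1) ^ i * (-1) ^ j * ind φ ψ A E (-r) (-t)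

theorem m1_sq (i : ℕ) : ((-1 : ℂ) ^ i) ^ 2 = 1 := by
  rw [← pow_mul, mul_comm, pow_mul]; norm_num

theorem kk_neg_left (A : Set (ℂ × ℂ)) (i j : ℕ) (E r t : ℂ) :
    kk φ ψ A i j E (-r) t = (-1) ^ i * kk φ ψ A i j E r t := by
  unfold kk
  rw [neg_neg]
  linear_combination (-(ind φ ψ A E (-r) t) - (-1) ^ j * ind φ ψ A E (-r) (-t)) * m1_sq i

theorem kk_neg_right (A : Set (ℂ × ℂ)) (i j : ℕ) (E r t : ℂ) :
    kk φ ψ A i j E r (-t) = (-1) ^ j * kk φ ψ A i j E r t := by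
  unfold kk
  rw [neg_neg]
  linear_combination (-(ind φ ψ A E r (-t)) - (-1) ^ i * ind φ ψ A E (-r) (-t)) * m1_sq j

/-- the product is independent of the signs -/
theorem kk_signs (A : Set (ℂ × ℂ)) (i j : ℕ) (E : ℂ) {r t r' t' : ℂ} (hr : r' ^ 2 = r ^ 2)
    (ht : t' ^ 2 = t ^ 2) :
    kk φ ψ A i j E r' t' * (r' ^ i * t' ^ j) = kk φ ψ A i j E r t * (r ^ i * t ^ j) ∧
      kk φ ψ A i j E r' t' ^ 2 = kk φ ψ A i j E r t ^ 2 := by
  have h1 : r' = r ∨ r' = -r := sq_eq_sq_iff_eq_or_eq_neg.1 hr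
  have h2 : t' = t ∨ t' = -t := sq_eq_sq_iff_eq_or_eq_neg.1 ht
  have a1 := m1_sq i
  have a2 := m1_sq j
  rcases h1 with rfl | rfl <;> rcases h2 with rfl | rfl
  · exact ⟨rfl, rfl⟩
  · rw [kk_neg_right, neg_pow t j]
    constructor
    · linear_combination (kk φ ψ A i j E r' t * (r' ^ i * t ^ j)) * a2
    · rw [mul_pow, a2, one_mul]
  · rw [kk_neg_left, neg_pow r i]
    constructor
    · linear_combination (kk φ ψ A i j E r t' * (r ^ i * t' ^ j)) * a1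
    · rw [mul_pow, a1, one_mul]
  · rw [kk_neg_left, kk_neg_right, neg_pow r i, neg_pow t j]
    constructor
    · linear_combination (kk φ ψ A i j E r t * (r ^ i * t ^ j)) * (a1 * ((-1) ^ j) ^ 2 + a2)
    · rw [mul_pow, mul_pow, a1, a2, one_mul, one_mul]

variable (hφ : Differentiable ℂ φ) (hψ : Differentiable ℂ ψ)

include hφ hψ

theorem kk_local {A : Set (ℂ × ℂ)} (hA : IsAnalyticSubset torusC A) (i j : ℕ) {E0 r t : ℂ}
    (hf : dd φ E0 ≠ 0) (hg : dd ψ E0 ≠ 0) (hr : r ^ 2 = dd φ E0) (ht : t ^ 2 = dd ψ E0) :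
    ∀ᶠ E in 𝓝 E0, kk φ ψ A i j E (rt (dd φ) E0 r E) (rt (dd ψ) E0 t E) = kk φ ψ A i j E0 r t := by
  have hr' : (-r) ^ 2 = dd φ E0 := by rw [neg_sq]; exact hr
  have ht' : (-t) ^ 2 = dd ψ E0 := by rw [neg_sq]; exact ht
  filter_upwards [inn_local hφ hψ hA hf hg hr ht, inn_local hφ hψ hA hf hg hr' ht,
    inn_local hφ hψ hA hf hg hr ht', inn_local hφ hψ hA hf hg hr' ht'] with E h1 h2 h3 h4
  rw [rt_neg] at h2 h3 h4
  rw [rt_neg] at h4
  unfold kk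
  rw [ind_congr h1, ind_congr h2, ind_congr h3, ind_congr h4]

/-- if a character sum does not vanish, there is an entire square root -/
theorem sqrt_of_kk {A : Set (ℂ × ℂ)} (hA : IsAnalyticSubset torusC A) (i j : ℕ)
    (h0 : ∃ E, dd φ E * dd ψ E ≠ 0) {E0 r t : ℂ}
    (hf : dd φ E0 ≠ 0) (hg : dd ψ E0 ≠ 0) (hr : r ^ 2 = dd φ E0) (ht : t ^ 2 = dd ψ E0)
    (hk : kk φ ψ A i j E0 r t ≠ 0) :
    ∃ s : ℂ → ℂ, Differentiable ℂ s ∧ ∀ E, s E ^ 2 = dd φ E ^ i * dd ψ E ^ j := by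
  have hG : Differentiable ℂ fun E => dd φ E * dd ψ E := (dd_diff hφ).mul (dd_diff hψ)
  have hS := ne_connected hG h0
  have hSo : IsOpen {E | dd φ E * dd ψ E ≠ 0} := isOpen_ne_fun hG.continuous continuous_const
  set R : ℂ → ℂ := fun E => dd φ E ^ (1 / 2 : ℂ) with hR
  set T : ℂ → ℂ := fun E => dd ψ E ^ (1 / 2 : ℂ) with hT
  have R2 : ∀ E, R E ^ 2 = dd φ E := fun E => half_sq _
  have T2 : ∀ E, T E ^ 2 = dd ψ E := fun E => half_sq _
  set κ : ℂ → ℂ := fun E => kk φ ψ A i j E (R E) (T E) ^ 2 with hκ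
  have hloc : ∀ E ∈ {E | dd φ E * dd ψ E ≠ 0}, ∀ᶠ E' in 𝓝 E, κ E' = κ E := by
    intro E hE
    have f0 := left_ne_zero_of_mul hE
    have g0 := right_ne_zero_of_mul hE
    filter_upwards [kk_local hφ hψ hA i j f0 g0 (R2 E) (T2 E)] with E' h
    have k1 := rt_sq f0 (R2 E) E'
    have k2 := rt_sq g0 (T2 E) E'
    have := (kk_signs (φ := φ) (ψ := ψ) A i j E' (r := rt (dd φ) E (R E) E')
      (t := rt (dd ψ) E (T E) E') (r' := R E') (t' := T E') (by rw [k1, R2]) (by rw [k2, T2])).2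
    show kk φ ψ A i j E' (R E') (T E') ^ 2 = kk φ ψ A i j E (R E) (T E) ^ 2
    rw [this, h]
  have hconst := loc_const hS hSo hloc
  have hE0 : E0 ∈ {E | dd φ E * dd ψ E ≠ 0} := mul_ne_zero hf hg
  have hκ0 : κ E0 ≠ 0 := by
    have := (kk_signs (φ := φ) (ψ := ψ) A i j E0 (r := r) (t := t) (r' := R E0) (t' := T E0)
      (by rw [R2, hr]) (by rw [T2, ht])).2
    show kk φ ψ A i j E0 (R E0) (T E0) ^ 2 ≠ 0
    rw [this]
    exact pow_ne_zero 2 hk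
  set c : ℂ := (κ E0) ^ (1 / 2 : ℂ) with hc
  have hc2 : c ^ 2 = κ E0 := half_sq _
  have hc0 : c ≠ 0 := by
    intro h
    rw [h] at hc2
    apply hκ0
    rw [← hc2]; norm_num
  set s : ℂ → ℂ := fun E => kk φ ψ A i j E (R E) (T E) * (R E ^ i * T E ^ j) / c with hs
  have q1 : ∀ E, dd φ E * dd ψ E ≠ 0 → AnalyticAt ℂ s E := by
    intro E hE
    have f0 := left_ne_zero_of_mul hE
    have g0 := right_ne_zero_of_mul hE
    have e1 : s =ᶠ[𝓝 E] fun E' => kk φ ψ A i j E (R E) (T E) *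
        (rt (dd φ) E (R E) E' ^ i * rt (dd ψ) E (T E) E' ^ j) / c := by
      filter_upwards [kk_local hφ hψ hA i j f0 g0 (R2 E) (T2 E)] with E' h
      have k1 := rt_sq f0 (R2 E) E'
      have k2 := rt_sq g0 (T2 E) E'
      have := (kk_signs (φ := φ) (ψ := ψ) A i j E' (r := rt (dd φ) E (R E) E')
        (t := rt (dd ψ) E (T E) E') (r' := R E') (t' := T E') (by rw [k1, R2]) (by rw [k2, T2])).1
      show kk φ ψ A i j E' (R E') (T E') * (R E' ^ i * T E' ^ j) / c = _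
      rw [this, h]
    have a1 := (rt_an (dd_diff hφ) f0).self_of_nhds.2 (R E)
    have a2 := (rt_an (dd_diff hψ) g0).self_of_nhds.2 (T E)
    exact ((analyticAt_const.mul ((a1.pow i).mul (a2.pow j))).div_const).congr e1.symm
  have q2 : ∀ E, dd φ E * dd ψ E ≠ 0 → s E ^ 2 = dd φ E ^ i * dd ψ E ^ j := by
    intro E hE
    have h1 : κ E = κ E0 := hconst E0 hE0 E hE
    have h2 : kk φ ψ A i j E (R E) (T E) ^ 2 = κ E0 := h1
    show (kk φ ψ A i j E (R E) (T E) * (R E ^ i * T E ^ j) / c) ^ 2 = _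
    rw [div_pow, mul_pow, h2, hc2, mul_div_cancel_left₀ _ hκ0, mul_pow, ← pow_mul, ← pow_mul,
      mul_comm i, mul_comm j, pow_mul, pow_mul, R2, T2]
  obtain ⟨u, hu1, hu2, -⟩ := ext_sqrt (F := fun E => dd φ E ^ i * dd ψ E ^ j)
    (G := fun E => dd φ E * dd ψ E) (s := s)
    (((dd_diff hφ).pow i).mul ((dd_diff hψ).pow j)) hG h0 q1 q2
  exact ⟨u, hu1, hu2⟩

theorem not_reducible (h0 : ∃ E, dd φ E * dd ψ E ≠ 0)
    (nf : ¬∃ s : ℂ → ℂ, Differentiable ℂ s ∧ ∀ E, s E ^ 2 = dd φ E)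
    (ng : ¬∃ s : ℂ → ℂ, Differentiable ℂ s ∧ ∀ E, s E ^ 2 = dd ψ E)
    (nfg : ¬∃ s : ℂ → ℂ, Differentiable ℂ s ∧ ∀ E, s E ^ 2 = dd φ E * dd ψ E) :
    ¬ Reducible torusC (XX φ ψ) := by
  rintro ⟨A, B, hA, hB, hAB, hAX, hBX⟩
  have hG : Differentiable ℂ fun E => dd φ E * dd ψ E := (dd_diff hφ).mul (dd_diff hψ)
  have hS := ne_connected hG h0
  have hSo : IsOpen {E | dd φ E * dd ψ E ≠ 0} := isOpen_ne_fun hG.continuous continuous_const
  -- all character sums vanish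
  have kz : ∀ E r t, dd φ E ≠ 0 → dd ψ E ≠ 0 → r ^ 2 = dd φ E → t ^ 2 = dd ψ E →
      kk φ ψ A 1 0 E r t = 0 ∧ kk φ ψ A 0 1 E r t = 0 ∧ kk φ ψ A 1 1 E r t = 0 := by
    intro E r t f0 g0 hr ht
    refine ⟨?_, ?_, ?_⟩
    · by_contra hk
      obtain ⟨s, h1, h2⟩ := sqrt_of_kk hφ hψ hA 1 0 h0 f0 g0 hr ht hk
      exact nf ⟨s, h1, fun E => by rw [h2]; simp⟩
    · by_contra hk
      obtain ⟨s, h1, h2⟩ := sqrt_of_kk hφ hψ hA 0 1 h0 f0 g0 hr ht hk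
      exact ng ⟨s, h1, fun E => by rw [h2]; simp⟩
    · by_contra hk
      obtain ⟨s, h1, h2⟩ := sqrt_of_kk hφ hψ hA 1 1 h0 f0 g0 hr ht hk
      exact nfg ⟨s, h1, fun E => by rw [h2]; simp⟩
  have allE : ∀ E r t, dd φ E ≠ 0 → dd ψ E ≠ 0 → r ^ 2 = dd φ E → t ^ 2 = dd ψ E →
      (Inn φ ψ A E (-r) t ↔ Inn φ ψ A E r t) ∧ (Inn φ ψ A E r (-t) ↔ Inn φ ψ A E r t) ∧
      (Inn φ ψ A E (-r) (-t) ↔ Inn φ ψ A E r t) := by
    intro E r t f0 g0 hr ht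
    obtain ⟨k1, k2, k3⟩ := kz E r t f0 g0 hr ht
    unfold kk at k1 k2 k3
    simp only [pow_one, pow_zero, one_mul] at k1 k2 k3
    refine ⟨ind_inj ?_, ind_inj ?_, ind_inj ?_⟩
    · linear_combination -(k1 + k3) / 2
    · linear_combination -(k2 + k3) / 2
    · linear_combination -(k1 + k2) / 2
  have allS : ∀ E r t r' t', dd φ E ≠ 0 → dd ψ E ≠ 0 → r ^ 2 = dd φ E → t ^ 2 = dd ψ E →
      r' ^ 2 = dd φ E → t' ^ 2 = dd ψ E → (Inn φ ψ A E r' t' ↔ Inn φ ψ A E r t) := by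
    intro E r t r' t' f0 g0 hr ht hr' ht'
    obtain ⟨h1, h2, h3⟩ := allE E r t f0 g0 hr ht
    rcases sq_eq_sq_iff_eq_or_eq_neg.1 (hr'.trans hr.symm) with rfl | rfl <;>
      rcases sq_eq_sq_iff_eq_or_eq_neg.1 (ht'.trans ht.symm) with rfl | rfl
    · rfl
    · exact h2
    · exact h1
    · exact h3
  set R : ℂ → ℂ := fun E => dd φ E ^ (1 / 2 : ℂ) with hR
  set T : ℂ → ℂ := fun E => dd ψ E ^ (1 / 2 : ℂ) with hT
  have R2 : ∀ E, R E ^ 2 = dd φ E := fun E => half_sq _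
  have T2 : ∀ E, T E ^ 2 = dd ψ E := fun E => half_sq _
  have hloc : ∀ E ∈ {E | dd φ E * dd ψ E ≠ 0}, ∀ᶠ E' in 𝓝 E,
      Inn φ ψ A E' (R E') (T E') = Inn φ ψ A E (R E) (T E) := by
    intro E hE
    have f0 := left_ne_zero_of_mul hE
    have g0 := right_ne_zero_of_mul hE
    filter_upwards [inn_local hφ hψ hA f0 g0 (R2 E) (T2 E), hSo.mem_nhds hE] with E' h hE'
    have f0' := left_ne_zero_of_mul hE'
    have g0' := right_ne_zero_of_mul hE'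
    rw [← propext h]
    exact propext (allS E' _ _ _ _ f0' g0' (rt_sq f0 (R2 E) E') (rt_sq g0 (T2 E) E') (R2 E') (T2 E'))
  have hconst := loc_const hS hSo hloc
  obtain ⟨E0, hE0⟩ := h0
  have hE0' : E0 ∈ {E | dd φ E * dd ψ E ≠ 0} := hE0
  by_cases hQ : Inn φ ψ A E0 (R E0) (T E0)
  · apply hAX
    refine Subset.antisymm (by rw [hAB]; exact subset_union_left) ?_
    refine all_sub hφ hψ hA ⟨E0, hE0⟩ fun E r t f0 g0 hr ht => ?_
    have h1 := hconst E0 hE0' E (mul_ne_zero f0 g0)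
    rw [allS E (R E) (T E) r t f0 g0 (R2 E) (T2 E) hr ht, h1]
    exact hQ
  · apply hBX
    refine Subset.antisymm (by rw [hAB]; exact subset_union_right) ?_
    refine all_sub hφ hψ hB ⟨E0, hE0⟩ fun E r t f0 g0 hr ht => ?_
    have h1 := hconst E0 hE0' E (mul_ne_zero f0 g0)
    rcases inn_or hφ hψ hA hB hAB f0 g0 hr ht with h2 | h2
    · exfalso
      apply hQ
      rw [← h1, ← allS E (R E) (T E) r t f0 g0 (R2 E) (T2 E) hr ht]
      exact h2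
    · exact h2

end

end Pool.Agent.KS6_68.FV
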