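import Pool.Agent.KS6_68.FV.Fermi

/-! Reducibility in the torus and reducibility modulo periodicity. -/

set_option autoImplicit false

open Complex Filter Topology Set

namespace Pool.Agent.KS6_68.FV

theorem quasi_surj {q : ℂ × ℂ} (hq : q ∈ torusC) : ∃ k, quasi k = q := by
  refine ⟨(log q.1 / (2 * Real.pi * I), log q.2 / (2 * Real.pi * I)), ?_⟩
  unfold quasi
  apply Prod.ext
  · show exp (2 * Real.pi * I * (log q.1 / (2 * Real.pi * I))) = q.1
    rw [mul_div_cancel₀ _ Complex.two_pi_I_ne_zero, exp_log hq.1]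
  · show exp (2 * Real.pi * I * (log q.2 / (2 * Real.pi * I))) = q.2
    rw [mul_div_cancel₀ _ Complex.two_pi_I_ne_zero, exp_log hq.2]

theorem quasi_shift (k : ℂ × ℂ) (m n : ℤ) : quasi (k.1 + m, k.2 + n) = quasi k := by
  unfold quasi
  apply Prod.ext
  · show exp (2 * Real.pi * I * (k.1 + m)) = exp (2 * Real.pi * I * k.1)
    rw [Complex.exp_eq_exp_iff_exists_int]
    exact ⟨m, by ring⟩
  · show exp (2 * Real.pi * I * (k.2 + n)) = exp (2 * Real.pi * I * k.2)
    rw [Complex.exp_eq_exp_iff_exists_int]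
    exact ⟨n, by ring⟩

theorem quasi_eq {k l : ℂ × ℂ} (h : quasi k = quasi l) :
    ∃ m n : ℤ, k = (l.1 + m, l.2 + n) := by
  have h1 : exp (2 * Real.pi * I * k.1) = exp (2 * Real.pi * I * l.1) := congrArg Prod.fst h
  have h2 : exp (2 * Real.pi * I * k.2) = exp (2 * Real.pi * I * l.2) := congrArg Prod.snd h
  rw [Complex.exp_eq_exp_iff_exists_int] at h1 h2
  obtain ⟨m, hm⟩ := h1
  obtain ⟨n, hn⟩ := h2
  refine ⟨m, n, Prod.ext ?_ ?_⟩
  · refine mul_left_cancel₀ Complex.two_pi_I_ne_zero ?_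
    linear_combination hm
  · refine mul_left_cancel₀ Complex.two_pi_I_ne_zero ?_
    linear_combination hn

theorem quasi_an (p : ℂ × ℂ) : AnalyticAt ℂ quasi p := by
  unfold quasi
  exact ((analyticAt_const.mul analyticAt_fst).cexp).prod ((analyticAt_const.mul analyticAt_snd).cexp)

theorem quasi_torus (k : ℂ × ℂ) : quasi k ∈ torusC := ⟨exp_ne_zero _, exp_ne_zero _⟩

theorem lift_an {A : Set (ℂ × ℂ)} (hA : IsAnalyticSubset torusC A) :
    IsAnalyticSubset univ {k | quasi k ∈ A} := by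
  refine ⟨subset_univ _, fun p _ => ?_⟩
  obtain ⟨n, f, h1, h2⟩ := hA.2 (quasi p) (quasi_torus p)
  refine ⟨n, fun i k => f i (quasi k), fun i => AnalyticAt.comp (g := f i) (h1 i) (quasi_an p), ?_⟩
  exact (quasi_an p).continuousAt.tendsto.eventually h2

theorem Invariant.lift {A : Set (ℂ × ℂ)} : Invariant {k | quasi k ∈ A} := by
  intro k m n
  show quasi (k.1 + m, k.2 + n) ∈ A ↔ quasi k ∈ A
  rw [quasi_shift]

theorem Invariant.image_iff {A : Set (ℂ × ℂ)} (hA : Invariant A) (k : ℂ × ℂ) :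
    quasi k ∈ quasi '' A ↔ k ∈ A := by
  constructor
  · rintro ⟨l, hl, h⟩
    obtain ⟨m, n, rfl⟩ := quasi_eq h
    exact (hA k m n).1 hl
  · exact fun h => ⟨k, h, rfl⟩

theorem push_an {A : Set (ℂ × ℂ)} (hA : IsAnalyticSubset univ A) (hinv : Invariant A) :
    IsAnalyticSubset torusC (quasi '' A) := by
  refine ⟨by rintro _ ⟨k, -, rfl⟩; exact quasi_torus k, fun q hq => ?_⟩
  obtain ⟨k, hk⟩ := quasi_surj hq
  obtain ⟨n, f, h1, h2⟩ := hA.2 k (mem_univ k)
  set L : ℂ × ℂ → ℂ × ℂ := fun p => (k.1 + log (p.1 / q.1) / (2 * Real.pi * I),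
    k.2 + log (p.2 / q.2) / (2 * Real.pi * I)) with hL
  have hLq : L q = k := by
    rw [hL]
    simp only [div_self hq.1, div_self hq.2, log_one, zero_div, add_zero]
  have hLan : AnalyticAt ℂ L q := by
    have l1 : AnalyticAt ℂ (fun p : ℂ × ℂ => log (p.1 / q.1)) q := by
      refine AnalyticAt.clog (analyticAt_fst.div_const) ?_
      rw [div_self hq.1]
      exact one_mem_slitPlane
    have l2 : AnalyticAt ℂ (fun p : ℂ × ℂ => log (p.2 / q.2)) q := by
      refine AnalyticAt.clog (analyticAt_snd.div_const) ?_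
      rw [div_self hq.2]
      exact one_mem_slitPlane
    exact (analyticAt_const.add l1.div_const).prod (analyticAt_const.add l2.div_const)
  have e1 : exp (2 * Real.pi * I * k.1) = q.1 := congrArg Prod.fst hk
  have e2 : exp (2 * Real.pi * I * k.2) = q.2 := congrArg Prod.snd hk
  have hLr : ∀ p ∈ torusC, quasi (L p) = p := by
    intro p hp
    unfold quasi
    apply Prod.ext
    · show exp (2 * Real.pi * I * (k.1 + log (p.1 / q.1) / (2 * Real.pi * I))) = p.1
      rw [mul_add, mul_div_cancel₀ _ Complex.two_pi_I_ne_zero, exp_add, e1,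
        exp_log (div_ne_zero hp.1 hq.1), mul_div_cancel₀ _ hq.1]
    · show exp (2 * Real.pi * I * (k.2 + log (p.2 / q.2) / (2 * Real.pi * I))) = p.2
      rw [mul_add, mul_div_cancel₀ _ Complex.two_pi_I_ne_zero, exp_add, e2,
        exp_log (div_ne_zero hp.2 hq.2), mul_div_cancel₀ _ hq.2]
  refine ⟨n, fun i p => f i (L p), fun i => ?_, ?_⟩
  · refine AnalyticAt.comp (g := f i) ?_ hLan
    rw [hLq]
    exact h1 i
  · have h3 := hLan.continuousAt.tendsto
    rw [hLq] at h3
    have ht : torusC ∈ 𝓝 q := by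
      have : IsOpen torusC :=
        (isOpen_ne_fun continuous_fst continuous_const).inter
          (isOpen_ne_fun continuous_snd continuous_const)
      exact this.mem_nhds hq
    filter_upwards [h3.eventually h2, ht] with p hp1 hp2
    rw [← hp1]
    conv_lhs => rw [← hLr p hp2]
    exact hinv.image_iff (L p)

theorem red_iff {X : Set (ℂ × ℂ)} (hX : X ⊆ torusC) :
    ReducibleInvariant {k | quasi k ∈ X} ↔ Reducible torusC X := by
  constructor
  · rintro ⟨A, B, hA, hB, iA, iB, hAB, nA, nB⟩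
    have key : ∀ C : Set (ℂ × ℂ), Invariant C → C ≠ {k | quasi k ∈ X} → quasi '' C ≠ X := by
      intro C iC nC h
      apply nC
      ext k
      show k ∈ C ↔ quasi k ∈ X
      rw [← h, iC.image_iff]
    refine ⟨quasi '' A, quasi '' B, push_an hA iA, push_an hB iB, ?_, key A iA nA, key B iB nB⟩
    rw [← image_union, ← hAB]
    ext q
    constructor
    · intro hq
      obtain ⟨k, rfl⟩ := quasi_surj (hX hq)
      exact ⟨k, hq, rfl⟩
    · rintro ⟨k, hk, rfl⟩
      exact hk
  · rintro ⟨A, B, hA, hB, hAB, nA, nB⟩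
    have key : ∀ C : Set (ℂ × ℂ), C ⊆ torusC → C ≠ X → {k | quasi k ∈ C} ≠ {k | quasi k ∈ X} := by
      intro C hC nC h
      apply nC
      ext q
      constructor
      · intro hq
        obtain ⟨k, rfl⟩ := quasi_surj (hC hq)
        have : k ∈ {k | quasi k ∈ C} := hq
        rw [h] at this
        exact this
      · intro hq
        obtain ⟨k, rfl⟩ := quasi_surj (hX hq)
        have : k ∈ {k | quasi k ∈ X} := hq
        rw [← h] at this
        exact this
    refine ⟨_, _, lift_an hA, lift_an hB, Invariant.lift, Invariant.lift, ?_, key A hA.1 nA,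
      key B hB.1 nB⟩
    rw [hAB]
    rfl

end Pool.Agent.KS6_68.FV
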