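import Pool.Agent.KS6_68.FV.Red
import Pool.Agent.KS6_68.FV.Irred2
import Pool.Agent.KS6_68.FV.Lift

/-! The classification of the reducible Fermi varieties of separable potentials. -/

set_option autoImplicit false

open Complex Filter Topology Set Function Metric

namespace Pool.Agent.KS6_68.FV

section

variable {v1 v2 : ℝ → ℝ} (hv1 : Continuous v1) (hv2 : Continuous v2)
  (hp1 : ∀ x, v1 (x + 1) = v1 x) (hp2 : ∀ x, v2 (x + 1) = v2 x)
  {D1 D2 : ℂ → ℂ} (hD1 : IsDiscriminant v1 D1) (hD2 : IsDiscriminant v2 D2)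

theorem IsDiscriminant.props {v : ℝ → ℝ} (hv : Continuous v) (hp : ∀ x, v (x + 1) = v x)
    {D : ℂ → ℂ} (hD : IsDiscriminant v D) :
    (∃ m : ℝ, DiscProps D m) ∧ ∀ E z, Mult v E z ↔ z ≠ 0 ∧ D E = z + z⁻¹ := by
  obtain ⟨c, c', s, s', F⟩ := exists_fund hv
  obtain ⟨m, hm⟩ := exists_lower hv hp
  have e : D = fun E => c E 1 + s' E 1 := funext fun E => hD.eq F hv hp E
  subst e
  exact ⟨⟨m, F.props hv hp hm⟩, fun E z => F.mult_iff hv hp E z⟩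

theorem exists_disc {v : ℝ → ℝ} (hv : Continuous v) (hp : ∀ x, v (x + 1) = v x) :
    ∃! D : ℂ → ℂ, IsDiscriminant v D := by
  obtain ⟨c, c', s, s', F⟩ := exists_fund hv
  exact ⟨_, F.isDisc, fun D hD => funext fun E => hD.eq F hv hp E⟩

include hv1 hv2 hp1 hp2 hD1 hD2

theorem fermi_eq (lam : ℂ) : fermi (fun x y => v1 x + v2 y) lam =
    {k | quasi k ∈ XX D1 fun E => D2 (lam - E)} := by
  obtain ⟨-, h1⟩ := hD1.props hv1 hp1
  obtain ⟨-, h2⟩ := hD2.props hv2 hp2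
  ext k
  constructor
  · intro hk
    obtain ⟨μ, k1, k2⟩ := fermi_sub hv1 hp1 hv2 hp2 hk
    rw [h1] at k1
    rw [h2] at k2
    exact ⟨⟨k1.1, k2.1⟩, μ, k1.2, k2.2⟩
  · rintro ⟨⟨a, b⟩, μ, k1, k2⟩
    exact mem_fermi hv1 hv2 ((h1 μ _).2 ⟨a, k1⟩) ((h2 (lam - μ) _).2 ⟨b, k2⟩)

theorem image_fermi (lam : ℂ) : quasi '' fermi (fun x y => v1 x + v2 y) lam =
    XX D1 fun E => D2 (lam - E) := by
  rw [fermi_eq hv1 hv2 hp1 hp2 hD1 hD2]
  ext q
  constructor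
  · rintro ⟨k, hk, rfl⟩
    exact hk
  · intro hq
    obtain ⟨k, rfl⟩ := quasi_surj hq.1
    exact ⟨k, hq, rfl⟩

theorem red_torus_iff (lam : ℂ) : Reducible torusC (quasi '' fermi (fun x y => v1 x + v2 y) lam) ↔
    edges D1 = {E | lam - E ∈ edges D2} := by
  obtain ⟨⟨m1, P1⟩, -⟩ := hD1.props hv1 hp1
  obtain ⟨⟨m2, P2⟩, -⟩ := hD2.props hv2 hp2
  rw [image_fermi hv1 hv2 hp1 hp2 hD1 hD2]
  constructor
  · intro h
    rw [← mirror_iff P1 P2]
    by_contra hcon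
    exact not_reducible P1.diff (comp_diff P2.diff lam) (prod_ne P1 P2 lam) P1.no_sqrt
      (P2.no_sqrt' lam) hcon h
  · intro h
    obtain ⟨s, hs, h2⟩ := (mirror_iff P1 P2 lam).2 h
    exact reducible_of_sqrt P1 P2 lam (mirror_props P1 P2 h).1 hs h2

theorem red_inv_iff (lam : ℂ) : ReducibleInvariant (fermi (fun x y => v1 x + v2 y) lam) ↔
    Reducible torusC (quasi '' fermi (fun x y => v1 x + v2 y) lam) := by
  rw [image_fermi hv1 hv2 hp1 hp2 hD1 hD2, fermi_eq hv1 hv2 hp1 hp2 hD1 hD2]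
  exact red_iff fun p hp => hp.1

theorem mirror_cons {lam : ℂ} (h : edges D1 = {E | lam - E ∈ edges D2}) :
    lam.im = 0 ∧ (edges D1).Finite ∧ (edges D2).Finite ∧ (edges D1).Nonempty ∧
      ∀ mu : ℂ, edges D1 = {E | mu - E ∈ edges D2} → mu = lam := by
  obtain ⟨⟨m1, P1⟩, -⟩ := hD1.props hv1 hp1
  obtain ⟨⟨m2, P2⟩, -⟩ := hD2.props hv2 hp2
  obtain ⟨h1, h2, h3, h4⟩ := mirror_props P1 P2 h
  exact ⟨h1, h2, h3, P1.edges_nonempty, h4⟩

end

end Pool.Agent.KS6_68.FV
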