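import Mathlib

/-! Definitions: analytic subsets of `ℂ²`, Fermi varieties of planar periodic potentials, and
discriminants of Hill's equation. -/

set_option autoImplicit false

open Complex Filter Topology Set

namespace Pool.Agent.KS6_68.FV

/-- `A` is an analytic subset of the open set `U` of `ℂ²`: `A ⊆ U` and near every point of `U` the
set `A` is the set of common zeros of finitely many holomorphic functions. -/
def IsAnalyticSubset (U A : Set (ℂ × ℂ)) : Prop :=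
  A ⊆ U ∧ ∀ p ∈ U, ∃ (n : ℕ) (f : Fin n → ℂ × ℂ → ℂ), (∀ i, AnalyticAt ℂ (f i) p) ∧
    ∀ᶠ q in 𝓝 p, (q ∈ A ↔ ∀ i, f i q = 0)

/-- The torus `(ℂ*)²`. -/
def torusC : Set (ℂ × ℂ) := {z | z.1 ≠ 0 ∧ z.2 ≠ 0}

/-- The map `k ↦ (exp (2πi k₁), exp (2πi k₂))`. -/
noncomputable def quasi (k : ℂ × ℂ) : ℂ × ℂ :=
  (exp (2 * Real.pi * I * k.1), exp (2 * Real.pi * I * k.2))

/-- The Fermi variety of `-Δ + V` at energy `lam`, with classical solutions: the set of complex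
quasimomenta `k` for which there is a function `u` of class `C²` on the plane, not identically
zero, with `-Δu + V u = lam u` and `u (x + (m, n)) = exp (2πi k·(m, n)) u x` for integers
`m, n`. -/
def fermi (V : ℝ → ℝ → ℝ) (lam : ℂ) : Set (ℂ × ℂ) :=
  {k | ∃ u : ℝ → ℝ → ℂ, ContDiff ℝ 2 (fun p : ℝ × ℝ => u p.1 p.2) ∧ (∃ x y, u x y ≠ 0) ∧
    (∀ x y, -(iteratedDeriv 2 (fun s => u s y) x + iteratedDeriv 2 (fun t => u x t) y) +
      (V x y : ℂ) * u x y = lam * u x y) ∧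
    ∀ (m n : ℤ) (x y : ℝ), u (x + m) (y + n) =
      exp (2 * Real.pi * I * (k.1 * m + k.2 * n)) * u x y}

/-- `X` is the union of two analytic subsets of `U` which are both different from `X`. -/
def Reducible (U X : Set (ℂ × ℂ)) : Prop :=
  ∃ A B : Set (ℂ × ℂ), IsAnalyticSubset U A ∧ IsAnalyticSubset U B ∧ X = A ∪ B ∧ A ≠ X ∧ B ≠ X

/-- `A` is invariant under translations by `ℤ²`. -/
def Invariant (A : Set (ℂ × ℂ)) : Prop :=
  ∀ (k : ℂ × ℂ) (m n : ℤ), (k.1 + m, k.2 + n) ∈ A ↔ k ∈ A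

/-- `F` is the union of two `ℤ²`-invariant analytic subsets of `ℂ²`, both different from `F`. -/
def ReducibleInvariant (F : Set (ℂ × ℂ)) : Prop :=
  ∃ A B : Set (ℂ × ℂ), IsAnalyticSubset Set.univ A ∧ IsAnalyticSubset Set.univ B ∧
    Invariant A ∧ Invariant B ∧ F = A ∪ B ∧ A ≠ F ∧ B ≠ F

/-- `f'' = q f` and `g = f'` -/
def Sol (q f g : ℝ → ℂ) : Prop :=
  (∀ x, HasDerivAt f (g x) x) ∧ ∀ x, HasDerivAt g (q x * f x) x

/-- `D` is the discriminant of Hill's equation `-f'' + v f = E f` (period `1`): for every complex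
`E`, `D E = c 1 + s' 1`, where `c` and `s` are the solutions with `c 0 = 1`, `c' 0 = 0`, `s 0 = 0`
and `s' 0 = 1`. -/
def IsDiscriminant (v : ℝ → ℝ) (D : ℂ → ℂ) : Prop :=
  ∀ E : ℂ, ∃ c c' s s' : ℝ → ℂ, Sol (fun x => (v x : ℂ) - E) c c' ∧
    Sol (fun x => (v x : ℂ) - E) s s' ∧ c 0 = 1 ∧ c' 0 = 0 ∧ s 0 = 0 ∧ s' 0 = 1 ∧
    D E = c 1 + s' 1

/-- The band edges: the zeros of odd order of `D² - 4`, where `D` is the discriminant. -/
def edges (D : ℂ → ℂ) : Set ℂ :=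
  {E | ∃ n : ℕ, Odd n ∧ analyticOrderAt (fun E => D E ^ 2 - 4) E = n}

end Pool.Agent.KS6_68.FV
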