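import Mathlib

/-! Elimination of one variable: functions invariant under a rotation, and local images. -/

set_option autoImplicit false

open Complex Filter Topology Set Function Metric

namespace Pool.Agent.KS6_68.FV

/-- an analytic function invariant under a rotation of order `m` is a function of `y ^ m` -/
theorem inv_descend {g : ℂ → ℂ} (hg : AnalyticAt ℂ g 0) {m : ℕ} (hm : m ≠ 0) {ω : ℂ}
    (hω : IsPrimitiveRoot ω m) (hinv : ∀ y, g (ω * y) = g y) :
    ∃ h : ℂ → ℂ, AnalyticAt ℂ h 0 ∧ ∀ y, h (y ^ m) = g y := by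
  have : NeZero m := ⟨hm⟩
  have hk : ∀ (k : ℕ) (y : ℂ), g (ω ^ k * y) = g y := by
    intro k
    induction k with
    | zero => intro y; rw [pow_zero, one_mul]
    | succ k ih => intro y; rw [pow_succ', mul_assoc, hinv, ih]
  have hroot : ∀ a b : ℂ, a ^ m = b ^ m → g a = g b := by
    intro a b hab
    by_cases hb : b = 0
    · rw [hb, zero_pow hm] at hab
      rw [pow_eq_zero_iff hm |>.1 hab, hb]
    · have h1 : (a / b) ^ m = 1 := by
        rw [div_pow, hab, div_self (pow_ne_zero m hb)]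
      obtain ⟨i, -, hi⟩ := hω.eq_pow_of_pow_eq_one h1
      have : a = ω ^ i * b := by rw [hi, div_mul_cancel₀ _ hb]
      rw [this, hk]
  set h : ℂ → ℂ := fun η => g (η ^ (m⁻¹ : ℂ)) with hh
  have hh1 : ∀ y, h (y ^ m) = g y := by
    intro y
    apply hroot
    rw [cpow_nat_inv_pow _ hm]
  refine ⟨h, ?_, hh1⟩
  have hm' : 0 < ((m : ℂ)⁻¹).re := by
    rw [← Complex.ofReal_natCast, ← Complex.ofReal_inv, Complex.ofReal_re]
    positivity
  have hc0 : ContinuousAt (fun x : ℂ => x ^ (m⁻¹ : ℂ)) 0 :=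
    continuousAt_cpow_const_of_re_pos (Or.inl (by simp)) hm'
  have h00 : (0 : ℂ) ^ (m⁻¹ : ℂ) = 0 := by
    rw [zero_cpow]
    intro h
    rw [h] at hm'
    simp at hm'
  have hev := hg.eventually_analyticAt
  have t0 : Tendsto (fun x : ℂ => x ^ (m⁻¹ : ℂ)) (𝓝 0) (𝓝 0) := by
    have := hc0.tendsto
    rwa [h00] at this
  refine analyticAt_of_differentiable_on_punctured_nhds_of_continuousAt ?_ ?_
  · rw [eventually_nhdsWithin_iff]
    filter_upwards [t0.eventually hev] with η0 h1 h2
    have h2' : η0 ≠ 0 := h2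
    set y0 : ℂ := η0 ^ (m⁻¹ : ℂ) with hy0
    have hy0m : y0 ^ m = η0 := cpow_nat_inv_pow _ hm
    have h3 : h = fun η => g (y0 * (η / η0) ^ (m⁻¹ : ℂ)) := by
      ext η
      apply hroot
      rw [cpow_nat_inv_pow _ hm, mul_pow, cpow_nat_inv_pow _ hm, cpow_nat_inv_pow _ hm,
        mul_div_cancel₀ _ h2']
    rw [h3]
    have h4 : AnalyticAt ℂ (fun η : ℂ => y0 * (η / η0) ^ (m⁻¹ : ℂ)) η0 := by
      refine analyticAt_const.mul ?_
      refine AnalyticAt.cpow (analyticAt_id.div_const) analyticAt_const ?_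
      show (η0 / η0) ∈ slitPlane
      rw [div_self h2']
      exact one_mem_slitPlane
    have h5 : AnalyticAt ℂ g (y0 * (η0 / η0) ^ (m⁻¹ : ℂ)) := by
      rw [div_self h2', one_cpow, mul_one]
      exact h1
    exact (AnalyticAt.comp (g := g) (f := fun η : ℂ => y0 * (η / η0) ^ (m⁻¹ : ℂ)) h5 h4).differentiableAt
  · show ContinuousAt (fun η => g (η ^ (m⁻¹ : ℂ))) 0
    refine ContinuousAt.comp (g := g) ?_ hc0
    rw [h00]
    exact hg.continuousAt

theorem coeff_prod_an {ι : Type*} (S : Finset ι) {P : ι → ℂ → Polynomial ℂ} {y0 : ℂ}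
    (h : ∀ i ∈ S, ∀ j, AnalyticAt ℂ (fun y => (P i y).coeff j) y0) (j : ℕ) :
    AnalyticAt ℂ (fun y => (∏ i ∈ S, P i y).coeff j) y0 := by
  classical
  induction S using Finset.induction_on generalizing j with
  | empty =>
    simp only [Finset.prod_empty]
    exact analyticAt_const
  | insert a S ha ih =>
    have e : (fun y => (∏ i ∈ insert a S, P i y).coeff j) =
        fun y => ∑ x ∈ Finset.HasAntidiagonal.antidiagonal j, (P a y).coeff x.1 * (∏ i ∈ S, P i y).coeff x.2 := by
      ext y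
      rw [Finset.prod_insert ha, Polynomial.coeff_mul]
    rw [e]
    refine Finset.analyticAt_fun_sum _ fun x _ => ?_
    exact (h a (Finset.mem_insert_self a S) x.1).mul
      (ih (fun i hi => h i (Finset.mem_insert_of_mem hi)) x.2)

/-- elimination -/
theorem elim_one {b : ℂ → ℂ} (hb : AnalyticAt ℂ b 0) {m : ℕ} (hm : m ≠ 0) {ω : ℂ}
    (hω : IsPrimitiveRoot ω m) :
    ∃ H : ℂ × ℂ → ℂ, (∀ x, AnalyticAt ℂ H (0, x)) ∧
      ∀ y x, H (y ^ m, x) = ∏ k ∈ Finset.range m, (x - b (ω ^ k * y)) := by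
  set P : ℂ → Polynomial ℂ := fun y =>
    ∏ k ∈ Finset.range m, (Polynomial.X - Polynomial.C (b (ω ^ k * y))) with hP
  have hcoe : ∀ j, AnalyticAt ℂ (fun y => (P y).coeff j) 0 := by
    intro j
    refine coeff_prod_an (Finset.range m) (P := fun k y =>
      Polynomial.X - Polynomial.C (b (ω ^ k * y))) (fun k _ j => ?_) j
    have h1 : AnalyticAt ℂ (fun y : ℂ => ω ^ k * y) 0 := analyticAt_const.mul analyticAt_id
    have h2 : AnalyticAt ℂ (fun y => b (ω ^ k * y)) 0 := by
      refine AnalyticAt.comp (g := b) ?_ h1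
      rw [mul_zero]
      exact hb
    have e : (fun y => (Polynomial.X - Polynomial.C (b (ω ^ k * y))).coeff j) =
        fun y => (Polynomial.X : Polynomial ℂ).coeff j - if j = 0 then b (ω ^ k * y) else 0 := by
      ext y
      rw [Polynomial.coeff_sub, Polynomial.coeff_C]
    rw [e]
    refine analyticAt_const.sub ?_
    by_cases hj : j = 0
    · simp only [hj, if_true]; exact h2
    · simp only [hj, if_false]; exact analyticAt_const
  have hinv : ∀ y, P (ω * y) = P y := by
    intro y
    set F : ℕ → Polynomial ℂ := fun k => Polynomial.X - Polynomial.C (b (ω ^ k * y)) with hF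
    have h1 : P (ω * y) = ∏ k ∈ Finset.range m, F (k + 1) := by
      refine Finset.prod_congr rfl fun k _ => ?_
      show Polynomial.X - Polynomial.C (b (ω ^ k * (ω * y))) =
        Polynomial.X - Polynomial.C (b (ω ^ (k + 1) * y))
      rw [pow_succ, mul_assoc]
    have h2 : F m = F 0 := by
      show Polynomial.X - Polynomial.C (b (ω ^ m * y)) = Polynomial.X - Polynomial.C (b (ω ^ 0 * y))
      rw [hω.pow_eq_one, pow_zero]
    have h3 := Finset.prod_range_succ F m
    have h4 := Finset.prod_range_succ' F m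
    rw [h3, h2] at h4
    have h5 : F 0 ≠ 0 := Polynomial.X_sub_C_ne_zero _
    rw [h1, ← mul_right_cancel₀ h5 h4]
  choose h hh1 hh2 using fun j => inv_descend (hcoe j) hm hω (fun y => by rw [hinv])
  refine ⟨fun p => ∑ j ∈ Finset.range (m + 1), h j p.1 * p.2 ^ j, fun x => ?_, fun y x => ?_⟩
  · refine Finset.analyticAt_fun_sum _ fun j _ => ?_
    refine AnalyticAt.mul ?_ (analyticAt_snd.pow j)
    exact AnalyticAt.comp (g := h j) (f := fun p : ℂ × ℂ => p.1) (hh1 j) analyticAt_fst
  · show ∑ j ∈ Finset.range (m + 1), h j (y ^ m) * x ^ j = _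
    have hdeg : (P y).natDegree < m + 1 := by
      have : (P y).natDegree ≤ ∑ k ∈ Finset.range m, 1 := by
        refine (Polynomial.natDegree_prod_le _ _).trans (Finset.sum_le_sum fun k _ => ?_)
        exact Polynomial.natDegree_X_sub_C_le _
      rw [Finset.sum_const, Finset.card_range, smul_eq_mul, mul_one] at this
      omega
    have h1 := Polynomial.eval_eq_sum_range' hdeg x
    have h2 : (P y).eval x = ∏ k ∈ Finset.range m, (x - b (ω ^ k * y)) := by
      rw [hP]
      simp only [Polynomial.eval_prod, Polynomial.eval_sub, Polynomial.eval_X, Polynomial.eval_C]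
    rw [← h2, h1]
    refine Finset.sum_congr rfl fun j _ => ?_
    rw [hh2]

end Pool.Agent.KS6_68.FV
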