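import Pool.Agent.KS6_68.FV.Hill

/-! The energy estimate for Floquet solutions. -/

set_option autoImplicit false

open Complex Filter Topology Set MeasureTheory

namespace Pool.Agent.KS6_68.FV

/-- The energy identity for a Floquet solution with multiplier of modulus `exp a`. -/
theorem energy {v : ℝ → ℝ} (hv : Continuous v) (hp : ∀ x, v (x + 1) = v x) {E z : ℂ}
    {f g : ℝ → ℂ} (h : Sol (fun x => (v x : ℂ) - E) f g) (hz : ∀ x, f (x + 1) = z * f x)
    {a : ℝ} (ha : ‖z‖ = Real.exp a) :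
    (∫ x in (0 : ℝ)..1, Real.exp (-2 * a * x) * ‖g x‖ ^ 2 : ℝ) -
      2 * a * (∫ x in (0 : ℝ)..1, (Real.exp (-2 * a * x) : ℂ) * ((starRingEnd ℂ) (f x) * g x)) +
      (∫ x in (0 : ℝ)..1, Real.exp (-2 * a * x) * (v x * ‖f x‖ ^ 2) : ℝ) -
      E * (∫ x in (0 : ℝ)..1, Real.exp (-2 * a * x) * ‖f x‖ ^ 2 : ℝ) = 0 := by
  have hfc : Continuous f := continuous_iff_continuousAt.2 fun x => (h.1 x).continuousAt
  have hgc : Continuous g := continuous_iff_continuousAt.2 fun x => (h.2 x).continuousAt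
  have hvc : Continuous fun x => (v x : ℂ) := Complex.continuous_ofReal.comp hv
  have hcj : Continuous (starRingEnd ℂ) := Complex.continuous_conj
  set w : ℝ → ℂ := fun x => (Real.exp (-2 * a * x) : ℂ) with hw
  have hwc : Continuous w := by
    rw [hw]
    exact Complex.continuous_ofReal.comp (by fun_prop)
  have hwd : ∀ x, HasDerivAt w (-2 * a * w x) x := by
    intro x
    have h1 : HasDerivAt (fun x : ℝ => Real.exp (-2 * a * x)) (Real.exp (-2 * a * x) * (-2 * a)) x := by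
      have := ((hasDerivAt_id x).const_mul (-2 * a)).exp
      simpa using this
    have h2 := h1.ofReal_comp
    refine h2.congr_deriv ?_
    rw [hw]
    push_cast
    ring
  -- the function `w conj f g`
  have hH : ∀ x, HasDerivAt (fun x => w x * ((starRingEnd ℂ) (f x) * g x))
      (-2 * a * (w x * ((starRingEnd ℂ) (f x) * g x)) + w x * (‖g x‖ ^ 2 : ℝ) +
        w x * (v x * ‖f x‖ ^ 2 : ℝ) - E * (w x * (‖f x‖ ^ 2 : ℝ))) x := by
    intro x
    have h1 : HasDerivAt (fun x => (starRingEnd ℂ) (f x)) ((starRingEnd ℂ) (g x)) x := by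
      have := (Complex.conjCLE : ℂ →L[ℝ] ℂ).hasFDerivAt.comp_hasDerivAt x (h.1 x)
      exact this
    have h2 : HasDerivAt (fun x => (starRingEnd ℂ) (f x) * g x)
        ((starRingEnd ℂ) (g x) * g x + (starRingEnd ℂ) (f x) * (((v x : ℂ) - E) * f x)) x :=
      h1.mul (h.2 x)
    refine ((hwd x).mul h2).congr_deriv ?_
    have e1 : (starRingEnd ℂ) (g x) * g x = ((‖g x‖ ^ 2 : ℝ) : ℂ) := by
      rw [Complex.conj_mul']; push_cast; rfl
    have e2 : (starRingEnd ℂ) (f x) * f x = ((‖f x‖ ^ 2 : ℝ) : ℂ) := by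
      rw [Complex.conj_mul']; push_cast; rfl
    have e3 : ((v x * ‖f x‖ ^ 2 : ℝ) : ℂ) = v x * ((‖f x‖ ^ 2 : ℝ) : ℂ) := by push_cast; ring
    rw [e3, ← e1, ← e2]
    ring
  have c1 : Continuous fun x => w x * ((starRingEnd ℂ) (f x) * g x) :=
    hwc.mul ((hcj.comp hfc).mul hgc)
  have c2 : Continuous fun x => w x * (‖g x‖ ^ 2 : ℝ) :=
    hwc.mul (Complex.continuous_ofReal.comp (by fun_prop))
  have c3 : Continuous fun x => w x * (v x * ‖f x‖ ^ 2 : ℝ) :=
    hwc.mul (Complex.continuous_ofReal.comp (by fun_prop))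
  have c4 : Continuous fun x => w x * (‖f x‖ ^ 2 : ℝ) :=
    hwc.mul (Complex.continuous_ofReal.comp (by fun_prop))
  have c1' : Continuous fun x => -2 * (a : ℂ) * (w x * ((starRingEnd ℂ) (f x) * g x)) :=
    continuous_const.mul c1
  have c4' : Continuous fun x => E * (w x * (‖f x‖ ^ 2 : ℝ)) := continuous_const.mul c4
  have c12 : Continuous fun x => -2 * (a : ℂ) * (w x * ((starRingEnd ℂ) (f x) * g x)) +
    w x * (‖g x‖ ^ 2 : ℝ) := c1'.add c2
  have c123 : Continuous fun x => -2 * (a : ℂ) * (w x * ((starRingEnd ℂ) (f x) * g x)) +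
    w x * (‖g x‖ ^ 2 : ℝ) + w x * (v x * ‖f x‖ ^ 2 : ℝ) := c12.add c3
  have c1234 : Continuous fun x => -2 * (a : ℂ) * (w x * ((starRingEnd ℂ) (f x) * g x)) +
    w x * (‖g x‖ ^ 2 : ℝ) + w x * (v x * ‖f x‖ ^ 2 : ℝ) - E * (w x * (‖f x‖ ^ 2 : ℝ)) :=
    c123.sub c4'
  have hI := intervalIntegral.integral_eq_sub_of_hasDerivAt (a := 0) (b := 1) (fun t _ => hH t)
    (c1234.intervalIntegrable _ _)
  rw [intervalIntegral.integral_sub, intervalIntegral.integral_add, intervalIntegral.integral_add,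
    intervalIntegral.integral_const_mul, intervalIntegral.integral_const_mul] at hI
  rotate_left
  · exact c1'.intervalIntegrable _ _
  · exact c2.intervalIntegrable _ _
  · exact c12.intervalIntegrable _ _
  · exact c3.intervalIntegrable _ _
  · exact c123.intervalIntegrable _ _
  · exact c4'.intervalIntegrable _ _
  have eb : w 1 * ((starRingEnd ℂ) (f 1) * g 1) = w 0 * ((starRingEnd ℂ) (f 0) * g 0) := by
    have e1 : f 1 = z * f 0 := by simpa using hz 0
    have e2 : g 1 = z * g 0 := by simpa using h.shift hz 0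
    rw [e1, e2, map_mul]
    have e3 : w 1 * ((starRingEnd ℂ) z * z) = 1 := by
      rw [Complex.conj_mul', ha, hw]
      have h5 : Real.exp (-2 * a * 1) * Real.exp a ^ 2 = 1 := by
        rw [← Real.exp_nat_mul, ← Real.exp_add]
        have : -2 * a * 1 + (2 : ℕ) * a = 0 := by push_cast; ring
        rw [this, Real.exp_zero]
      have h6 := congrArg (fun t : ℝ => (t : ℂ)) h5
      rw [Complex.ofReal_mul, Complex.ofReal_pow, Complex.ofReal_one] at h6
      exact h6
    have e4 : w 0 = 1 := by rw [hw]; simp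
    rw [e4]
    linear_combination ((starRingEnd ℂ) (f 0) * g 0) * e3
  rw [eb, sub_self] at hI
  have r1 : ((∫ x in (0 : ℝ)..1, Real.exp (-2 * a * x) * ‖g x‖ ^ 2 : ℝ) : ℂ) =
      ∫ x in (0 : ℝ)..1, w x * (‖g x‖ ^ 2 : ℝ) := by
    rw [← intervalIntegral.integral_ofReal]
    congr 1
    funext x
    rw [hw]; push_cast; rfl
  have r2 : ((∫ x in (0 : ℝ)..1, Real.exp (-2 * a * x) * (v x * ‖f x‖ ^ 2) : ℝ) : ℂ) =
      ∫ x in (0 : ℝ)..1, w x * (v x * ‖f x‖ ^ 2 : ℝ) := by
    rw [← intervalIntegral.integral_ofReal]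
    congr 1
    funext x
    rw [hw]; push_cast; rfl
  have r3 : ((∫ x in (0 : ℝ)..1, Real.exp (-2 * a * x) * ‖f x‖ ^ 2 : ℝ) : ℂ) =
      ∫ x in (0 : ℝ)..1, w x * (‖f x‖ ^ 2 : ℝ) := by
    rw [← intervalIntegral.integral_ofReal]
    congr 1
    funext x
    rw [hw]; push_cast; rfl
  rw [r1, r2, r3]
  linear_combination hI

/-- location of the energies with a Floquet multiplier of modulus `exp a` -/
theorem energy_bound {v : ℝ → ℝ} (hv : Continuous v) (hp : ∀ x, v (x + 1) = v x) {m : ℝ}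
    (hm : ∀ x, m ≤ v x) {E z : ℂ} (h : Mult v E z) {a : ℝ} (ha : ‖z‖ = Real.exp a) :
    m - 2 * a ^ 2 ≤ E.re ∧ |E.im| ≤ 2 * (E.re - m) + 5 * a ^ 2 ∧ (a = 0 → E.im = 0) := by
  obtain ⟨f, g, hs, hz, x0, hx0⟩ := h
  have hfc : Continuous f := continuous_iff_continuousAt.2 fun x => (hs.1 x).continuousAt
  have hgc : Continuous g := continuous_iff_continuousAt.2 fun x => (hs.2 x).continuousAt
  have en := energy hv hp hs hz ha
  set I0 : ℝ := ∫ x in (0 : ℝ)..1, Real.exp (-2 * a * x) * ‖f x‖ ^ 2 with hI0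
  set J0 : ℝ := ∫ x in (0 : ℝ)..1, Real.exp (-2 * a * x) * ‖g x‖ ^ 2 with hJ0
  set W0 : ℝ := ∫ x in (0 : ℝ)..1, Real.exp (-2 * a * x) * (v x * ‖f x‖ ^ 2) with hW0
  set K0 : ℂ := ∫ x in (0 : ℝ)..1, (Real.exp (-2 * a * x) : ℂ) * ((starRingEnd ℂ) (f x) * g x) with hK0
  have ci : Continuous fun x => Real.exp (-2 * a * x) * ‖f x‖ ^ 2 := by fun_prop
  have cj : Continuous fun x => Real.exp (-2 * a * x) * ‖g x‖ ^ 2 := by fun_prop
  have cw : Continuous fun x => Real.exp (-2 * a * x) * (v x * ‖f x‖ ^ 2) := by fun_prop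
  -- positivity of `I0`
  have hIpos : 0 < I0 := by
    rw [hI0]
    obtain ⟨x1, hx1, hx1'⟩ : ∃ x1 ∈ Set.Icc (0 : ℝ) 1, f x1 ≠ 0 := by
      by_contra hc
      push Not at hc
      obtain ⟨C, hC⟩ := pot1_bdd hv hp E
      apply hx0
      refine hs.uniq hC (x0 := 1 / 2) (hc _ ⟨by norm_num, by norm_num⟩) ?_ x0
      have e1 : f =ᶠ[𝓝 (1 / 2 : ℝ)] fun _ => (0 : ℂ) := by
        filter_upwards [Icc_mem_nhds (show (0 : ℝ) < 1 / 2 by norm_num)
          (show (1 / 2 : ℝ) < 1 by norm_num)] with x hx using hc x hx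
      exact ((hs.1 (1 / 2)).congr_of_eventuallyEq e1.symm).unique (hasDerivAt_const _ _)
    refine intervalIntegral.integral_pos (by norm_num) ci.continuousOn (fun x _ => by positivity)
      ⟨x1, hx1, by positivity⟩
  have hJ : 0 ≤ J0 := intervalIntegral.integral_nonneg (by norm_num) fun x _ => by positivity
  have hW : m * I0 ≤ W0 := by
    rw [hI0, hW0, ← intervalIntegral.integral_const_mul]
    refine intervalIntegral.integral_mono_on (by norm_num)
      ((continuous_const.mul ci).intervalIntegrable _ _) (cw.intervalIntegrable _ _) fun x _ => ?_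
    have h1 := hm x
    have h2 : 0 ≤ Real.exp (-2 * a * x) * ‖f x‖ ^ 2 := by positivity
    nlinarith
  -- bound of `2 a K0`
  have hK : ∀ t : ℝ, 0 < t → ‖2 * a * K0‖ ≤ t * J0 + a ^ 2 / t * I0 := by
    intro t ht
    have e1 : 2 * (a : ℂ) * K0 = ∫ x in (0 : ℝ)..1, 2 * (a : ℂ) *
        ((Real.exp (-2 * a * x) : ℂ) * ((starRingEnd ℂ) (f x) * g x)) := by
      rw [hK0, intervalIntegral.integral_const_mul]
    have cj' : Continuous fun x => t * (Real.exp (-2 * a * x) * ‖g x‖ ^ 2) := by fun_prop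
    have ci' : Continuous fun x => a ^ 2 / t * (Real.exp (-2 * a * x) * ‖f x‖ ^ 2) := by fun_prop
    have cij : Continuous fun x => t * (Real.exp (-2 * a * x) * ‖g x‖ ^ 2) +
      a ^ 2 / t * (Real.exp (-2 * a * x) * ‖f x‖ ^ 2) := cj'.add ci'
    rw [e1, hJ0, hI0, ← intervalIntegral.integral_const_mul, ← intervalIntegral.integral_const_mul,
      ← intervalIntegral.integral_add (cj'.intervalIntegrable _ _)
      (ci'.intervalIntegrable _ _)]
    refine intervalIntegral.norm_integral_le_of_norm_le (by norm_num) ?_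
      (cij.intervalIntegrable _ _)
    refine .of_forall fun x _ => ?_
    rw [norm_mul, norm_mul, norm_mul, norm_mul, Complex.norm_conj, Complex.norm_real,
      Complex.norm_real, Real.norm_eq_abs, Real.norm_eq_abs, abs_of_pos (Real.exp_pos _)]
    have h2 : ‖(2 : ℂ)‖ = 2 := by simp
    rw [h2]
    have h3 : 2 * |a| * (‖f x‖ * ‖g x‖) ≤ t * ‖g x‖ ^ 2 + a ^ 2 / t * ‖f x‖ ^ 2 := by
      have h4 : 0 ≤ (t * ‖g x‖ - |a| * ‖f x‖) ^ 2 := sq_nonneg _
      have h5 : |a| ^ 2 = a ^ 2 := sq_abs a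
      have h6 : t * (2 * |a| * (‖f x‖ * ‖g x‖)) ≤ t * (t * ‖g x‖ ^ 2 + a ^ 2 / t * ‖f x‖ ^ 2) := by
        have : t * (t * ‖g x‖ ^ 2 + a ^ 2 / t * ‖f x‖ ^ 2) = t ^ 2 * ‖g x‖ ^ 2 + a ^ 2 * ‖f x‖ ^ 2 := by
          field_simp
        rw [this, ← h5]
        nlinarith
      exact le_of_mul_le_mul_left h6 ht
    have h7 := Real.exp_pos (-2 * a * x)
    calc 2 * |a| * (Real.exp (-2 * a * x) * (‖f x‖ * ‖g x‖))
        = Real.exp (-2 * a * x) * (2 * |a| * (‖f x‖ * ‖g x‖)) := by ring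
      _ ≤ Real.exp (-2 * a * x) * (t * ‖g x‖ ^ 2 + a ^ 2 / t * ‖f x‖ ^ 2) := by gcongr
      _ = _ := by ring
  have re := congrArg Complex.re en
  have im := congrArg Complex.im en
  simp only [add_re, sub_re, mul_re, ofReal_re, ofReal_im, mul_zero, sub_zero, zero_re] at re
  simp only [add_im, sub_im, mul_im, ofReal_re, ofReal_im, mul_zero, zero_add, add_zero, zero_im] at im
  set T : ℂ := 2 * a * K0 with hT
  have re' : J0 - T.re + W0 - E.re * I0 = 0 := by
    have := congrArg Complex.re en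
    simpa using this
  have im' : -T.im - E.im * I0 = 0 := by
    have := congrArg Complex.im en
    simpa using this
  have k1 := hK (1 / 2) (by norm_num)
  have k2 := hK 1 one_pos
  have r1 := (Complex.abs_re_le_norm T).trans k1
  have r2 := (Complex.abs_im_le_norm T).trans k2
  have r3 := abs_le.1 r1
  have J1 : 1 / 2 * J0 ≤ (E.re - m + 2 * a ^ 2) * I0 := by
    have : a ^ 2 / (1 / 2) = 2 * a ^ 2 := by ring
    rw [this] at r3
    nlinarith [r3.2]
  refine ⟨?_, ?_, ?_⟩
  · have : 0 ≤ (E.re - m + 2 * a ^ 2) * I0 := by linarith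
    have := nonneg_of_mul_nonneg_left this hIpos
    linarith
  · have h1 : |E.im| * I0 = |T.im| := by
      have : E.im * I0 = -T.im := by linarith
      rw [← abs_of_pos hIpos, ← abs_mul, this, abs_neg]
    have h2 : |E.im| * I0 ≤ (2 * (E.re - m) + 5 * a ^ 2) * I0 := by
      rw [h1]
      have : a ^ 2 / 1 = a ^ 2 := by ring
      rw [this] at r2
      nlinarith
    exact le_of_mul_le_mul_right h2 hIpos
  · rintro rfl
    have : T = 0 := by rw [hT]; simp
    rw [this] at im'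
    have h1 : E.im * I0 = 0 := by
      simp only [zero_im] at im'
      linarith
    exact (mul_eq_zero.1 h1).resolve_right hIpos.ne'

end Pool.Agent.KS6_68.FV
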