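import Pool.Agent.KS6_68.FV.Sep

set_option autoImplicit false

open Complex Filter Topology Set MeasureTheory

namespace Pool.Agent.KS6_68.FV

variable {v1 v2 : ℝ → ℝ} {z1 z2 lam : ℂ} {u ux uxx uy uyy w wx wxx wy wyy : ℝ → ℝ → ℂ}

theorem Cl.add (h : Cl v1 v2 z1 z2 lam u ux uxx uy uyy) (k : Cl v1 v2 z1 z2 lam w wx wxx wy wyy) :
    Cl v1 v2 z1 z2 lam (u + w) (ux + wx) (uxx + wxx) (uy + wy) (uyy + wyy) where
  cu := h.cu.add k.cu
  cux := h.cux.add k.cux
  cuxx := h.cuxx.add k.cuxx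
  cuy := h.cuy.add k.cuy
  cuyy := h.cuyy.add k.cuyy
  hx x y := (h.hx x y).add (k.hx x y)
  hxx x y := (h.hxx x y).add (k.hxx x y)
  hy x y := (h.hy x y).add (k.hy x y)
  hyy x y := (h.hyy x y).add (k.hyy x y)
  pde x y := by
    simp only [Pi.add_apply]
    linear_combination h.pde x y + k.pde x y
  p1 x y := by
    simp only [Pi.add_apply]
    linear_combination h.p1 x y + k.p1 x y
  p2 x y := by
    simp only [Pi.add_apply]
    linear_combination h.p2 x y + k.p2 x y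

theorem Cl.smul (c : ℂ) (h : Cl v1 v2 z1 z2 lam u ux uxx uy uyy) :
    Cl v1 v2 z1 z2 lam (c • u) (c • ux) (c • uxx) (c • uy) (c • uyy) where
  cu := continuous_const.mul h.cu
  cux := continuous_const.mul h.cux
  cuxx := continuous_const.mul h.cuxx
  cuy := continuous_const.mul h.cuy
  cuyy := continuous_const.mul h.cuyy
  hx x y := (h.hx x y).const_mul c
  hxx x y := (h.hxx x y).const_mul c
  hy x y := (h.hy x y).const_mul c
  hyy x y := (h.hyy x y).const_mul c
  pde x y := by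
    simp only [Pi.smul_apply, smul_eq_mul]
    linear_combination c * h.pde x y
  p1 x y := by
    simp only [Pi.smul_apply, smul_eq_mul]
    linear_combination c * h.p1 x y
  p2 x y := by
    simp only [Pi.smul_apply, smul_eq_mul]
    linear_combination c * h.p2 x y

theorem Cl.zero : Cl v1 v2 z1 z2 lam 0 0 0 0 0 where
  cu := continuous_const
  cux := continuous_const
  cuxx := continuous_const
  cuy := continuous_const
  cuyy := continuous_const
  hx x y := hasDerivAt_const _ _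
  hxx x y := hasDerivAt_const _ _
  hy x y := hasDerivAt_const _ _
  hyy x y := hasDerivAt_const _ _
  pde x y := by simp
  p1 x y := by simp
  p2 x y := by simp

/-- the space of classical quasi-periodic solutions -/
def Esp (v1 v2 : ℝ → ℝ) (z1 z2 lam : ℂ) : Submodule ℂ (ℝ → ℝ → ℂ) where
  carrier := {u | ∃ ux uxx uy uyy, Cl v1 v2 z1 z2 lam u ux uxx uy uyy}
  add_mem' := by
    rintro u w ⟨_, _, _, _, h⟩ ⟨_, _, _, _, k⟩
    exact ⟨_, _, _, _, h.add k⟩
  zero_mem' := ⟨_, _, _, _, Cl.zero⟩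
  smul_mem' := by
    rintro c u ⟨_, _, _, _, h⟩
    exact ⟨_, _, _, _, h.smul c⟩

theorem Esp_cont {u : ℝ → ℝ → ℂ} (hu : u ∈ Esp v1 v2 z1 z2 lam) : Continuous (Function.uncurry u) := by
  obtain ⟨_, _, _, _, h⟩ := hu
  exact h.cu

theorem Esp_fin (hv1 : Continuous v1) (hp1 : ∀ x, v1 (x + 1) = v1 x) (hv2 : Continuous v2)
    (hp2 : ∀ x, v2 (x + 1) = v2 x) (hz1 : z1 ≠ 0) (hz2 : z2 ≠ 0) : FiniteDimensional ℂ (Esp v1 v2 z1 z2 lam) := by
  obtain ⟨k1, hk1⟩ : ∃ k1 : ℂ, z1 = exp (2 * Real.pi * I * k1) := by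
    refine ⟨log z1 / (2 * Real.pi * I), ?_⟩
    rw [mul_div_cancel₀ _ Complex.two_pi_I_ne_zero, exp_log hz1]
  obtain ⟨k2, hk2⟩ : ∃ k2 : ℂ, z2 = exp (2 * Real.pi * I * k2) := by
    refine ⟨log z2 / (2 * Real.pi * I), ?_⟩
    rw [mul_div_cancel₀ _ Complex.two_pi_I_ne_zero, exp_log hz2]
  obtain ⟨C, hC0, hC⟩ := pot_bdd hv1 hp1 hv2 hp2 lam
  have hfin := sy_fin k1 k2 C
  have : Finite {n : ℤ × ℤ | ‖sy k1 k2 n‖ ≤ C} := hfin
  let T : Esp v1 v2 z1 z2 lam →ₗ[ℂ] ({n : ℤ × ℤ | ‖sy k1 k2 n‖ ≤ C} → ℂ) :=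
    { toFun := fun u n => cf (fun x y => wt k1 k2 x y * u.1 x y) n.1
      map_add' := fun u w => by
        funext n
        show cf (fun x y => wt k1 k2 x y * (u.1 x y + w.1 x y)) n.1 = _
        simp only [mul_add]
        exact cf_add (p := fun x y => wt k1 k2 x y * u.1 x y) (r := fun x y => wt k1 k2 x y * w.1 x y)
          ((wt_cont k1 k2).mul (Esp_cont u.2)) ((wt_cont k1 k2).mul (Esp_cont w.2)) n.1
      map_smul' := fun c u => by
        funext n
        show cf (fun x y => wt k1 k2 x y * (c * u.1 x y)) n.1 =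
          c * cf (fun x y => wt k1 k2 x y * u.1 x y) n.1
        rw [← cf_smul]
        congr 1
        funext x y
        ring }
  refine FiniteDimensional.of_injective T ?_
  rw [← LinearMap.ker_eq_bot, LinearMap.ker_eq_bot']
  intro u hu
  apply Subtype.ext
  obtain ⟨_, _, _, _, h⟩ := u.2
  exact h.inj hv1 hv2 hk1 hk2 hC0 hC fun n hn => congrFun hu ⟨n, hn⟩

variable {ζ m1 m2 : ℂ} {f1 g1 f2 g2 : ℝ → ℂ}

theorem ofReal_cont {v : ℝ → ℝ} (hv : Continuous v) : Continuous fun x : ℝ => (v x : ℂ) :=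
  Complex.continuous_ofReal.comp hv

theorem Cl.res (hv1 : Continuous v1) (h : Cl v1 v2 z1 z2 lam u ux uxx uy uyy)
    (D : RD (fun x => (v1 x : ℂ) - ζ) f1 g1 f2 g2 m1 m2 z1) :
    Cl v1 v2 z1 z2 lam (fun x y => Rs f1 f2 m1 m2 z1 (fun t => u t y) x)
      (fun x y => Rs' f1 g1 f2 g2 m1 m2 z1 (fun t => u t y) x)
      (fun x y => ((v1 x : ℂ) - ζ) * Rs f1 f2 m1 m2 z1 (fun t => u t y) x +
        (f1 0 * g2 0 - g1 0 * f2 0) * u x y)
      (fun x y => Rs f1 f2 m1 m2 z1 (fun t => uy t y) x)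
      (fun x y => Rs f1 f2 m1 m2 z1 (fun t => uyy t y) x) where
  cu := D.cont2 h.cu
  cux := D.cont2' h.cu
  cuxx := by
    have h1 : Continuous fun r : ℝ × ℝ => (v1 r.1 : ℂ) - ζ :=
      ((ofReal_cont hv1).comp continuous_fst).sub continuous_const
    exact (h1.mul (D.cont2 h.cu)).add (continuous_const.mul h.cu)
  cuy := D.cont2 h.cuy
  cuyy := D.cont2 h.cuyy
  hx x y := D.R1 (sl_cont h.cu y) (fun x => h.p1 x y) x
  hxx x y := D.R2 (sl_cont h.cu y) (fun x => h.p1 x y) x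
  hy x y := D.under h.cu h.cuy (fun t y => h.hy t y) x y
  hyy x y := D.under h.cuy h.cuyy (fun t y => h.hyy t y) x y
  pde x y := by
    have e : (fun t => uyy t y) = fun t => (-1 : ℂ) * (uxx t y - ((v1 t : ℂ) - ζ) * u t y) +
        ((v2 y : ℂ) - lam + ζ) * u t y := by
      funext t
      have := h.pde t y
      linear_combination this
    have hc : Continuous fun t => uxx t y - ((v1 t : ℂ) - ζ) * u t y :=
      (sl_cont h.cuxx y).sub (((ofReal_cont hv1).sub continuous_const).mul (sl_cont h.cu y))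
    have e2 : Rs f1 f2 m1 m2 z1 (fun t => uyy t y) x =
        (-1 : ℂ) * Rs f1 f2 m1 m2 z1 (fun t => uxx t y - ((v1 t : ℂ) - ζ) * u t y) x +
        ((v2 y : ℂ) - lam + ζ) * Rs f1 f2 m1 m2 z1 (fun t => u t y) x := by
      rw [e]
      exact D.R5 hc (sl_cont h.cu y) _ _ x
    have e3 := D.R3 ((ofReal_cont hv1).sub continuous_const) (F := fun t => u t y) (F' := fun t => ux t y)
      (F'' := fun t => uxx t y) (fun t => h.hx t y) (fun t => h.hxx t y) (sl_cont h.cuxx y)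
      (fun t => h.p1 t y) x
    rw [e2, e3]
    ring
  p1 x y := D.R4 (fun x => h.p1 x y) x
  p2 x y := by
    have e : (fun t => u t (y + 1)) = fun t => z2 * u t y + 0 * u t y := by
      funext t
      rw [h.p2]; ring
    show Rs f1 f2 m1 m2 z1 (fun t => u t (y + 1)) x = z2 * Rs f1 f2 m1 m2 z1 (fun t => u t y) x
    rw [e, D.R5 (sl_cont h.cu y) (sl_cont h.cu y)]
    ring

theorem Cl.sep (hv1 : Continuous v1) (hp1 : ∀ x, v1 (x + 1) = v1 x) (hv2 : Continuous v2)
    (hp2 : ∀ x, v2 (x + 1) = v2 x) (h : Cl v1 v2 z1 z2 lam u ux uxx uy uyy) (hz1 : z1 ≠ 0) (hz2 : z2 ≠ 0)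
    (D : RD (fun x => (v1 x : ℂ) - ζ) f1 g1 f2 g2 m1 m2 z1) (hne : u ≠ 0) :
    ∃ μ, Mult v1 μ z1 ∧ Mult v2 (lam - μ) z2 := by
  have hfd := Esp_fin (lam := lam) hv1 hp1 hv2 hp2 hz1 hz2
  have hnt : Nontrivial (Esp v1 v2 z1 z2 lam) := by
    refine ⟨⟨⟨u, _, _, _, _, h⟩, 0, fun e => hne ?_⟩⟩
    exact congrArg Subtype.val e
  let R : Module.End ℂ (Esp v1 v2 z1 z2 lam) :=
    { toFun := fun u => ⟨fun x y => Rs f1 f2 m1 m2 z1 (fun t => u.1 t y) x, by
        obtain ⟨_, _, _, _, h⟩ := u.2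
        exact ⟨_, _, _, _, h.res hv1 D⟩⟩
      map_add' := fun u w => by
        apply Subtype.ext
        funext x y
        show Rs f1 f2 m1 m2 z1 (fun t => u.1 t y + w.1 t y) x =
          Rs f1 f2 m1 m2 z1 (fun t => u.1 t y) x + Rs f1 f2 m1 m2 z1 (fun t => w.1 t y) x
        have := D.R5 (sl_cont (Esp_cont u.2) y) (sl_cont (Esp_cont w.2) y) 1 1 x
        simpa using this
      map_smul' := fun c u => by
        apply Subtype.ext
        funext x y
        show Rs f1 f2 m1 m2 z1 (fun t => c * u.1 t y) x =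
          c * Rs f1 f2 m1 m2 z1 (fun t => u.1 t y) x
        have := D.R5 (sl_cont (Esp_cont u.2) y) (sl_cont (Esp_cont u.2) y) c 0 x
        simpa using this }
  obtain ⟨ν, hν⟩ := Module.End.exists_eigenvalue R
  obtain ⟨e, he⟩ := hν.exists_hasEigenvector
  have he1 : R e = ν • e := he.apply_eq_smul
  have he2 : e ≠ 0 := he.2
  obtain ⟨w, hw⟩ := e
  obtain ⟨wx, wxx, wy, wyy, hcl⟩ := hw
  have hw0 : ∃ x y, w x y ≠ 0 := by
    by_contra hc
    push Not at hc
    apply he2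
    apply Subtype.ext
    funext x y
    exact hc x y
  have hR : ∀ x y, Rs f1 f2 m1 m2 z1 (fun t => w t y) x = ν * w x y := by
    intro x y
    have := congrArg Subtype.val he1
    exact congrFun (congrFun this x) y
  set W : ℂ := f1 0 * g2 0 - g1 0 * f2 0 with hW
  have hres := hcl.res hv1 D
  have key : ∀ x y, ν * wxx x y = ((v1 x : ℂ) - ζ) * (ν * w x y) + W * w x y := by
    intro x y
    have d0 : ∀ x y, HasDerivAt (fun s => ν * w s y) (ν * wx x y) x :=
      fun x y => (hcl.hx x y).const_mul ν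
    have d1 : ∀ x, Rs' f1 g1 f2 g2 m1 m2 z1 (fun t => w t y) x = ν * wx x y := by
      intro x
      have h1 := hres.hx x y
      have e1 : (fun s => Rs f1 f2 m1 m2 z1 (fun t => w t y) s) = fun s => ν * w s y :=
        funext fun s => hR s y
      have h1' : HasDerivAt (fun s => Rs f1 f2 m1 m2 z1 (fun t => w t y) s)
        (Rs' f1 g1 f2 g2 m1 m2 z1 (fun t => w t y) x) x := h1
      rw [e1] at h1'
      exact h1'.unique (d0 x y)
    have h2 := hres.hxx x y
    have h2' : HasDerivAt (fun s => Rs' f1 g1 f2 g2 m1 m2 z1 (fun t => w t y) s)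
      (((v1 x : ℂ) - ζ) * Rs f1 f2 m1 m2 z1 (fun t => w t y) x + W * w x y) x := h2
    rw [funext d1, hR] at h2'
    exact ((hcl.hxx x y).const_mul ν).unique h2'
  have hν0 : ν ≠ 0 := by
    rintro rfl
    obtain ⟨x, y, hxy⟩ := hw0
    have := key x y
    simp only [zero_mul, mul_zero, zero_add] at this
    rcases mul_eq_zero.1 this.symm with h1 | h1
    · exact D.wr h1
    · exact hxy h1
  set μ : ℂ := ζ - W / ν with hμ
  have kxx : ∀ x y, wxx x y = ((v1 x : ℂ) - μ) * w x y := by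
    intro x y
    apply mul_left_cancel₀ hν0
    rw [key x y, hμ]
    field_simp
    ring
  have kyy : ∀ x y, wyy x y = ((v2 y : ℂ) - (lam - μ)) * w x y := by
    intro x y
    have := hcl.pde x y
    rw [kxx] at this
    linear_combination this
  obtain ⟨x0, y0, h0⟩ := hw0
  refine ⟨μ, ⟨fun x => w x y0, fun x => wx x y0, ⟨fun x => hcl.hx x y0, fun x => ?_⟩,
    fun x => hcl.p1 x y0, x0, h0⟩, ⟨fun y => w x0 y, fun y => wy x0 y,
    ⟨fun y => hcl.hy x0 y, fun y => ?_⟩, fun y => hcl.p2 x0 y, y0, h0⟩⟩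
  · rw [← kxx]; exact hcl.hxx x y0
  · rw [← kyy]; exact hcl.hyy x0 y

end Pool.Agent.KS6_68.FV
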