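import Pool.Agent.KS6_68.FV.RealDisc
import Pool.Agent.KS6_68.FV.Sep2

/-! The Fermi variety of a separable potential. -/

set_option autoImplicit false

open Complex Filter Topology Set

namespace Pool.Agent.KS6_68.FV

theorem exists_root (d : ℂ) : ∃ z : ℂ, z ≠ 0 ∧ d = z + z⁻¹ := by
  obtain ⟨r, hr⟩ := IsAlgClosed.exists_pow_nat_eq (d ^ 2 - 4) (n := 2) (by norm_num)
  set z : ℂ := (d + r) / 2 with hz
  have h1 : z * (d - z) = 1 := by
    rw [hz]
    linear_combination -(1 / 4 : ℂ) * hr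
  have h2 : z ≠ 0 := left_ne_zero_of_mul_eq_one h1
  refine ⟨z, h2, ?_⟩
  have h3 : z⁻¹ = d - z := by
    field_simp
    linear_combination -h1
  rw [h3]
  ring

theorem exists_RD {v : ℝ → ℝ} (hv : Continuous v) (hp : ∀ x, v (x + 1) = v x) (z : ℂ) (hz : z ≠ 0) :
    ∃ (ζ m1 m2 : ℂ) (f1 g1 f2 g2 : ℝ → ℂ), RD (fun x => (v x : ℂ) - ζ) f1 g1 f2 g2 m1 m2 z := by
  obtain ⟨c, c', s, s', F⟩ := exists_fund hv
  obtain ⟨m, hm⟩ := exists_lower hv hp
  have P := F.props hv hp hm
  obtain ⟨E0, -, hE0⟩ := P.large (3 + ‖z + z⁻¹‖)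
  have h0 := hE0 E0 le_rfl
  set d : ℂ := c E0 1 + s' E0 1 with hd
  have h0' : 3 + ‖z + z⁻¹‖ ≤ d.re := h0
  have n0 := norm_nonneg (z + z⁻¹)
  have hre := Complex.re_le_norm d
  have hdz : d ≠ z + z⁻¹ := by
    intro h
    rw [h] at h0' hre
    linarith
  have hd2 : d ≠ 2 := by
    intro h
    rw [h] at h0'
    norm_num at h0'
    linarith
  have hd2' : d ≠ -2 := by
    intro h
    rw [h] at h0'
    norm_num at h0'
    linarith
  obtain ⟨w, hw, hdw⟩ := exists_root d
  obtain ⟨f1, g1, h1, h2, h3⟩ := (F.mult_iff hv hp E0 w).2 ⟨hw, by rw [← hd]; exact hdw⟩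
  obtain ⟨f2, g2, k1, k2, k3⟩ := (F.mult_iff hv hp E0 w⁻¹).2 ⟨inv_ne_zero hw, by
    rw [← hd, inv_inv, hdw]; ring⟩
  obtain ⟨C, hC⟩ := pot1_bdd hv hp (E0 : ℂ)
  refine ⟨E0, w, w⁻¹, f1, g1, f2, g2, ⟨h1, k1, h2, k2, mul_inv_cancel₀ hw, ?_, ?_, ?_⟩⟩
  · intro h
    apply hdz
    have h5 : w = z⁻¹ := by
      field_simp
      linear_combination h
    rw [hdw, h5, inv_inv]
    ring
  · intro h
    apply hdz
    have h5 : w = z := by
      field_simp at h
      linear_combination -h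
    rw [hdw, h5]
  · intro h
    have h5 := h1.mult0 hC k1 h2 k2 h3 k3 h
    have h6 : w * w = 1 := by
      nth_rewrite 2 [h5]
      exact mul_inv_cancel₀ hw
    have h7 : (w - 1) * (w + 1) = 0 := by linear_combination h6
    rcases mul_eq_zero.1 h7 with h8 | h8
    · apply hd2
      have : w = 1 := by linear_combination h8
      rw [hdw, this]; norm_num
    · apply hd2'
      have : w = -1 := by linear_combination h8
      rw [hdw, this]; norm_num

theorem int_shift {f : ℝ → ℂ} {z : ℂ} (hz : z ≠ 0) (h : ∀ x, f (x + 1) = z * f x) :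
    ∀ (n : ℤ) (x : ℝ), f (x + n) = z ^ n * f x := by
  intro n
  induction n using Int.induction_on with
  | zero => intro x; simp
  | succ i ih =>
    intro x
    have : x + ((i : ℤ) + 1 : ℤ) = (x + (i : ℤ)) + 1 := by push_cast; ring
    rw [this, h, ih, zpow_add₀ hz]
    simp; ring
  | pred i ih =>
    intro x
    have h1 := h (x + ((-(i : ℤ) - 1 : ℤ) : ℝ))
    have : x + ((-(i : ℤ) - 1 : ℤ) : ℝ) + 1 = x + ((-(i : ℤ) : ℤ) : ℝ) := by push_cast; ring
    rw [this, ih] at h1
    rw [zpow_sub₀ hz, zpow_one]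
    field_simp
    linear_combination -h1

theorem exp_mn (k : ℂ × ℂ) (m n : ℤ) :
    exp (2 * Real.pi * I * (k.1 * m + k.2 * n)) = (quasi k).1 ^ m * (quasi k).2 ^ n := by
  unfold quasi
  rw [← Complex.exp_int_mul, ← Complex.exp_int_mul, ← exp_add]
  congr 1
  ring

theorem quasi_mem (k : ℂ × ℂ) : quasi k ∈ torusC := ⟨exp_ne_zero _, exp_ne_zero _⟩

theorem Sol.contDiff {q f g : ℝ → ℂ} (hq : Continuous q) (h : Sol q f g) : ContDiff ℝ 2 f := by
  have hf : Continuous f := h.cont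
  have d1 : deriv f = g := funext fun x => (h.1 x).deriv
  have d2 : deriv g = fun x => q x * f x := funext fun x => (h.2 x).deriv
  have h1 : ContDiff ℝ 1 g := by
    rw [contDiff_one_iff_deriv]
    refine ⟨fun x => (h.2 x).differentiableAt, ?_⟩
    rw [d2]
    exact hq.mul hf
  have e : (2 : WithTop ℕ∞) = 1 + 1 := by norm_num
  rw [e, contDiff_succ_iff_deriv]
  refine ⟨fun x => (h.1 x).differentiableAt, by simp, ?_⟩
  rw [d1]
  exact h1

section

variable {v1 v2 : ℝ → ℝ} (hv1 : Continuous v1) (hp1 : ∀ x, v1 (x + 1) = v1 x)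
  (hv2 : Continuous v2) (hp2 : ∀ x, v2 (x + 1) = v2 x)

include hv1 hv2 in
/-- a product solution -/
theorem mem_fermi {lam μ : ℂ} {k : ℂ × ℂ} (h1 : Mult v1 μ (quasi k).1)
    (h2 : Mult v2 (lam - μ) (quasi k).2) : k ∈ fermi (fun x y => v1 x + v2 y) lam := by
  obtain ⟨f, g, hs, hz, x0, hx0⟩ := h1
  obtain ⟨a, b, ks, kz, y0, hy0⟩ := h2
  have hvc1 : Continuous fun x => (v1 x : ℂ) - μ := (ofReal_cont hv1).sub continuous_const
  have hvc2 : Continuous fun x => (v2 x : ℂ) - (lam - μ) := (ofReal_cont hv2).sub continuous_const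
  refine ⟨fun x y => f x * a y, ?_, ⟨x0, y0, mul_ne_zero hx0 hy0⟩, ?_, ?_⟩
  · exact ((hs.contDiff hvc1).comp contDiff_fst).mul ((ks.contDiff hvc2).comp contDiff_snd)
  · intro x y
    have d2 : ∀ {q f g : ℝ → ℂ} (hs : Sol q f g) (c : ℂ) (x : ℝ),
        iteratedDeriv 2 (fun s => c * f s) x = c * (q x * f x) := by
      intro q f g hs c x
      rw [iteratedDeriv_succ, iteratedDeriv_one]
      have e1 : deriv (fun s => c * f s) = fun s => c * g s := by
        funext s
        exact ((hs.1 s).const_mul c).deriv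
      rw [e1]
      exact ((hs.2 x).const_mul c).deriv
    have e1 : iteratedDeriv 2 (fun s => f s * a y) x = a y * (((v1 x : ℂ) - μ) * f x) := by
      rw [← d2 hs]
      congr 1
      funext s
      ring
    have e2 := d2 ks (f x) y
    rw [e1, e2]
    push_cast
    ring
  · intro m n x y
    show f (x + m) * a (y + n) =
      exp (2 * Real.pi * I * (k.1 * m + k.2 * n)) * (f x * a y)
    rw [exp_mn, int_shift (quasi_mem k).1 hz, int_shift (quasi_mem k).2 kz]
    ring

include hv1 hp1 hv2 hp2 in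
theorem fermi_sub {lam : ℂ} {k : ℂ × ℂ} (hk : k ∈ fermi (fun x y => v1 x + v2 y) lam) :
    ∃ μ, Mult v1 μ (quasi k).1 ∧ Mult v2 (lam - μ) (quasi k).2 := by
  obtain ⟨u, hu, hne, hpde, hper⟩ := hk
  set U : ℝ × ℝ → ℂ := fun p => u p.1 p.2 with hU
  have hu2 : ContDiff ℝ 2 U := hu
  -- partial derivatives
  have P : ∀ {W : ℝ × ℝ → ℂ} (hW : Differentiable ℝ W) (x y : ℝ),
      HasDerivAt (fun s => W (s, y)) (fderiv ℝ W (x, y) (1, 0)) x := by
    intro W hW x y
    have h1 := (hW (x, y)).hasFDerivAt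
    have h2 : HasDerivAt (fun s : ℝ => (s, y)) ((1 : ℝ), (0 : ℝ)) x :=
      (hasDerivAt_id x).prodMk (hasDerivAt_const x y)
    exact h1.comp_hasDerivAt x h2
  have Q : ∀ {W : ℝ × ℝ → ℂ} (hW : Differentiable ℝ W) (x y : ℝ),
      HasDerivAt (fun s => W (x, s)) (fderiv ℝ W (x, y) (0, 1)) y := by
    intro W hW x y
    have h1 := (hW (x, y)).hasFDerivAt
    have h2 : HasDerivAt (fun s : ℝ => (x, s)) ((0 : ℝ), (1 : ℝ)) y :=
      (hasDerivAt_const y x).prodMk (hasDerivAt_id y)
    exact h1.comp_hasDerivAt y h2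
  have R : ∀ v : ℝ × ℝ, ContDiff ℝ 1 (fun p => fderiv ℝ U p v) := by
    intro v
    have : ContDiff ℝ 1 (fderiv ℝ U) := hu2.fderiv_right (by norm_num)
    exact this.clm_apply contDiff_const
  have S : ∀ v w : ℝ × ℝ, Continuous (fun p => fderiv ℝ (fun p => fderiv ℝ U p v) p w) := by
    intro v w
    exact ((R v).continuous_fderiv one_ne_zero).clm_apply continuous_const
  have hUd : Differentiable ℝ U := hu2.differentiable two_ne_zero
  have h1d : ∀ v : ℝ × ℝ, Differentiable ℝ (fun p => fderiv ℝ U p v) :=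
    fun v => (R v).differentiable one_ne_zero
  have hcl : Cl v1 v2 (quasi k).1 (quasi k).2 lam u (fun x y => fderiv ℝ U (x, y) (1, 0))
      (fun x y => fderiv ℝ (fun p => fderiv ℝ U p (1, 0)) (x, y) (1, 0))
      (fun x y => fderiv ℝ U (x, y) (0, 1))
      (fun x y => fderiv ℝ (fun p => fderiv ℝ U p (0, 1)) (x, y) (0, 1)) := by
    refine ⟨hu2.continuous, (R (1, 0)).continuous, S _ _, (R (0, 1)).continuous, S _ _,
      fun x y => P hUd x y, fun x y => P (h1d (1, 0)) x y, fun x y => Q hUd x y,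
      fun x y => Q (h1d (0, 1)) x y, ?_, ?_, ?_⟩
    · intro x y
      have e1 : iteratedDeriv 2 (fun s => u s y) x =
          fderiv ℝ (fun p => fderiv ℝ U p (1, 0)) (x, y) (1, 0) := by
        rw [iteratedDeriv_succ, iteratedDeriv_one]
        have : deriv (fun s => u s y) = fun s => fderiv ℝ U (s, y) (1, 0) :=
          funext fun s => (P hUd s y).deriv
        rw [this]
        exact (P (h1d (1, 0)) x y).deriv
      have e2 : iteratedDeriv 2 (fun t => u x t) y =
          fderiv ℝ (fun p => fderiv ℝ U p (0, 1)) (x, y) (0, 1) := by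
        rw [iteratedDeriv_succ, iteratedDeriv_one]
        have : deriv (fun s => u x s) = fun s => fderiv ℝ U (x, s) (0, 1) :=
          funext fun s => (Q hUd x s).deriv
        rw [this]
        exact (Q (h1d (0, 1)) x y).deriv
      have h := hpde x y
      rw [e1, e2] at h
      push_cast at h
      linear_combination -h
    · intro x y
      have := hper 1 0 x y
      rw [exp_mn] at this
      simpa using this
    · intro x y
      have := hper 0 1 x y
      rw [exp_mn] at this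
      simpa using this
  have hne' : u ≠ 0 := by
    rintro rfl
    obtain ⟨x, y, h⟩ := hne
    exact h rfl
  have hq := quasi_mem k
  obtain ⟨ζ, m1, m2, f1, g1, f2, g2, D⟩ := exists_RD hv1 hp1 (quasi k).1 hq.1
  exact Cl.sep hv1 hp1 hv2 hp2 hcl hq.1 hq.2 D hne'

end

end Pool.Agent.KS6_68.FV
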