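import Pool.Agent.KS6_68.FV.Defs

set_option autoImplicit false

open Complex Filter Topology Set

namespace Pool.Agent.KS6_68.FV

theorem Sol.lin {q f g f' g' : ℝ → ℂ} (h : Sol q f g) (h' : Sol q f' g') (c d : ℂ) :
    Sol q (fun x => c * f x - d * f' x) (fun x => c * g x - d * g' x) := by
  refine ⟨fun x => ((h.1 x).const_mul c).sub ((h'.1 x).const_mul d), fun x => ?_⟩
  refine (((h.2 x).const_mul c).sub ((h'.2 x).const_mul d)).congr_deriv ?_
  ring

theorem Sol.uniq {q f g : ℝ → ℂ} {C : ℝ} (hC : ∀ x, ‖q x‖ ≤ C) (h : Sol q f g) {x0 : ℝ}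
    (h0 : f x0 = 0) (h1 : g x0 = 0) : ∀ x, f x = 0 := by
  have hC0 : 0 ≤ C := (norm_nonneg _).trans (hC 0)
  set K : NNReal := ⟨max 1 C, le_max_of_le_left zero_le_one⟩ with hK
  have hKv : (K : ℝ) = max 1 C := rfl
  have hv : ∀ t : ℝ, LipschitzOnWith K (fun p : ℂ × ℂ => (p.2, q t * p.1)) Set.univ := by
    intro t
    rw [lipschitzOnWith_univ]
    refine LipschitzWith.of_dist_le_mul fun p p' => ?_
    rw [Prod.dist_eq, hKv]
    have hp0 : 0 ≤ dist p p' := dist_nonneg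
    refine max_le ?_ ?_
    · have : dist p.2 p'.2 ≤ dist p p' := le_max_right _ _
      calc dist p.2 p'.2 ≤ dist p p' := this
        _ = 1 * dist p p' := (one_mul _).symm
        _ ≤ max 1 C * dist p p' := by gcongr; exact le_max_left _ _
    · have : dist p.1 p'.1 ≤ dist p p' := le_max_left _ _
      have e : dist (q t * p.1) (q t * p'.1) = ‖q t‖ * dist p.1 p'.1 := by
        rw [dist_eq_norm, dist_eq_norm, ← mul_sub, norm_mul]
      show dist (q t * p.1) (q t * p'.1) ≤ _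
      rw [e]
      calc ‖q t‖ * dist p.1 p'.1 ≤ C * dist p p' := by
            gcongr; exact hC t
        _ ≤ max 1 C * dist p p' := by gcongr; exact le_max_right _ _
  have e := ODE_solution_unique_univ (v := fun t (p : ℂ × ℂ) => (p.2, q t * p.1)) (K := K)
    (s := fun _ => Set.univ) (f := fun t => (f t, g t)) (g := fun _ => (0, 0)) (t₀ := x0) hv
    (fun t => ⟨(h.1 t).prodMk (h.2 t), trivial⟩)
    (fun t => ⟨by
      show HasDerivAt (fun _ : ℝ => ((0 : ℂ), (0 : ℂ))) ((0 : ℂ), q t * 0) t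
      rw [mul_zero]
      exact hasDerivAt_const t ((0 : ℂ), (0 : ℂ)), trivial⟩)
    (by simp [h0, h1])
  intro x
  have := congrFun e x
  exact (Prod.mk.inj this).1

theorem Sol.shift {q f g : ℝ → ℂ} (h : Sol q f g) {z : ℂ} (hz : ∀ x, f (x + 1) = z * f x) (x : ℝ) :
    g (x + 1) = z * g x := by
  have d1 : HasDerivAt (fun x => f (x + 1)) (g (x + 1)) x := HasDerivAt.comp_add_const x 1 (h.1 _)
  have d2 : HasDerivAt (fun x => f (x + 1)) (z * g x) x := by
    have : (fun x => f (x + 1)) = fun x => z * f x := funext hz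
    rw [this]
    exact (h.1 x).const_mul z
  exact d1.unique d2

theorem Sol.wr {q f g f' g' : ℝ → ℂ} (h : Sol q f g) (h' : Sol q f' g') (x : ℝ) :
    f x * g' x - g x * f' x = f 0 * g' 0 - g 0 * f' 0 := by
  have hW : ∀ x, HasDerivAt (fun x => f x * g' x - g x * f' x) 0 x := by
    intro x
    refine (((h.1 x).mul (h'.2 x)).sub ((h.2 x).mul (h'.1 x))).congr_deriv ?_
    ring
  exact is_const_of_deriv_eq_zero (fun x => (hW x).differentiableAt) (fun x => (hW x).deriv) x 0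

theorem Sol.mult0 {q f g f' g' : ℝ → ℂ} {C : ℝ} (hC : ∀ x, ‖q x‖ ≤ C) (h : Sol q f g)
    (h' : Sol q f' g') {z m : ℂ} (hz : ∀ x, f (x + 1) = z * f x) (hm : ∀ x, f' (x + 1) = m * f' x)
    (hf : ∃ x, f x ≠ 0) (hf' : ∃ x, f' x ≠ 0) (hW0 : f 0 * g' 0 - g 0 * f' 0 = 0) : z = m := by
  have k1 : ∀ x, f' 0 * f x - f 0 * f' x = 0 :=
    (h.lin h' (f' 0) (f 0)).uniq hC (x0 := 0) (by ring) (by linear_combination -hW0)
  have k2 : ∀ x, g' 0 * f x - g 0 * f' x = 0 :=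
    (h.lin h' (g' 0) (g 0)).uniq hC (x0 := 0) (by linear_combination hW0) (by ring)
  have k3 : f' 0 ≠ 0 ∨ g' 0 ≠ 0 := by
    by_contra hc
    push Not at hc
    obtain ⟨x, hx⟩ := hf'
    exact hx (h'.uniq hC hc.1 hc.2 x)
  obtain ⟨x, hx⟩ := hf
  obtain ⟨c, d, hcd, hc⟩ : ∃ c d : ℂ, (∀ x, c * f x = d * f' x) ∧ c ≠ 0 := by
    rcases k3 with h3 | h3
    · exact ⟨f' 0, f 0, fun x => by linear_combination k1 x, h3⟩
    · exact ⟨g' 0, g 0, fun x => by linear_combination k2 x, h3⟩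
  have e1 := hcd (x + 1)
  rw [hz, hm] at e1
  have e2 : (z - m) * (c * f x) = 0 := by
    linear_combination e1 - m * hcd x
  rcases mul_eq_zero.1 e2 with e3 | e3
  · exact sub_eq_zero.1 e3
  · exact absurd e3 (mul_ne_zero hc hx)

theorem Sol.mult {q f g f' g' : ℝ → ℂ} {C : ℝ} (hC : ∀ x, ‖q x‖ ≤ C) (h : Sol q f g)
    (h' : Sol q f' g') {z m : ℂ} (hz : ∀ x, f (x + 1) = z * f x) (hm : ∀ x, f' (x + 1) = m * f' x)
    (hf : ∃ x, f x ≠ 0) (hf' : ∃ x, f' x ≠ 0) : z = m ∨ z * m = 1 := by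
  have h1 := h.wr h' (0 + 1)
  simp only [hz, hm, h.shift hz, h'.shift hm] at h1
  by_cases hW0 : f 0 * g' 0 - g 0 * f' 0 = 0
  · left
    exact h.mult0 hC h' hz hm hf hf' hW0
  · right
    have : (z * m - 1) * (f 0 * g' 0 - g 0 * f' 0) = 0 := by linear_combination h1
    rcases mul_eq_zero.1 this with h2 | h2
    · exact sub_eq_zero.1 h2
    · exact absurd h2 hW0


/-- `z` is a Floquet multiplier of `-f'' + v f = μ f` -/
def Mult (v : ℝ → ℝ) (μ z : ℂ) : Prop :=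
  ∃ f g : ℝ → ℂ, Sol (fun x => (v x : ℂ) - μ) f g ∧ (∀ x, f (x + 1) = z * f x) ∧ ∃ x, f x ≠ 0

theorem pot1_bdd {v : ℝ → ℝ} (hv : Continuous v) (hp : ∀ x, v (x + 1) = v x) (μ : ℂ) :
    ∃ C : ℝ, ∀ x : ℝ, ‖(v x : ℂ) - μ‖ ≤ C := by
  have hp : Function.Periodic (fun x : ℝ => (v x : ℂ) - μ) 1 := fun x => by simp [hp]
  have hc : Continuous (fun x : ℝ => (v x : ℂ) - μ) :=
    (Complex.continuous_ofReal.comp hv).sub continuous_const
  obtain ⟨C, hC⟩ := (hp.isBounded_of_continuous one_ne_zero hc).exists_norm_le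
  exact ⟨C, fun x => hC _ (Set.mem_range_self x)⟩

end Pool.Agent.KS6_68.FV
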