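import Pool.Agent.KS6_68.FV.Ode
import Pool.Agent.KS6_68.FV.Sol

/-! Hill's equation: fundamental solutions, discriminant and Floquet multipliers. -/

set_option autoImplicit false

open Complex Filter Topology Set

namespace Pool.Agent.KS6_68.FV

theorem exists_sol {v : ℝ → ℝ} (hv : Continuous v) (a b : ℂ) :
    ∃ y y' : ℂ → ℝ → ℂ, (∀ E, Sol (fun x => (v x : ℂ) - E) (y E) (y' E)) ∧
      (∀ E, y E 0 = a) ∧ (∀ E, y' E 0 = b) ∧
      (∀ x, Differentiable ℂ fun E => y E x) ∧ ∀ x, Differentiable ℂ fun E => y' E x := by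
  set B0 : ℝ → (ℂ × ℂ) →L[ℂ] (ℂ × ℂ) := fun x =>
    (ContinuousLinearMap.snd ℂ ℂ ℂ).prod ((v x : ℂ) • ContinuousLinearMap.fst ℂ ℂ ℂ) with hB
  set B1 : (ℂ × ℂ) →L[ℂ] (ℂ × ℂ) :=
    (0 : (ℂ × ℂ) →L[ℂ] ℂ).prod (-ContinuousLinearMap.fst ℂ ℂ ℂ) with hB1
  have hBc : Continuous B0 := by
    have e1 : Continuous fun _ : ℝ => ContinuousLinearMap.snd ℂ ℂ ℂ := continuous_const
    have hv' : Continuous fun x => (v x : ℂ) := Complex.continuous_ofReal.comp hv
    have e2 : Continuous fun x => (v x : ℂ) • ContinuousLinearMap.fst ℂ ℂ ℂ := by fun_prop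
    exact (ContinuousLinearMap.prodL (𝕜 := ℂ) (E := ℂ × ℂ) (F := ℂ) (G := ℂ)
      (S := ℂ)).continuous.comp (e1.prodMk e2)
  obtain ⟨Y, hY0, hY, hYd⟩ := exists_entire hBc B1 (a, b)
  have hY' : ∀ E x, HasDerivAt (Y E) ((Y E x).2, ((v x : ℂ) - E) * (Y E x).1) x := by
    intro E x
    refine (hY E x).congr_deriv ?_
    simp only [hB, hB1]
    apply Prod.ext
    · simp
    · simp
      ring
  refine ⟨fun E x => (Y E x).1, fun E x => (Y E x).2, fun E => ⟨fun x => (hY' E x).fst,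
    fun x => (hY' E x).snd⟩, fun E => by simp [hY0], fun E => by simp [hY0], fun x => ?_,
    fun x => ?_⟩
  · exact (hYd x).fst
  · exact (hYd x).snd

/-- the fundamental solutions of `-f'' + v f = E f`, entire in `E` -/
structure Fund (v : ℝ → ℝ) (c c' s s' : ℂ → ℝ → ℂ) : Prop where
  hc : ∀ E, Sol (fun x => (v x : ℂ) - E) (c E) (c' E)
  hs : ∀ E, Sol (fun x => (v x : ℂ) - E) (s E) (s' E)
  c0 : ∀ E, c E 0 = 1
  c0' : ∀ E, c' E 0 = 0
  s0 : ∀ E, s E 0 = 0
  s0' : ∀ E, s' E 0 = 1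
  dc : ∀ x, Differentiable ℂ fun E => c E x
  dc' : ∀ x, Differentiable ℂ fun E => c' E x
  ds : ∀ x, Differentiable ℂ fun E => s E x
  ds' : ∀ x, Differentiable ℂ fun E => s' E x

theorem exists_fund {v : ℝ → ℝ} (hv : Continuous v) :
    ∃ c c' s s' : ℂ → ℝ → ℂ, Fund v c c' s s' := by
  obtain ⟨c, c', h1, h2, h3, h4, h5⟩ := exists_sol hv 1 0
  obtain ⟨s, s', k1, k2, k3, k4, k5⟩ := exists_sol hv 0 1
  exact ⟨c, c', s, s', h1, k1, h2, h3, k2, k3, h4, h5, k4, k5⟩

theorem Sol.eq {q f g f' g' : ℝ → ℂ} {C : ℝ} (hC : ∀ x, ‖q x‖ ≤ C) (h : Sol q f g)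
    (h' : Sol q f' g') {x0 : ℝ} (h0 : f x0 = f' x0) (h1 : g x0 = g' x0) :
    (∀ x, f x = f' x) ∧ ∀ x, g x = g' x := by
  have k : ∀ x, 1 * f x - 1 * f' x = 0 :=
    (h.lin h' 1 1).uniq hC (x0 := x0) (by rw [h0]; ring) (by rw [h1]; ring)
  have k1 : ∀ x, f x = f' x := fun x => by linear_combination k x
  have k2 : f = f' := funext k1
  subst k2
  exact ⟨fun x => rfl, fun x => (h.1 x).unique (h'.1 x)⟩

section

variable {v : ℝ → ℝ} {c c' s s' : ℂ → ℝ → ℂ}

theorem Sol.comb {q f g f' g' : ℝ → ℂ} (h : Sol q f g) (h' : Sol q f' g') (a b : ℂ) :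
    Sol q (fun x => a * f x + b * f' x) (fun x => a * g x + b * g' x) := by
  refine ⟨fun x => ((h.1 x).const_mul a).add ((h'.1 x).const_mul b), fun x => ?_⟩
  refine (((h.2 x).const_mul a).add ((h'.2 x).const_mul b)).congr_deriv ?_
  ring

theorem Fund.expand (F : Fund v c c' s s') (hv : Continuous v) (hp : ∀ x, v (x + 1) = v x) {E : ℂ}
    {f g : ℝ → ℂ} (h : Sol (fun x => (v x : ℂ) - E) f g) :
    (∀ x, f x = f 0 * c E x + g 0 * s E x) ∧ ∀ x, g x = f 0 * c' E x + g 0 * s' E x := by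
  obtain ⟨C, hC⟩ := pot1_bdd hv hp E
  refine h.eq hC ((F.hc E).comb (F.hs E) (f 0) (g 0)) (x0 := 0) ?_ ?_
  · simp [F.c0, F.s0]
  · simp [F.c0', F.s0']

theorem Fund.det (F : Fund v c c' s s') (E : ℂ) (x : ℝ) :
    c E x * s' E x - c' E x * s E x = 1 := by
  rw [(F.hc E).wr (F.hs E) x, F.c0, F.c0', F.s0, F.s0']
  ring

theorem IsDiscriminant.eq {D : ℂ → ℂ} (hD : IsDiscriminant v D) (F : Fund v c c' s s')
    (hv : Continuous v) (hp : ∀ x, v (x + 1) = v x) (E : ℂ) : D E = c E 1 + s' E 1 := by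
  obtain ⟨a, a', b, b', h1, h2, h3, h4, h5, h6, h7⟩ := hD E
  have k1 := (F.expand hv hp h1).1 1
  have k2 := (F.expand hv hp h2).2 1
  rw [h3, h4] at k1
  rw [h5, h6] at k2
  rw [h7, k1, k2]
  ring

theorem Fund.isDisc (F : Fund v c c' s s') : IsDiscriminant v fun E => c E 1 + s' E 1 :=
  fun E => ⟨c E, c' E, s E, s' E, F.hc E, F.hs E, F.c0 E, F.c0' E, F.s0 E, F.s0' E, rfl⟩

/-- Floquet multipliers -/
theorem Fund.mult_iff (F : Fund v c c' s s') (hv : Continuous v) (hp : ∀ x, v (x + 1) = v x)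
    (E z : ℂ) : Mult v E z ↔ z ≠ 0 ∧ c E 1 + s' E 1 = z + z⁻¹ := by
  have hdet := F.det E 1
  constructor
  · rintro ⟨f, g, h, hz, x0, hx0⟩
    have e1 : f 1 = z * f 0 := by simpa using hz 0
    have e2 : g 1 = z * g 0 := by simpa using h.shift hz 0
    have k1 := (F.expand hv hp h).1 1
    have k2 := (F.expand hv hp h).2 1
    rw [e1] at k1
    rw [e2] at k2
    have hne : f 0 ≠ 0 ∨ g 0 ≠ 0 := by
      by_contra hc
      push Not at hc
      apply hx0
      rw [(F.expand hv hp h).1 x0, hc.1, hc.2]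
      ring
    have key : z ^ 2 - (c E 1 + s' E 1) * z + 1 = 0 := by
      rcases hne with h0 | h0
      · apply mul_left_cancel₀ h0
        linear_combination (z - s' E 1) * k1 + s E 1 * k2 - f 0 * hdet
      · apply mul_left_cancel₀ h0
        linear_combination (z - c E 1) * k2 + c' E 1 * k1 - g 0 * hdet
    have hz0 : z ≠ 0 := by
      rintro rfl
      simp at key
    refine ⟨hz0, ?_⟩
    field_simp
    linear_combination -key
  · rintro ⟨hz0, h⟩
    have key : z ^ 2 - (c E 1 + s' E 1) * z + 1 = 0 := by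
      rw [h]
      field_simp
      ring
    -- a vector in the kernel of `M - z`
    obtain ⟨a, b, hab, k1, k2⟩ : ∃ a b : ℂ, (a ≠ 0 ∨ b ≠ 0) ∧ c E 1 * a + s E 1 * b = z * a ∧
        c' E 1 * a + s' E 1 * b = z * b := by
      by_cases h1 : s E 1 = 0 ∧ z = c E 1
      · obtain ⟨h1, h2⟩ := h1
        by_cases h3 : c' E 1 = 0 ∧ z = s' E 1
        · exact ⟨1, 0, Or.inl one_ne_zero, by rw [h1, ← h2]; ring, by rw [h3.1]; ring⟩
        · refine ⟨z - s' E 1, c' E 1, ?_, ?_, ?_⟩
          · by_contra hc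
            push Not at hc
            exact h3 ⟨hc.2, by linear_combination hc.1⟩
          · rw [h1, ← h2]; ring
          · ring
      · refine ⟨s E 1, z - c E 1, ?_, ?_, ?_⟩
        · by_contra hc
          push Not at hc
          exact h1 ⟨hc.1, by linear_combination hc.2⟩
        · ring
        · linear_combination -key - hdet
    have hsol := (F.hc E).comb (F.hs E) a b
    refine ⟨_, _, hsol, ?_, ?_⟩
    · -- both sides are solutions with the same data at `0`
      obtain ⟨C, hC⟩ := pot1_bdd hv hp E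
      have sh : Sol (fun x => (v x : ℂ) - E) (fun x => a * c E (x + 1) + b * s E (x + 1))
          (fun x => a * c' E (x + 1) + b * s' E (x + 1)) := by
        refine ⟨fun x => ?_, fun x => ?_⟩
        · exact HasDerivAt.comp_add_const x 1 (hsol.1 (x + 1))
        · refine (HasDerivAt.comp_add_const x 1 (hsol.2 (x + 1))).congr_deriv ?_
          simp only [hp]
      have sz : Sol (fun x => (v x : ℂ) - E) (fun x => z * (a * c E x + b * s E x))
          (fun x => z * (a * c' E x + b * s' E x)) := by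
        refine ⟨fun x => (hsol.1 x).const_mul z, fun x => ?_⟩
        refine ((hsol.2 x).const_mul z).congr_deriv ?_
        ring
      refine (sh.eq hC sz (x0 := 0) ?_ ?_).1
      · simp only [zero_add, F.c0, F.s0]
        linear_combination k1
      · simp only [zero_add, F.c0', F.s0']
        linear_combination k2
    · rcases hab with h0 | h0
      · exact ⟨0, by simpa [F.c0, F.s0] using h0⟩
      · by_contra hc
        push Not at hc
        apply h0
        have e1 : (fun x => a * c E x + b * s E x) = fun _ => 0 := funext hc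
        have e2 := hsol.1 0
        rw [e1] at e2
        have e3 := e2.unique (hasDerivAt_const (0 : ℝ) (0 : ℂ))
        simpa [F.c0', F.s0'] using e3

end

end Pool.Agent.KS6_68.FV
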