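import Pool.Agent.KS6_68.FV.Elim

/-! Local images of analytic curves are analytic sets. -/

set_option autoImplicit false

open Complex Filter Topology Set Function Metric

namespace Pool.Agent.KS6_68.FV

/-- near `p` the set `S` is given by finitely many analytic equations -/
def LocZ (S : Set (ℂ × ℂ)) (p : ℂ × ℂ) : Prop :=
  ∃ (ι : Type) (_ : Fintype ι) (f : ι → ℂ × ℂ → ℂ), (∀ i, AnalyticAt ℂ (f i) p) ∧
    ∀ᶠ q in 𝓝 p, (q ∈ S ↔ ∀ i, f i q = 0)

theorem LocZ.toFin {S : Set (ℂ × ℂ)} {p : ℂ × ℂ} (h : LocZ S p) :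
    ∃ (n : ℕ) (f : Fin n → ℂ × ℂ → ℂ), (∀ i, AnalyticAt ℂ (f i) p) ∧
    ∀ᶠ q in 𝓝 p, (q ∈ S ↔ ∀ i, f i q = 0) := by
  obtain ⟨ι, hι, f, h1, h2⟩ := h
  refine ⟨Fintype.card ι, fun i => f ((Fintype.equivFin ι).symm i), fun i => h1 _, ?_⟩
  filter_upwards [h2] with q hq
  rw [hq]
  exact ⟨fun h i => h _, fun h i => by simpa using h (Fintype.equivFin ι i)⟩

theorem LocZ.congr {S S' : Set (ℂ × ℂ)} {p : ℂ × ℂ} (h : LocZ S p)
    (e : ∀ᶠ q in 𝓝 p, (q ∈ S' ↔ q ∈ S)) : LocZ S' p := by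
  obtain ⟨ι, hι, f, h1, h2⟩ := h
  refine ⟨ι, hι, f, h1, ?_⟩
  filter_upwards [h2, e] with q hq hq'
  rw [hq', hq]

theorem LocZ.of_not {S : Set (ℂ × ℂ)} {p : ℂ × ℂ} (e : ∀ᶠ q in 𝓝 p, q ∉ S) : LocZ S p := by
  refine ⟨Unit, inferInstance, fun _ _ => 1, fun _ => analyticAt_const, ?_⟩
  filter_upwards [e] with q hq
  exact ⟨fun h => absurd h hq, fun h => absurd (h ()) one_ne_zero⟩

theorem LocZ.union {S S' : Set (ℂ × ℂ)} {p : ℂ × ℂ} (h : LocZ S p) (h' : LocZ S' p) :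
    LocZ (S ∪ S') p := by
  obtain ⟨ι, hι, f, h1, h2⟩ := h
  obtain ⟨κ, hκ, g, k1, k2⟩ := h'
  refine ⟨ι × κ, inferInstance, fun i q => f i.1 q * g i.2 q, fun i => (h1 _).mul (k1 _), ?_⟩
  filter_upwards [h2, k2] with q hq hq'
  rw [mem_union, hq, hq']
  constructor
  · rintro (h | h) i
    · show f i.1 q * g i.2 q = 0
      rw [h, zero_mul]
    · show f i.1 q * g i.2 q = 0
      rw [h, mul_zero]
  · intro h
    by_contra hcon
    rw [not_or, not_forall, not_forall] at hcon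
    obtain ⟨⟨i, hi⟩, j, hj⟩ := hcon
    exact mul_ne_zero hi hj (h (i, j))

/-- the image of a small piece of a curve is given by analytic equations -/
theorem local_piece {φ b1 b2 : ℂ → ℂ} {E0 : ℂ} (hφ : AnalyticAt ℂ φ E0) (h1 : AnalyticAt ℂ b1 E0)
    (h2 : AnalyticAt ℂ b2 E0) (hne : analyticOrderAt (fun E => φ E - φ E0) E0 ≠ ⊤)
    {α β γ : ℂ × ℂ → ℂ} {p : ℂ × ℂ} (hα : AnalyticAt ℂ α p) (hβ : AnalyticAt ℂ β p)
    (hγ : AnalyticAt ℂ γ p) (hp : α p = φ E0) {N : Set ℂ} (hN : N ∈ 𝓝 E0) :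
    ∃ O : Set ℂ, IsOpen O ∧ E0 ∈ O ∧ O ⊆ N ∧
      LocZ {q | ∃ E ∈ O, φ E = α q ∧ b1 E = β q ∧ b2 E = γ q} p := by
  have hφ' : AnalyticAt ℂ (fun E => φ E - φ E0) E0 := hφ.sub analyticAt_const
  obtain ⟨m, hmo⟩ : ∃ m : ℕ, analyticOrderAt (fun E => φ E - φ E0) E0 = m :=
    ⟨_, (ENat.coe_toNat hne).symm⟩
  have hm : m ≠ 0 := by
    rintro rfl
    have := (hφ'.analyticOrderAt_eq_zero).1 (by exact_mod_cast hmo)
    exact this (sub_self _)
  obtain ⟨u, hu, hu0, huE⟩ := (hφ'.analyticOrderAt_eq_natCast).1 hmo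
  have hω := Complex.isPrimitiveRoot_exp m hm
  set ω : ℂ := exp (2 * Real.pi * I / m) with hωdef
  set ρ : ℂ := u E0 ^ (m⁻¹ : ℂ) with hρ
  have hρm : ρ ^ m = u E0 := cpow_nat_inv_pow _ hm
  have hρ0 : ρ ≠ 0 := by
    intro h
    rw [h, zero_pow hm] at hρm
    exact hu0 hρm.symm
  set r : ℂ → ℂ := fun E => ρ * (u E / u E0) ^ (m⁻¹ : ℂ) with hr
  have hrm : ∀ E, r E ^ m = u E := by
    intro E
    show (ρ * (u E / u E0) ^ (m⁻¹ : ℂ)) ^ m = u E
    rw [mul_pow, hρm, cpow_nat_inv_pow _ hm, mul_div_cancel₀ _ hu0]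
  have hra : AnalyticAt ℂ r E0 := by
    refine analyticAt_const.mul ?_
    refine AnalyticAt.cpow (hu.div_const) analyticAt_const ?_
    rw [div_self hu0]
    exact one_mem_slitPlane
  have hr0 : r E0 = ρ := by
    show ρ * (u E0 / u E0) ^ (m⁻¹ : ℂ) = ρ
    rw [div_self hu0, one_cpow, mul_one]
  set ξ : ℂ → ℂ := fun E => (E - E0) * r E with hξ
  have hξa : AnalyticAt ℂ ξ E0 := (analyticAt_id.sub analyticAt_const).mul hra
  have hξ0 : ξ E0 = 0 := by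
    show (E0 - E0) * r E0 = 0
    rw [sub_self, zero_mul]
  have hξd : deriv ξ E0 ≠ 0 := by
    have h3 : HasDerivAt ξ (1 * r E0 + (E0 - E0) * deriv r E0) E0 :=
      ((hasDerivAt_id E0).sub_const E0).mul hra.differentiableAt.hasDerivAt
    rw [h3.deriv, sub_self, zero_mul, add_zero, one_mul, hr0]
    exact hρ0
  have hξm : ∀ᶠ E in 𝓝 E0, φ E = φ E0 + ξ E ^ m := by
    filter_upwards [huE] with E hE
    show φ E = φ E0 + ((E - E0) * r E) ^ m
    rw [mul_pow, hrm]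
    rw [smul_eq_mul] at hE
    linear_combination hE
  set J : ℂ → ℂ := hξa.hasStrictDerivAt.localInverse _ _ _ hξd with hJ
  have Ja : AnalyticAt ℂ J 0 := by
    have := hξa.analyticAt_localInverse hξd
    rwa [hξ0] at this
  have J0 : J 0 = E0 := by
    have : J (ξ E0) = E0 := HasStrictFDerivAt.localInverse_apply_image ..
    rwa [hξ0] at this
  have hl : ∀ᶠ E in 𝓝 E0, J (ξ E) = E := HasStrictDerivAt.eventually_left_inverse ..
  have hr' : ∀ᶠ y in 𝓝 (0 : ℂ), ξ (J y) = y := by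
    have : ∀ᶠ y in 𝓝 (ξ E0), ξ (J y) = y := HasStrictDerivAt.eventually_right_inverse ..
    rwa [hξ0] at this
  obtain ⟨L, hL, hLo, hEL⟩ := _root_.eventually_nhds_iff.1
    ((show ∀ᶠ E in 𝓝 E0, E ∈ N from hN).and (hξa.eventually_analyticAt.and (hl.and hξm)))
  have hJt : Tendsto J (𝓝 0) (𝓝 E0) := by
    have := Ja.continuousAt.tendsto
    rwa [J0] at this
  obtain ⟨δ, hδ, hball⟩ := Metric.eventually_nhds_iff_ball.1
    ((hJt.eventually (hLo.mem_nhds hEL)).and hr')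
  set O : Set ℂ := L ∩ ξ ⁻¹' ball 0 δ with hO
  have hξc : ContinuousOn ξ L := fun E hE => (hL E hE).2.1.continuousAt.continuousWithinAt
  have hOo : IsOpen O := hξc.isOpen_inter_preimage hLo isOpen_ball
  have hb : ∀ t : ℂ, AnalyticAt ℂ (fun y => b1 (J y) + t * b2 (J y)) 0 := by
    intro t
    have k1 : AnalyticAt ℂ (fun y => b1 (J y)) 0 :=
      AnalyticAt.comp (g := b1) (by rw [J0]; exact h1) Ja
    have k2 : AnalyticAt ℂ (fun y => b2 (J y)) 0 :=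
      AnalyticAt.comp (g := b2) (by rw [J0]; exact h2) Ja
    exact k1.add (analyticAt_const.mul k2)
  choose H hHa hHe using fun t : Fin (m + 1) => elim_one (hb ((t : ℕ) : ℂ)) hm hω
  refine ⟨O, hOo, ⟨hEL, by show ξ E0 ∈ ball 0 δ; rw [hξ0]; exact mem_ball_self hδ⟩,
    fun E hE => (hL E hE.1).1, Fin (m + 1), inferInstance,
    fun t q => H t (α q - φ E0, β q + ((t : ℕ) : ℂ) * γ q), fun t => ?_, ?_⟩
  · refine AnalyticAt.comp (g := H t)
      (f := fun q : ℂ × ℂ => (α q - φ E0, β q + ((t : ℕ) : ℂ) * γ q)) ?_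
      ((hα.sub analyticAt_const).prod (hβ.add (analyticAt_const.mul hγ)))
    show AnalyticAt ℂ (H t) (α p - φ E0, β p + ((t : ℕ) : ℂ) * γ p)
    rw [hp, sub_self]
    exact hHa t _
  · have hsmall : ∀ᶠ q in 𝓝 p, ‖α q - φ E0‖ < δ ^ m := by
      have h3 : Tendsto (fun q => ‖α q - φ E0‖) (𝓝 p) (𝓝 ‖α p - φ E0‖) :=
        (hα.continuousAt.sub continuousAt_const).norm
      rw [hp, sub_self, norm_zero] at h3
      exact h3.eventually (gt_mem_nhds (pow_pos hδ m))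
    filter_upwards [hsmall] with q hq
    set η : ℂ := α q - φ E0 with hη
    set y0 : ℂ := η ^ (m⁻¹ : ℂ) with hy0
    have hy0m : y0 ^ m = η := cpow_nat_inv_pow _ hm
    have hval : ∀ t : Fin (m + 1), H t (η, β q + ((t : ℕ) : ℂ) * γ q) =
        ∏ k ∈ Finset.range m, (β q + ((t : ℕ) : ℂ) * γ q -
          (b1 (J (ω ^ k * y0)) + ((t : ℕ) : ℂ) * b2 (J (ω ^ k * y0)))) := by
      intro t
      have := hHe t y0 (β q + ((t : ℕ) : ℂ) * γ q)
      rw [hy0m] at this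
      exact this
    have : NeZero m := ⟨hm⟩
    constructor
    · rintro ⟨E, hE, e1, e2, e3⟩ t
      show H t (η, β q + ((t : ℕ) : ℂ) * γ q) = 0
      rw [hval]
      obtain ⟨-, -, hJE, hφE⟩ := hL E hE.1
      have hy : ξ E ^ m = y0 ^ m := by
        rw [hy0m, hη, ← e1, hφE]; ring
      obtain ⟨k, hk, hk2⟩ : ∃ k < m, ω ^ k * y0 = ξ E := by
        by_cases hz : y0 = 0
        · refine ⟨0, Nat.pos_of_ne_zero hm, ?_⟩
          rw [hz, zero_pow hm] at hy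
          rw [hz, mul_zero, pow_eq_zero_iff hm |>.1 hy]
        · have h4 : (ξ E / y0) ^ m = 1 := by
            rw [div_pow, hy, div_self (pow_ne_zero m hz)]
          obtain ⟨k, hk, hk2⟩ := hω.eq_pow_of_pow_eq_one h4
          exact ⟨k, hk, by rw [hk2, div_mul_cancel₀ _ hz]⟩
      refine Finset.prod_eq_zero (Finset.mem_range.2 hk) ?_
      rw [hk2, hJE, e2, e3, sub_self]
    · intro h
      have h5 : ∀ t : Fin (m + 1), ∃ k ∈ Finset.range m, β q + ((t : ℕ) : ℂ) * γ q -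
          (b1 (J (ω ^ k * y0)) + ((t : ℕ) : ℂ) * b2 (J (ω ^ k * y0))) = 0 := by
        intro t
        have h6 := h t
        have h7 : H t (η, β q + ((t : ℕ) : ℂ) * γ q) = 0 := h6
        rw [hval] at h7
        exact Finset.prod_eq_zero_iff.1 h7
      choose κ hκ hκ2 using h5
      obtain ⟨t, -, t', -, htt, hκt⟩ := Finset.exists_ne_map_eq_of_card_lt_of_maps_to
        (s := (Finset.univ : Finset (Fin (m + 1)))) (t := Finset.range m) (f := κ)
        (by simp) (fun t _ => hκ t)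
      have q1 := hκ2 t
      have q2 := hκ2 t'
      rw [← hκt] at q2
      set y : ℂ := ω ^ κ t * y0 with hy
      have htt' : ((t : ℕ) : ℂ) - ((t' : ℕ) : ℂ) ≠ 0 := by
        rw [sub_ne_zero]
        intro h
        exact htt (Fin.ext (by exact_mod_cast h))
      have q3 : γ q = b2 (J y) := by
        have : (((t : ℕ) : ℂ) - ((t' : ℕ) : ℂ)) * (γ q - b2 (J y)) = 0 := by
          linear_combination q1 - q2
        exact sub_eq_zero.1 ((mul_eq_zero.1 this).resolve_left htt')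
      have q4 : β q = b1 (J y) := by
        rw [q3] at q1
        linear_combination q1
      have hym : y ^ m = η := by
        rw [hy, mul_pow, hy0m, ← pow_mul, mul_comm (κ t), pow_mul, hω.pow_eq_one, one_pow, one_mul]
      have hyn : ‖y‖ < δ := by
        have : ‖y‖ ^ m < δ ^ m := by
          rw [← norm_pow, hym]
          exact hq
        exact lt_of_pow_lt_pow_left₀ m hδ.le this
      have hyb : y ∈ ball (0 : ℂ) δ := by rwa [mem_ball_zero_iff]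
      obtain ⟨hJL, hξJ⟩ := hball y hyb
      refine ⟨J y, ⟨hJL, by show ξ (J y) ∈ ball 0 δ; rw [hξJ]; exact hyb⟩, ?_, q4.symm, q3.symm⟩
      rw [(hL (J y) hJL).2.2.2, hξJ, hym, hη]
      ring

/-- the image of a compact piece -/
theorem compact_piece {φ b1 b2 : ℂ → ℂ} (hφ : Differentiable ℂ φ) (h1 : Differentiable ℂ b1)
    (h2 : Differentiable ℂ b2) (hne : ∀ E0, analyticOrderAt (fun E => φ E - φ E0) E0 ≠ ⊤)
    {α β γ : ℂ × ℂ → ℂ} {p : ℂ × ℂ} (hα : AnalyticAt ℂ α p) (hβ : AnalyticAt ℂ β p)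
    (hγ : AnalyticAt ℂ γ p) {K : Set ℂ} (hK : IsCompact K) :
    ∃ O : Set ℂ, K ⊆ O ∧ LocZ {q | ∃ E ∈ O, φ E = α q ∧ b1 E = β q ∧ b2 E = γ q} p := by
  refine hK.induction_on (p := fun K => ∃ O : Set ℂ, K ⊆ O ∧
    LocZ {q | ∃ E ∈ O, φ E = α q ∧ b1 E = β q ∧ b2 E = γ q} p) ?_ ?_ ?_ ?_
  · refine ⟨∅, Subset.rfl, LocZ.of_not (.of_forall fun q => ?_)⟩
    rintro ⟨E, hE, -⟩
    exact hE
  · rintro s t hst ⟨O, h3, h4⟩
    exact ⟨O, hst.trans h3, h4⟩
  · rintro s t ⟨O, h3, h4⟩ ⟨O', h3', h4'⟩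
    refine ⟨O ∪ O', union_subset_union h3 h3', (h4.union h4').congr (.of_forall fun q => ?_)⟩
    constructor
    · rintro ⟨E, hE | hE, e⟩
      · exact Or.inl ⟨E, hE, e⟩
      · exact Or.inr ⟨E, hE, e⟩
    · rintro (⟨E, hE, e⟩ | ⟨E, hE, e⟩)
      · exact ⟨E, Or.inl hE, e⟩
      · exact ⟨E, Or.inr hE, e⟩
  · intro E0 _
    by_cases hp : φ E0 = α p
    · obtain ⟨O, h3, h4, -, h5⟩ := local_piece (hφ.analyticAt E0) (h1.analyticAt E0)
        (h2.analyticAt E0) (hne E0) hα hβ hγ hp.symm univ_mem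
      exact ⟨O, mem_nhdsWithin_of_mem_nhds (h3.mem_nhds h4), O, Subset.rfl, h5⟩
    · obtain ⟨u, v, hu, hv, hu0, hv0, huv⟩ := t2_separation hp
      have h3 : φ ⁻¹' u ∈ 𝓝 E0 := hφ.continuous.continuousAt (hu.mem_nhds hu0)
      refine ⟨φ ⁻¹' u, mem_nhdsWithin_of_mem_nhds h3, φ ⁻¹' u, Subset.rfl, LocZ.of_not ?_⟩
      filter_upwards [hα.continuousAt (hv.mem_nhds hv0)] with q hq
      rintro ⟨E, hE, e, -⟩
      have hq' : α q ∈ v := hq
      rw [← e] at hq'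
      exact Set.disjoint_left.1 huv hE hq'

end Pool.Agent.KS6_68.FV
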