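import Pool.Agent.KS6_68.FV.Roots

/-! The curve `φ = z + 1/z`, `ψ = w + 1/w` is irreducible if none of `φ² - 4`, `ψ² - 4` and their
product has an entire square root. -/

set_option autoImplicit false

open Complex Filter Topology Set Function

namespace Pool.Agent.KS6_68.FV

/-- the function `φ² - 4` -/
def dd (φ : ℂ → ℂ) (E : ℂ) : ℂ := φ E ^ 2 - 4

theorem dd_diff {φ : ℂ → ℂ} (hφ : Differentiable ℂ φ) : Differentiable ℂ (dd φ) :=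
  (hφ.pow 2).sub_const 4

/-- the image in `(ℂ*)²` of the curve -/
def XX (φ ψ : ℂ → ℂ) : Set (ℂ × ℂ) :=
  {p | p ∈ torusC ∧ ∃ E, φ E = p.1 + p.1⁻¹ ∧ ψ E = p.2 + p.2⁻¹}

section

variable {φ ψ : ℂ → ℂ}

/-- a branch of the curve over a neighbourhood of `E0` -/
noncomputable def br (φ ψ : ℂ → ℂ) (E0 r t : ℂ) (E : ℂ) : ℂ × ℂ :=
  ((φ E + rt (dd φ) E0 r E) / 2, (ψ E + rt (dd ψ) E0 t E) / 2)

theorem pt_mem {a r : ℂ} (h : r ^ 2 = a ^ 2 - 4) :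
    (a + r) / 2 ≠ 0 ∧ a = (a + r) / 2 + ((a + r) / 2)⁻¹ := by
  have h1 : (a + r) / 2 * ((a - r) / 2) = 1 := by linear_combination -(1 / 4 : ℂ) * h
  have h2 : (a + r) / 2 ≠ 0 := left_ne_zero_of_mul_eq_one h1
  refine ⟨h2, ?_⟩
  have h3 : ((a + r) / 2)⁻¹ = (a - r) / 2 := (eq_inv_of_mul_eq_one_right h1).symm
  rw [h3]
  ring

theorem br_mem {E0 r t : ℂ} (hf : dd φ E0 ≠ 0) (hg : dd ψ E0 ≠ 0)
    (hr : r ^ 2 = dd φ E0) (ht : t ^ 2 = dd ψ E0) (E : ℂ) : br φ ψ E0 r t E ∈ XX φ ψ := by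
  have h1 := pt_mem (rt_sq (F := dd φ) hf hr E)
  have h2 := pt_mem (rt_sq (F := dd ψ) hg ht E)
  exact ⟨⟨h1.1, h2.1⟩, E, h1.2, h2.2⟩

/-- the branch through `(E0, r, t)` is in `A` -/
def Inn (φ ψ : ℂ → ℂ) (A : Set (ℂ × ℂ)) (E0 r t : ℂ) : Prop :=
  ∀ᶠ E in 𝓝 E0, br φ ψ E0 r t E ∈ A

variable (hφ : Differentiable ℂ φ) (hψ : Differentiable ℂ ψ)

include hφ hψ

/-- a good neighbourhood of a point over which the covering is unramified -/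
theorem good_nhd {E0 : ℂ} (hf : dd φ E0 ≠ 0) (hg : dd ψ E0 ≠ 0) :
    ∃ N : Set ℂ, IsOpen N ∧ IsPreconnected N ∧ E0 ∈ N ∧ ∀ E ∈ N, dd φ E ≠ 0 ∧ dd ψ E ≠ 0 ∧
      (∀ r, AnalyticAt ℂ (rt (dd φ) E0 r) E) ∧
      ∀ t, AnalyticAt ℂ (rt (dd ψ) E0 t) E := by
  have hF : Differentiable ℂ (dd φ) := dd_diff hφ
  have hG : Differentiable ℂ (dd ψ) := dd_diff hψ
  obtain ⟨ε, hε, h⟩ := Metric.eventually_nhds_iff_ball.1 ((rt_an hF hf).and (rt_an hG hg))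
  exact ⟨Metric.ball E0 ε, Metric.isOpen_ball, (convex_ball E0 ε).isPreconnected,
    Metric.mem_ball_self hε, fun E hE => ⟨(h E hE).1.1, (h E hE).2.1, (h E hE).1.2, (h E hE).2.2⟩⟩

theorem br_an {E0 r t E : ℂ} (h1 : AnalyticAt ℂ (rt (dd φ) E0 r) E)
    (h2 : AnalyticAt ℂ (rt (dd ψ) E0 t) E) : AnalyticAt ℂ (br φ ψ E0 r t) E := by
  unfold br
  exact (((hφ.analyticAt E).add h1).div_const).prod (((hψ.analyticAt E).add h2).div_const)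

/-- the property is locally constant along branches -/
theorem inn_local {A : Set (ℂ × ℂ)} (hA : IsAnalyticSubset torusC A) {E0 r t : ℂ}
    (hf : dd φ E0 ≠ 0) (hg : dd ψ E0 ≠ 0)
    (hr : r ^ 2 = dd φ E0) (ht : t ^ 2 = dd ψ E0) :
    ∀ᶠ E in 𝓝 E0, (Inn φ ψ A E (rt (dd φ) E0 r E)
      (rt (dd ψ) E0 t E) ↔ Inn φ ψ A E0 r t) := by
  obtain ⟨N, hNo, hNc, hE0, hN⟩ := good_nhd hφ hψ hf hg
  filter_upwards [hNo.mem_nhds hE0] with E1 hE1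
  obtain ⟨f1, g1, a1, b1⟩ := hN E1 hE1
  have hr1 := rt_sq (F := dd φ) hf hr
  have ht1 := rt_sq (F := dd ψ) hg ht
  have hF : Differentiable ℂ (dd φ) := dd_diff hφ
  have hG : Differentiable ℂ (dd ψ) := dd_diff hψ
  -- the branches agree near `E1`
  have e1 := roots_eq (F := dd φ) (z0 := E1) f1
    ((rt_an hF f1).self_of_nhds.2 (rt (dd φ) E0 r E1)).continuousAt
    (a1 r).continuousAt (.of_forall fun z => rt_sq f1 (hr1 E1) z) (.of_forall fun z => hr1 z)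
    (rt_self f1)
  have e2 := roots_eq (F := dd ψ) (z0 := E1) g1
    ((rt_an hG g1).self_of_nhds.2 (rt (dd ψ) E0 t E1)).continuousAt
    (b1 t).continuousAt (.of_forall fun z => rt_sq g1 (ht1 E1) z) (.of_forall fun z => ht1 z)
    (rt_self g1)
  have e3 : Inn φ ψ A E1 (rt (dd φ) E0 r E1) (rt (dd ψ) E0 t E1) ↔
      ∀ᶠ E in 𝓝 E1, br φ ψ E0 r t E ∈ A := by
    unfold Inn
    refine eventually_congr ?_
    filter_upwards [e1, e2] with z h1 h2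
    have : br φ ψ E1 (rt (dd φ) E0 r E1) (rt (dd ψ) E0 t E1) z =
        br φ ψ E0 r t z := by
      unfold br
      rw [h1, h2]
    rw [this]
  rw [e3]
  have hcs := fun (z0 : ℂ) (hz0 : z0 ∈ N) (hfr : ∃ᶠ z in 𝓝[≠] z0, br φ ψ E0 r t z ∈ A) =>
    curve_sub hA hNc (γ := br φ ψ E0 r t) (fun z hz => br_an hφ hψ ((hN z hz).2.2.1 r)
      ((hN z hz).2.2.2 t)) (fun z _ => (br_mem hf hg hr ht z).1) hz0 hfr
  constructor
  · intro h
    exact hcs E1 hE1 ((h.filter_mono nhdsWithin_le_nhds).frequently) E0 hE0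
  · intro h
    exact hcs E0 hE0 ((h.filter_mono nhdsWithin_le_nhds).frequently) E1 hE1

/-- every branch is in one of the two parts -/
theorem inn_or {A B : Set (ℂ × ℂ)} (hA : IsAnalyticSubset torusC A) (hB : IsAnalyticSubset torusC B)
    (hAB : XX φ ψ = A ∪ B) {E0 r t : ℂ} (hf : dd φ E0 ≠ 0) (hg : dd ψ E0 ≠ 0)
    (hr : r ^ 2 = dd φ E0) (ht : t ^ 2 = dd ψ E0) :
    Inn φ ψ A E0 r t ∨ Inn φ ψ B E0 r t := by
  obtain ⟨N, hNo, hNc, hE0, hN⟩ := good_nhd hφ hψ hf hg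
  have hcs := fun (A : Set (ℂ × ℂ)) (hA : IsAnalyticSubset torusC A)
      (hfr : ∃ᶠ z in 𝓝[≠] E0, br φ ψ E0 r t z ∈ A) =>
    curve_sub hA hNc (γ := br φ ψ E0 r t) (fun z hz => br_an hφ hψ ((hN z hz).2.2.1 r)
      ((hN z hz).2.2.2 t)) (fun z _ => (br_mem hf hg hr ht z).1) hE0 hfr E0 hE0
  have h1 : ∃ᶠ z in 𝓝[≠] E0, br φ ψ E0 r t z ∈ A ∨ br φ ψ E0 r t z ∈ B := by
    refine Eventually.frequently (.of_forall fun z => ?_)
    have := br_mem hf hg hr ht z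
    rw [hAB] at this
    exact this
  rcases frequently_or_distrib.1 h1 with h | h
  · exact Or.inl (hcs A hA h)
  · exact Or.inr (hcs B hB h)

omit hφ hψ in
/-- the root of the quadratic equation nearest to `z` -/
theorem near_root (z d : ℂ) (hz : z ≠ 0) : ∃ x : ℂ, x ≠ 0 ∧ d = x + x⁻¹ ∧
    ‖z - x‖ ^ 2 ≤ ‖z‖ * ‖z + z⁻¹ - d‖ := by
  obtain ⟨w, hw, hd⟩ : ∃ z : ℂ, z ≠ 0 ∧ d = z + z⁻¹ := by
    obtain ⟨r, hr⟩ := IsAlgClosed.exists_pow_nat_eq (d ^ 2 - 4) (n := 2) (by norm_num)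
    exact ⟨_, (pt_mem hr).1, (pt_mem hr).2⟩
  have h1 : (z - w) * (z - w⁻¹) = z * (z + z⁻¹ - d) := by
    rw [hd]
    field_simp
    ring
  have h2 : ‖z - w‖ * ‖z - w⁻¹‖ = ‖z‖ * ‖z + z⁻¹ - d‖ := by
    rw [← norm_mul, h1, norm_mul]
  rcases le_total ‖z - w‖ ‖z - w⁻¹‖ with h | h
  · refine ⟨w, hw, hd, ?_⟩
    rw [← h2]
    nlinarith [norm_nonneg (z - w)]
  · refine ⟨w⁻¹, inv_ne_zero hw, by rw [inv_inv, hd]; ring, ?_⟩
    rw [← h2]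
    nlinarith [norm_nonneg (z - w⁻¹)]

omit hφ hψ in
theorem near_root_fun {φ : ℂ → ℂ} (hφ : Differentiable ℂ φ) {E0 z : ℂ} (hz : z ≠ 0)
    (h : φ E0 = z + z⁻¹) : ∃ x : ℂ → ℂ, (∀ E, x E ≠ 0 ∧ φ E = x E + (x E)⁻¹) ∧
      Tendsto x (𝓝[≠] E0) (𝓝 z) := by
  choose x h1 h2 h3 using fun E => near_root z (φ E) hz
  refine ⟨x, fun E => ⟨h1 E, h2 E⟩, ?_⟩
  have h4 : Tendsto (fun E => Real.sqrt (‖z‖ * ‖z + z⁻¹ - φ E‖)) (𝓝[≠] E0) (𝓝 0) := by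
    have h5 : Continuous fun E => Real.sqrt (‖z‖ * ‖z + z⁻¹ - φ E‖) := by
      have := hφ.continuous
      fun_prop
    have h6 := h5.tendsto E0
    rw [h, sub_self, norm_zero, mul_zero, Real.sqrt_zero] at h6
    exact h6.mono_left nhdsWithin_le_nhds
  rw [tendsto_iff_norm_sub_tendsto_zero]
  refine squeeze_zero (fun E => norm_nonneg _) (fun E => ?_) h4
  rw [norm_sub_rev]
  exact Real.le_sqrt_of_sq_le (h3 E)

/-- an analytic subset which contains all branches contains the curve -/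
theorem all_sub {A : Set (ℂ × ℂ)} (hA : IsAnalyticSubset torusC A)
    (h0 : ∃ E, dd φ E * dd ψ E ≠ 0)
    (h : ∀ E r t, dd φ E ≠ 0 → dd ψ E ≠ 0 → r ^ 2 = dd φ E → t ^ 2 = dd ψ E →
      Inn φ ψ A E r t) : XX φ ψ ⊆ A := by
  have hF : Differentiable ℂ fun E => dd φ E * dd ψ E :=
    (dd_diff hφ).mul (dd_diff hψ)
  -- points over the unramified part
  have key : ∀ E z w : ℂ, z ≠ 0 → w ≠ 0 → φ E = z + z⁻¹ → ψ E = w + w⁻¹ →
      dd φ E * dd ψ E ≠ 0 → (z, w) ∈ A := by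
    intro E z w hz hw h1 h2 h3
    have f0 := left_ne_zero_of_mul h3
    have g0 := right_ne_zero_of_mul h3
    have hr : (z - z⁻¹) ^ 2 = dd φ E := by
      unfold dd; rw [h1]; field_simp; ring
    have ht : (w - w⁻¹) ^ 2 = dd ψ E := by
      unfold dd; rw [h2]; field_simp; ring
    have h4 := (show ∀ᶠ E' in 𝓝 E, br φ ψ E (z - z⁻¹) (w - w⁻¹) E' ∈ A from
      h E _ _ f0 g0 hr ht).self_of_nhds
    unfold br at h4
    rw [rt_self (F := dd φ) f0, rt_self (F := dd ψ) g0, h1, h2] at h4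
    have e1 : (z + z⁻¹ + (z - z⁻¹)) / 2 = z := by ring
    have e2 : (w + w⁻¹ + (w - w⁻¹)) / 2 = w := by ring
    rwa [e1, e2] at h4
  rintro ⟨z, w⟩ ⟨⟨hz, hw⟩, E, h1, h2⟩
  simp only at hz hw h1 h2
  obtain ⟨x, hx1, hx2⟩ := near_root_fun hφ hz h1
  obtain ⟨y, hy1, hy2⟩ := near_root_fun hψ hw h2
  have h3 := ne_punctured hF h0 E
  have h4 : ∀ᶠ E' in 𝓝[≠] E, (x E', y E') ∈ A := by
    filter_upwards [h3] with E' hE'
    exact key E' _ _ (hx1 E').1 (hy1 E').1 (hx1 E').2 (hy1 E').2 hE'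
  obtain ⟨n, f, hf, hev⟩ := hA.2 (z, w) ⟨hz, hw⟩
  have ht : Tendsto (fun E' => (x E', y E')) (𝓝[≠] E) (𝓝 (z, w)) := hx2.prodMk_nhds hy2
  rw [hev.self_of_nhds]
  intro i
  have h5 : Tendsto (fun E' => f i (x E', y E')) (𝓝[≠] E) (𝓝 (f i (z, w))) :=
    (hf i).continuousAt.tendsto.comp ht
  have h6 : ∀ᶠ E' in 𝓝[≠] E, f i (x E', y E') = 0 := by
    filter_upwards [h4, ht.eventually hev] with E' k1 k2
    exact k2.1 k1 i
  exact tendsto_nhds_unique (h5.congr' h6) tendsto_const_nhds |>.trans rfl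

end

end Pool.Agent.KS6_68.FV
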