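import Pool.Agent.KS6_68.FV.RHill
import Pool.Agent.KS6_68.FV.Energy

/-! Properties of the discriminant of Hill's equation with a real potential. -/

set_option autoImplicit false

open Complex Filter Topology Set

namespace Pool.Agent.KS6_68.FV

/-- the properties of the discriminant which are used -/
structure DiscProps (D : ℂ → ℂ) (m : ℝ) : Prop where
  diff : Differentiable ℂ D
  conj : ∀ E, D ((starRingEnd ℂ) E) = (starRingEnd ℂ) (D E)
  anti : ∀ E E' : ℝ, E < E' → E' ≤ m → (D E').re < (D E).re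
  ge : ∀ E : ℝ, E ≤ m → 2 ≤ (D E).re
  large : ∀ R : ℝ, ∃ E0 ≤ m, ∀ E : ℝ, E ≤ E0 → R ≤ (D E).re
  osc : ∀ R : ℝ, ∃ E : ℝ, R < E ∧ |(D E).re| < 2
  loc : ∀ (E z : ℂ) (a : ℝ), z ≠ 0 → D E = z + z⁻¹ → ‖z‖ = Real.exp a →
    m - 2 * a ^ 2 ≤ E.re ∧ |E.im| ≤ 2 * (E.re - m) + 5 * a ^ 2 ∧ (a = 0 → E.im = 0)

section

variable {v : ℝ → ℝ} {c c' s s' : ℂ → ℝ → ℂ}

theorem RSol.toSol {v a a' : ℝ → ℝ} {E : ℝ} (h : RSol (fun x => v x - E) a a') :
    Sol (fun x => (v x : ℂ) - E) (fun x => (a x : ℂ)) (fun x => (a' x : ℂ)) := by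
  refine ⟨fun x => (h x).1.ofReal_comp, fun x => ?_⟩
  refine (h x).2.ofReal_comp.congr_deriv ?_
  push_cast
  ring

theorem Fund.real (F : Fund v c c' s s') (hv : Continuous v) (hp : ∀ x, v (x + 1) = v x) (E : ℝ) :
    ∃ a a' b b' : ℝ → ℝ, RSol (fun x => v x - E) a a' ∧ RSol (fun x => v x - E) b b' ∧
      a 0 = 1 ∧ a' 0 = 0 ∧ b 0 = 0 ∧ b' 0 = 1 ∧ c E 1 + s' E 1 = ((a 1 + b' 1 : ℝ) : ℂ) := by
  have hg : Continuous fun x => v x - E := hv.sub continuous_const
  obtain ⟨a, a', h1, h2, h3⟩ := exists_rsol hg 1 0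
  obtain ⟨b, b', k1, k2, k3⟩ := exists_rsol hg 0 1
  refine ⟨a, a', b, b', h1, k1, h2, h3, k2, k3, ?_⟩
  have e1 := (F.expand hv hp h1.toSol).1 1
  have e2 := (F.expand hv hp k1.toSol).2 1
  rw [h2, h3] at e1
  rw [k2, k3] at e2
  push_cast
  rw [e1, e2]
  simp

theorem Fund.conj (F : Fund v c c' s s') (hv : Continuous v) (hp : ∀ x, v (x + 1) = v x) (E : ℂ) :
    c ((starRingEnd ℂ) E) 1 + s' ((starRingEnd ℂ) E) 1 = (starRingEnd ℂ) (c E 1 + s' E 1) := by
  have key : ∀ {f g : ℝ → ℂ}, Sol (fun x => (v x : ℂ) - (starRingEnd ℂ) E) f g →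
      Sol (fun x => (v x : ℂ) - E) (fun x => (starRingEnd ℂ) (f x)) (fun x => (starRingEnd ℂ) (g x)) := by
    intro f g h
    refine ⟨fun x => ?_, fun x => ?_⟩
    · exact (Complex.conjCLE : ℂ →L[ℝ] ℂ).hasFDerivAt.comp_hasDerivAt x (h.1 x)
    · have h1 := (Complex.conjCLE : ℂ →L[ℝ] ℂ).hasFDerivAt.comp_hasDerivAt x (h.2 x)
      refine HasDerivAt.congr_deriv h1 ?_
      show (starRingEnd ℂ) (((v x : ℂ) - (starRingEnd ℂ) E) * f x) = _
      rw [map_mul, map_sub, Complex.conj_conj, Complex.conj_ofReal]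
  have e1 := (F.expand hv hp (key (F.hc ((starRingEnd ℂ) E)))).1 1
  have e2 := (F.expand hv hp (key (F.hs ((starRingEnd ℂ) E)))).2 1
  simp only [F.c0, F.c0', map_one, map_zero] at e1
  simp only [F.s0, F.s0', map_one, map_zero] at e2
  have e3 : (starRingEnd ℂ) (c ((starRingEnd ℂ) E) 1 + s' ((starRingEnd ℂ) E) 1) =
      c E 1 + s' E 1 := by
    rw [map_add, e1, e2]
    ring
  rw [← e3, Complex.conj_conj]

theorem Fund.props (F : Fund v c c' s s') (hv : Continuous v) (hp : ∀ x, v (x + 1) = v x) {m : ℝ}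
    (hm : ∀ x, m ≤ v x) : DiscProps (fun E => c E 1 + s' E 1) m where
  diff := (F.dc 1).add (F.ds' 1)
  conj := F.conj hv hp
  anti := by
    intro E E' hE hE'
    obtain ⟨a, a', b, b', h1, h2, h3, h4, h5, h6, h7⟩ := F.real hv hp E
    obtain ⟨A, A', B, B', k1, k2, k3, k4, k5, k6, k7⟩ := F.real hv hp E'
    show (c E' 1 + s' E' 1).re < (c E 1 + s' E 1).re
    rw [h7, k7, ofReal_re, ofReal_re]
    have g1 : Continuous fun x => v x - E := hv.sub continuous_const
    have g2 : Continuous fun x => v x - E' := hv.sub continuous_const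
    have hg2 : ∀ x, 0 ≤ v x - E' := fun x => by have := hm x; linarith
    have hg : ∀ x, v x - E' < v x - E := fun x => by linarith
    have r1 := (rsol_compare h1 k1 g1 g2 hg2 hg (by rw [h3, k3]) (by rw [h4, k4])
      (by rw [k3]; norm_num) (by rw [k4])).2 (by rw [k3]; norm_num) 1 one_pos
    have r2 := ((rsol_compare h2 k2 g1 g2 hg2 hg (by rw [h5, k5]) (by rw [h6, k6])
      (by rw [k5]) (by rw [k6]; norm_num)).1 1 zero_le_one).2
    linarith
  ge := by
    intro E hE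
    obtain ⟨a, a', b, b', h1, h2, h3, h4, h5, h6, h7⟩ := F.real hv hp E
    show 2 ≤ (c E 1 + s' E 1).re
    rw [h7, ofReal_re]
    exact disc_ge_two h1 h2 (fun x => by have := hm x; linarith) h3 h4 h5 h6 zero_le_one
  large := by
    intro R
    refine ⟨m - 2 * |R|, by linarith [abs_nonneg R], fun E hE => ?_⟩
    obtain ⟨a, a', b, b', h1, h2, h3, h4, h5, h6, h7⟩ := F.real hv hp E
    show R ≤ (c E 1 + s' E 1).re
    rw [h7, ofReal_re]
    have := disc_large h1 h2 (hv.sub continuous_const) (t := m - E) (by linarith [abs_nonneg R])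
      (fun x => by have := hm x; linarith) h3 h4 h5 h6
    have := le_abs_self R
    linarith [abs_nonneg R]
  osc := by
    intro R
    obtain ⟨K0, hK0⟩ := pot1_bdd hv hp 0
    set K : ℝ := max K0 1 with hK
    have hKpos : 0 < K := lt_max_of_lt_right one_pos
    have hKb : ∀ x, |(-v x)| ≤ K := by
      intro x
      have := hK0 x
      rw [sub_zero, Complex.norm_real, Real.norm_eq_abs] at this
      rw [abs_neg]
      exact this.trans (le_max_left _ _)
    -- choose `ν = π/2 + n π`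
    have ht : Tendsto (fun n : ℕ => Real.pi / 2 + n * Real.pi) atTop atTop := by
      apply tendsto_atTop_add_const_left
      exact Tendsto.atTop_mul_const Real.pi_pos tendsto_natCast_atTop_atTop
    have he : Tendsto (fun ν : ℝ => 2 * (Real.exp (K * 1 / ν) - 1)) atTop (𝓝 0) := by
      have h1 : Tendsto (fun ν : ℝ => K * 1 / ν) atTop (𝓝 0) := tendsto_const_nhds.div_atTop tendsto_id
      have h2 := (Real.continuous_exp.tendsto 0).comp h1
      rw [Real.exp_zero] at h2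
      have h3 := (h2.sub_const 1).const_mul 2
      simpa using h3
    have e1 := (he.comp ht).eventually (gt_mem_nhds (show (0 : ℝ) < 2 by norm_num))
    have e2 := ht.eventually (eventually_gt_atTop (max 1 |R|))
    obtain ⟨n, hn1, hn2⟩ := (e1.and e2).exists
    set ν : ℝ := Real.pi / 2 + n * Real.pi with hν
    have hν1 : 1 < ν := (le_max_left _ _).trans_lt hn2
    have hν2 : |R| < ν := (le_max_right _ _).trans_lt hn2
    refine ⟨ν ^ 2, ?_, ?_⟩
    · have := le_abs_self R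
      nlinarith
    · obtain ⟨a, a', b, b', h1, h2, h3, h4, h5, h6, h7⟩ := F.real hv hp (ν ^ 2)
      show |(c ((ν ^ 2 : ℝ) : ℂ) 1 + s' ((ν ^ 2 : ℝ) : ℂ) 1).re| < 2
      rw [h7, ofReal_re]
      have g1 : (fun x => v x - ν ^ 2) = fun x => -ν ^ 2 - (-v x) := by funext x; ring
      rw [g1] at h1 h2
      have := disc_cos (q := fun x => -v x) (by linarith : 0 < ν) hKpos hKb h1 h2 h3 h4 h5 h6
        zero_le_one
      have hcos : Real.cos (ν * 1) = 0 := by
        rw [mul_one, Real.cos_eq_zero_iff]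
        exact ⟨n, by rw [hν]; push_cast; ring⟩
      rw [hcos] at this
      simp only [mul_zero, sub_zero] at this
      exact this.trans_lt hn1
  loc := by
    intro E z a hz h ha
    exact energy_bound hv hp hm ((F.mult_iff hv hp E z).2 ⟨hz, h⟩) ha

end

theorem exists_lower {v : ℝ → ℝ} (hv : Continuous v) (hp : ∀ x, v (x + 1) = v x) :
    ∃ m : ℝ, ∀ x, m ≤ v x := by
  obtain ⟨C, hC⟩ := pot1_bdd hv hp 0
  refine ⟨-C, fun x => ?_⟩
  have := hC x
  rw [sub_zero, Complex.norm_real, Real.norm_eq_abs] at this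
  exact (abs_le.1 this).1

variable {D : ℂ → ℂ} {m : ℝ}

theorem DiscProps.im_zero (P : DiscProps D m) (E : ℝ) : (D E).im = 0 := by
  have := P.conj E
  rw [Complex.conj_ofReal] at this
  exact Complex.conj_eq_iff_im.1 this.symm

theorem DiscProps.eq_re (P : DiscProps D m) (E : ℝ) : D E = ((D E).re : ℂ) :=
  Complex.ext (by simp) (by simp [P.im_zero E])

/-- a value in `[-2, 2]` is taken only on the real axis, to the right of `m` -/
theorem DiscProps.band (P : DiscProps D m) {E : ℂ} {t : ℝ} (ht : |t| ≤ 2) (h : D E = t) :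
    E.im = 0 ∧ m ≤ E.re := by
  have h4 : 0 ≤ 1 - (t / 2) ^ 2 := by
    have h1 := abs_le.1 ht
    nlinarith [h1.1, h1.2]
  set r : ℝ := Real.sqrt (1 - (t / 2) ^ 2) with hr
  have hr2 : r ^ 2 = 1 - (t / 2) ^ 2 := Real.sq_sqrt h4
  set z : ℂ := ⟨t / 2, r⟩ with hz
  have hn : Complex.normSq z = 1 := by
    rw [hz, Complex.normSq_mk]
    linear_combination hr2
  have hn' : ‖z‖ = 1 := by
    rw [← Complex.sq_norm] at hn
    have := norm_nonneg z
    nlinarith
  have hz0 : z ≠ 0 := by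
    intro h0
    rw [h0, norm_zero] at hn'
    exact zero_ne_one hn'
  have hinv : z⁻¹ = (starRingEnd ℂ) z := by
    rw [Complex.inv_def, hn]
    simp
  have hD : D E = z + z⁻¹ := by
    rw [h, hinv]
    apply Complex.ext
    · simp [hz]
    · simp [hz]
  have := P.loc E z 0 hz0 hD (by rw [hn', Real.exp_zero])
  refine ⟨this.2.2 rfl, ?_⟩
  have h5 := this.1
  norm_num at h5
  exact h5

/-- bounded sets of values -/
theorem DiscProps.proper {D1 D2 : ℂ → ℂ} {m1 m2 : ℝ} (P1 : DiscProps D1 m1) (P2 : DiscProps D2 m2)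
    (lam : ℂ) (C : ℝ) : ∃ R : ℝ, ∀ E z w : ℂ, z ≠ 0 → w ≠ 0 → D1 E = z + z⁻¹ →
      D2 (lam - E) = w + w⁻¹ → |Real.log ‖z‖| ≤ C → |Real.log ‖w‖| ≤ C → ‖E‖ ≤ R := by
  set B : ℝ := |m1| + 2 * C ^ 2 + ‖lam‖ + |m2| + 2 * C ^ 2 with hB
  refine ⟨B + (2 * (B + |m1|) + 5 * C ^ 2), fun E z w hz hw h1 h2 hC1 hC2 => ?_⟩
  have k1 := P1.loc E z (Real.log ‖z‖) hz h1 (Real.exp_log (norm_pos_iff.2 hz)).symm
  have k2 := P2.loc (lam - E) w (Real.log ‖w‖) hw h2 (Real.exp_log (norm_pos_iff.2 hw)).symm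
  have s1 : Real.log ‖z‖ ^ 2 ≤ C ^ 2 := by
    rw [← sq_abs]; gcongr
  have s2 : Real.log ‖w‖ ^ 2 ≤ C ^ 2 := by
    rw [← sq_abs]; gcongr
  have a1 := neg_abs_le m1
  have a2 := neg_abs_le m2
  have a3 := Complex.abs_re_le_norm lam
  have a4 := abs_le.1 a3
  have k21 := k2.1
  rw [Complex.sub_re] at k21
  have re1 : |E.re| ≤ B := by
    rw [abs_le]
    constructor
    · have := k1.1
      have := norm_nonneg lam
      have := abs_nonneg m2
      nlinarith
    · have := abs_nonneg m1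
      nlinarith [sq_nonneg C]
  have im1 : |E.im| ≤ 2 * (B + |m1|) + 5 * C ^ 2 := by
    have := k1.2.1
    have h3 := (abs_le.1 re1).2
    nlinarith
  calc ‖E‖ ≤ |E.re| + |E.im| := Complex.norm_le_abs_re_add_abs_im E
    _ ≤ _ := add_le_add re1 im1

end Pool.Agent.KS6_68.FV
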