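import Pool.Agent.KS6_68.FV.SqrtL
import Pool.Agent.KS6_68.FV.Irred
import Pool.Agent.KS6_68.FV.RealDisc

/-! Square roots of `D² - 4` and of products, and the band edges. -/

set_option autoImplicit false

open Complex Filter Topology Set Function Metric

namespace Pool.Agent.KS6_68.FV

/-- a conjugation symmetric entire function changing its sign on the real axis is not a square -/
theorem no_sqrt_of_sign {F s : ℂ → ℂ} (hs : Differentiable ℂ s) (h2 : ∀ z, s z ^ 2 = F z)
    (hc : ∀ z, F ((starRingEnd ℂ) z) = (starRingEnd ℂ) (F z)) {a b : ℝ} (ha : 0 < (F a).re)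
    (hb : (F b).re < 0) : False := by
  have hreal : ∀ x : ℝ, (F x).im = 0 := by
    intro x
    have := hc x
    rw [Complex.conj_ofReal] at this
    exact Complex.conj_eq_iff_im.1 this.symm
  set t : ℂ → ℂ := fun z => (starRingEnd ℂ) (s ((starRingEnd ℂ) z)) with ht
  have htd : Differentiable ℂ t := by
    intro z
    have h1 := (hs ((starRingEnd ℂ) z)).hasDerivAt
    have h2 := h1.conj_conj
    rw [Complex.conj_conj] at h2
    exact h2.differentiableAt
  have h3 : ∀ z, t z ^ 2 = s z ^ 2 := by
    intro z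
    show (starRingEnd ℂ) (s ((starRingEnd ℂ) z)) ^ 2 = s z ^ 2
    rw [← map_pow, h2, hc, Complex.conj_conj, h2]
  -- `s a` is real
  have hsa : t a = s a := by
    show (starRingEnd ℂ) (s ((starRingEnd ℂ) (a : ℂ))) = s a
    rw [Complex.conj_ofReal]
    have h4 := h2 a
    have h5 : (s a).re ^ 2 - (s a).im ^ 2 = (F a).re := by
      rw [← h4, pow_two (s _), Complex.mul_re]; ring
    have h6 : 2 * ((s a).re * (s a).im) = 0 := by
      have : (s a ^ 2).im = 2 * ((s a).re * (s a).im) := by
        rw [pow_two, Complex.mul_im]; ring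
      rw [← this, h4, hreal]
    have h7 : (s a).im = 0 := by
      rcases mul_eq_zero.1 ((mul_eq_zero.1 h6).resolve_left two_ne_zero) with h | h
      · rw [h] at h5
        nlinarith [sq_nonneg (s a).im]
      · exact h
    exact Complex.conj_eq_iff_im.2 h7
  have hFa : F a ≠ 0 := by
    intro h
    rw [h] at ha
    simp at ha
  have hFd : Differentiable ℂ F := by
    have : F = fun z => s z ^ 2 := funext fun z => (h2 z).symm
    rw [this]
    exact hs.pow 2
  have he : ∀ᶠ z in 𝓝 (a : ℂ), t z = s z :=
    roots_eq hFa htd.continuous.continuousAt hs.continuous.continuousAt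
      (Eventually.of_forall fun z => by rw [h3, h2]) (Eventually.of_forall fun z => h2 z) hsa
  have hts : ∀ z, t z = s z := by
    have h4 : AnalyticOnNhd ℂ t univ := fun z _ => htd.analyticAt z
    have h5 : AnalyticOnNhd ℂ s univ := fun z _ => hs.analyticAt z
    intro z
    exact h4.eqOn_of_preconnected_of_eventuallyEq h5 isPreconnected_univ (mem_univ (a : ℂ)) he
      (mem_univ z)
  have h8 : (s b).im = 0 := by
    have := hts b
    rw [ht] at this
    simp only [Complex.conj_ofReal] at this
    exact Complex.conj_eq_iff_im.1 this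
  have h9 : (F b).re = (s b).re ^ 2 := by
    rw [← h2 b, pow_two, Complex.mul_re, h8]; ring
  rw [h9] at hb
  nlinarith [sq_nonneg (s b).re]

variable {D : ℂ → ℂ} {m : ℝ}

theorem DiscProps.dd_conj (P : DiscProps D m) (E : ℂ) :
    dd D ((starRingEnd ℂ) E) = (starRingEnd ℂ) (dd D E) := by
  unfold dd
  rw [P.conj, map_sub, map_pow, map_ofNat]

theorem DiscProps.no_sqrt (P : DiscProps D m) :
    ¬∃ s : ℂ → ℂ, Differentiable ℂ s ∧ ∀ E, s E ^ 2 = dd D E := by
  rintro ⟨s, hs, h2⟩
  obtain ⟨E0, -, hE0⟩ := P.large 3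
  obtain ⟨E1, -, hE1⟩ := P.osc 0
  refine no_sqrt_of_sign hs h2 P.dd_conj (a := E0) (b := E1) ?_ ?_
  · have h1 := hE0 E0 le_rfl
    unfold dd
    rw [Complex.sub_re, pow_two, Complex.mul_re, P.im_zero E0]
    norm_num
    nlinarith
  · have h1 := abs_lt.1 hE1
    unfold dd
    rw [Complex.sub_re, pow_two, Complex.mul_re, P.im_zero E1]
    norm_num
    nlinarith [h1.1, h1.2]

theorem DiscProps.no_sqrt' (P : DiscProps D m) (lam : ℂ) :
    ¬∃ s : ℂ → ℂ, Differentiable ℂ s ∧ ∀ E, s E ^ 2 = dd (fun E => D (lam - E)) E := by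
  rintro ⟨s, hs, h2⟩
  refine P.no_sqrt ⟨fun E => s (lam - E), hs.comp ((differentiable_const lam).sub differentiable_id),
    fun E => ?_⟩
  have := h2 (lam - E)
  show s (lam - E) ^ 2 = dd D E
  rw [this]
  show D (lam - (lam - E)) ^ 2 - 4 = D E ^ 2 - 4
  rw [sub_sub_cancel]

/-- zeros of `D² - 4` are real and at least `m` -/
theorem DiscProps.zero_real (P : DiscProps D m) {E : ℂ} (h : dd D E = 0) : E.im = 0 ∧ m ≤ E.re := by
  unfold dd at h
  have h1 : (D E - 2) * (D E + 2) = 0 := by linear_combination h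
  rcases mul_eq_zero.1 h1 with h2 | h2
  · exact P.band (t := 2) (by norm_num) (by push_cast; linear_combination h2)
  · exact P.band (t := -2) (by norm_num) (by push_cast; linear_combination h2)

theorem DiscProps.dd_ne (P : DiscProps D m) : ∃ E, dd D E ≠ 0 :=
  ⟨I, fun h => by
    have := (P.zero_real h).1
    rw [Complex.I_im] at this
    exact one_ne_zero this⟩

theorem prod_ne {D1 D2 : ℂ → ℂ} {m1 m2 : ℝ} (P1 : DiscProps D1 m1) (P2 : DiscProps D2 m2)
    (lam : ℂ) : ∃ E, dd D1 E * dd (fun E => D2 (lam - E)) E ≠ 0 := by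
  refine ⟨(|lam.im| + 1 : ℝ) * I, mul_ne_zero (fun h => ?_) (fun h => ?_)⟩
  · have := (P1.zero_real h).1
    simp only [Complex.mul_im, Complex.ofReal_re, Complex.I_im, Complex.ofReal_im, Complex.I_re,
      mul_one, mul_zero, add_zero] at this
    have := abs_nonneg lam.im
    linarith
  · have h1 : dd D2 (lam - (|lam.im| + 1 : ℝ) * I) = 0 := h
    have := (P2.zero_real h1).1
    simp only [Complex.sub_im, Complex.mul_im, Complex.ofReal_re, Complex.I_im, Complex.ofReal_im,
      Complex.I_re, mul_one, mul_zero, add_zero] at this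
    have := le_abs_self lam.im
    linarith

theorem comp_diff {D : ℂ → ℂ} (h : Differentiable ℂ D) (lam : ℂ) :
    Differentiable ℂ fun E => D (lam - E) :=
  h.comp ((differentiable_const lam).sub differentiable_id)

theorem mem_edges {D : ℂ → ℂ} (hD : Differentiable ℂ D) (h0 : ∃ E, dd D E ≠ 0) (E : ℂ) :
    E ∈ edges D ↔ ¬ Even (analyticOrderNatAt (dd D) E) := by
  have ht := order_ne_top (dd_diff hD) h0 E
  rw [Nat.not_even_iff_odd]
  constructor
  · rintro ⟨n, hn, h⟩
    have h' : analyticOrderAt (dd D) E = n := h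
    rw [analyticOrderNatAt, h']
    simpa using hn
  · intro h
    exact ⟨_, h, (Nat.cast_analyticOrderNatAt ht).symm⟩

theorem order_comp {D : ℂ → ℂ} (hD : Differentiable ℂ D) (lam E : ℂ) :
    analyticOrderNatAt (dd (fun E => D (lam - E))) E = analyticOrderNatAt (dd D) (lam - E) := by
  have h1 : AnalyticAt ℂ (fun E : ℂ => lam - E) E := by fun_prop
  have h2 : deriv (fun E : ℂ => lam - E) E ≠ 0 := by
    have : HasDerivAt (fun E : ℂ => lam - E) (-1) E := by
      simpa using (hasDerivAt_id E).const_sub lam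
    rw [this.deriv]
    norm_num
  have h3 := analyticOrderAt_comp_of_deriv_ne_zero (f := dd D) h1 h2
  unfold analyticOrderNatAt
  rw [show dd (fun E => D (lam - E)) = (dd D) ∘ (fun E => lam - E) from rfl, h3]

/-- the product of `D1² - 4` and the mirrored `D2² - 4` is a square if and only if the band edges
of `D1` are the mirrored band edges of `D2` -/
theorem mirror_iff {D1 D2 : ℂ → ℂ} {m1 m2 : ℝ} (P1 : DiscProps D1 m1) (P2 : DiscProps D2 m2)
    (lam : ℂ) : (∃ s : ℂ → ℂ, Differentiable ℂ s ∧
      ∀ E, s E ^ 2 = dd D1 E * dd (fun E => D2 (lam - E)) E) ↔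
      edges D1 = {E | lam - E ∈ edges D2} := by
  have d1 := dd_diff P1.diff
  have d2 := dd_diff (comp_diff P2.diff lam)
  have h0 := prod_ne P1 P2 lam
  have n1 : ∃ E, dd D1 E ≠ 0 := P1.dd_ne
  have n2 : ∃ E, dd D2 E ≠ 0 := P2.dd_ne
  have n2' : ∃ E, dd (fun E => D2 (lam - E)) E ≠ 0 := by
    obtain ⟨E, hE⟩ := h0
    exact ⟨E, right_ne_zero_of_mul hE⟩
  refine (sqrt_iff (F := fun E => dd D1 E * dd (fun E => D2 (lam - E)) E) (d1.mul d2) h0).trans ?_
  have hord : ∀ E, analyticOrderNatAt (fun E => dd D1 E * dd (fun E => D2 (lam - E)) E) E =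
      analyticOrderNatAt (dd D1) E + analyticOrderNatAt (dd D2) (lam - E) := by
    intro E
    rw [← order_comp P2.diff]
    exact analyticOrderNatAt_mul (d1.analyticAt E) (d2.analyticAt E) (order_ne_top d1 n1 E)
      (order_ne_top d2 n2' E)
  constructor
  · intro h
    ext E
    have h1 := h E
    rw [hord, Nat.even_add] at h1
    rw [mem_edges P1.diff n1, mem_setOf_eq, mem_edges P2.diff n2, h1]
  · intro h E
    have h1 : E ∈ edges D1 ↔ lam - E ∈ edges D2 := by rw [h]; rfl
    rw [mem_edges P1.diff n1, mem_edges P2.diff n2, not_iff_not] at h1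
    rw [hord, Nat.even_add]
    exact h1

theorem DiscProps.edges_real (P : DiscProps D m) {E : ℂ} (h : E ∈ edges D) :
    E.im = 0 ∧ m ≤ E.re := by
  apply P.zero_real
  obtain ⟨n, hn, h1⟩ := h
  have h2 : analyticOrderAt (dd D) E ≠ 0 := by
    rw [show analyticOrderAt (dd D) E = n from h1]
    have := hn.pos.ne'
    exact_mod_cast this
  exact apply_eq_zero_of_analyticOrderAt_ne_zero h2

theorem DiscProps.edges_nonempty (P : DiscProps D m) : (edges D).Nonempty := by
  by_contra h
  rw [not_nonempty_iff_eq_empty] at h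
  apply P.no_sqrt
  apply exists_sqrt (dd_diff P.diff) P.dd_ne
  intro z
  by_contra h1
  have : z ∈ edges D := (mem_edges P.diff P.dd_ne z).2 h1
  rw [h] at this
  exact this

/-- consequences of the mirror property -/
theorem mirror_props {D1 D2 : ℂ → ℂ} {m1 m2 : ℝ} (P1 : DiscProps D1 m1) (P2 : DiscProps D2 m2)
    {lam : ℂ} (h : edges D1 = {E | lam - E ∈ edges D2}) :
    lam.im = 0 ∧ (edges D1).Finite ∧ (edges D2).Finite ∧
      ∀ mu : ℂ, edges D1 = {E | mu - E ∈ edges D2} → mu = lam := by
  have him : lam.im = 0 := by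
    obtain ⟨E, hE⟩ := P1.edges_nonempty
    have h1 := (P1.edges_real hE).1
    have h2 : lam - E ∈ edges D2 := by rw [h] at hE; exact hE
    have h3 := (P2.edges_real h2).1
    rw [Complex.sub_im, h1, sub_zero] at h3
    exact h3
  have hfin : (edges D1).Finite := by
    refine (zeros_finite (dd_diff P1.diff) P1.dd_ne
      (isCompact_closedBall (0 : ℂ) (|m1| + |lam.re| + |m2|))).subset ?_
    intro E hE
    have h1 := P1.edges_real hE
    have h2 : lam - E ∈ edges D2 := by rw [h] at hE; exact hE
    have h3 := (P2.edges_real h2).2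
    rw [Complex.sub_re] at h3
    constructor
    · rw [mem_closedBall_zero_iff]
      have h4 : ‖E‖ = |E.re| := by
        rw [← Complex.re_add_im E, h1.1]
        simp
      rw [h4, abs_le]
      have a1 := neg_abs_le m1
      have a2 := neg_abs_le m2
      have a3 := le_abs_self lam.re
      have a4 := abs_nonneg m1
      have a5 := abs_nonneg m2
      have a6 := abs_nonneg lam.re
      constructor
      · linarith [h1.2]
      · linarith
    · obtain ⟨n, hn, h1⟩ := hE
      have h2 : analyticOrderAt (dd D1) E ≠ 0 := by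
        rw [show analyticOrderAt (dd D1) E = n from h1]
        have := hn.pos.ne'
        exact_mod_cast this
      exact apply_eq_zero_of_analyticOrderAt_ne_zero h2
  have hfin2 : (edges D2).Finite := by
    have : edges D2 = (fun E => lam - E) '' edges D1 := by
      ext E
      constructor
      · intro hE
        exact ⟨lam - E, by rw [h]; simpa using hE, by simp⟩
      · rintro ⟨E', hE', rfl⟩
        rw [h] at hE'
        exact hE'
    rw [this]
    exact hfin.image _
  refine ⟨him, hfin, hfin2, fun mu hmu => ?_⟩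
  by_contra hne
  set d : ℂ := mu - lam with hd
  have hd0 : d ≠ 0 := sub_ne_zero.2 hne
  have hstep : ∀ E ∈ edges D1, E + d ∈ edges D1 := by
    intro E hE
    have h1 : lam - E ∈ edges D2 := by rw [h] at hE; exact hE
    rw [hmu]
    show mu - (E + d) ∈ edges D2
    have : mu - (E + d) = lam - E := by rw [hd]; ring
    rw [this]
    exact h1
  obtain ⟨E, hE⟩ := P1.edges_nonempty
  have hall : ∀ n : ℕ, E + n * d ∈ edges D1 := by
    intro n
    induction n with
    | zero => simpa using hE
    | succ n ih =>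
      have := hstep _ ih
      have e : E + ((n + 1 : ℕ) : ℂ) * d = E + n * d + d := by push_cast; ring
      rw [e]
      exact this
  have hinj : Injective fun n : ℕ => E + n * d := by
    intro a b hab
    have h1 : (a : ℂ) * d = b * d := add_left_cancel hab
    exact_mod_cast mul_right_cancel₀ hd0 h1
  exact Set.infinite_range_of_injective hinj (hfin.subset (by rintro _ ⟨n, rfl⟩; exact hall n))

end Pool.Agent.KS6_68.FV
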