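import Mathlib

set_option autoImplicit false

open Complex Filter Topology Set MeasureTheory

namespace Pool.Agent.KS6_68.FV

/-- one-dimensional Fourier coefficient on `[0,1]` -/
noncomputable def c1 (f : ℝ → ℂ) (n : ℤ) : ℂ :=
  ∫ x in (0 : ℝ)..1, exp (-(2 * Real.pi * I * n * x)) * f x

theorem pars1 (f : ℝ → ℂ) (hf : Continuous f) :
    HasSum (fun n : ℤ => ‖c1 f n‖ ^ 2) (∫ x in (0 : ℝ)..1, ‖f x‖ ^ 2) := by
  have h01 : (0 : ℝ) < 1 := zero_lt_one
  have hL : MemLp f 2 (volume.restrict (Ioc (0 : ℝ) 1)) := by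
    have hb : ∃ C, ∀ x ∈ Icc (0 : ℝ) 1, ‖f x‖ ≤ C :=
      isCompact_Icc.exists_bound_of_continuousOn hf.continuousOn
    obtain ⟨C, hC⟩ := hb
    refine MemLp.of_bound hf.aestronglyMeasurable C ?_
    refine (ae_restrict_iff' measurableSet_Ioc).2 (.of_forall fun x hx => ?_)
    exact hC x ⟨hx.1.le, hx.2⟩
  have h := hasSum_sq_fourierCoeffOn h01 hL
  have e1 : ∀ n, fourierCoeffOn h01 f n = c1 f n := by
    intro n
    rw [fourierCoeffOn_eq_integral]
    unfold c1
    have : ∀ x : ℝ, fourier (-n) (x : AddCircle (1 - 0 : ℝ)) • f x =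
        exp (-(2 * Real.pi * I * n * x)) * f x := by
      intro x
      rw [fourier_coe_apply, smul_eq_mul]
      congr 2
      push_cast
      ring
    simp only [this]
    simp
  simp only [e1] at h
  simpa using h

/-- two-dimensional Fourier coefficient -/
noncomputable def cf (p : ℝ → ℝ → ℂ) (n : ℤ × ℤ) : ℂ :=
  c1 (fun y => c1 (fun x => p x y) n.1) n.2

theorem c1_cont (p : ℝ → ℝ → ℂ) (hp : Continuous (Function.uncurry p)) (n : ℤ) :
    Continuous fun y => c1 (fun x => p x y) n := by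
  unfold c1
  refine intervalIntegral.continuous_parametric_intervalIntegral_of_continuous' ?_ 0 1
  have h2 : Continuous fun q : ℝ × ℝ => p q.2 q.1 := hp.comp (continuous_snd.prodMk continuous_fst)
  refine Continuous.mul ?_ h2
  fun_prop

theorem sl_cont {E : Type*} [TopologicalSpace E] {p : ℝ → ℝ → E}
    (hp : Continuous (Function.uncurry p)) (y : ℝ) :
    Continuous fun x => p x y := hp.comp (continuous_id.prodMk continuous_const)

theorem sl_cont' {E : Type*} [TopologicalSpace E] {p : ℝ → ℝ → E}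
    (hp : Continuous (Function.uncurry p)) (x : ℝ) :
    Continuous fun y => p x y := hp.comp (continuous_const.prodMk continuous_id)

theorem G_cont (p : ℝ → ℝ → ℂ) (hp : Continuous (Function.uncurry p)) :
    Continuous fun y => ∫ x in (0 : ℝ)..1, ‖p x y‖ ^ 2 := by
  refine intervalIntegral.continuous_parametric_intervalIntegral_of_continuous' ?_ 0 1
  have h2 : Continuous fun q : ℝ × ℝ => p q.2 q.1 := hp.comp (continuous_snd.prodMk continuous_fst)
  exact h2.norm.pow 2

theorem sum_int (F : ℤ → ℝ → ℝ) (G : ℝ → ℝ) (hFc : ∀ n, Continuous (F n)) (hGc : Continuous G)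
    (h1 : ∀ y, HasSum (fun n => F n y) (G y)) (hF0 : ∀ n y, 0 ≤ F n y) :
    HasSum (fun n => ∫ y in (0 : ℝ)..1, F n y) (∫ y in (0 : ℝ)..1, G y) := by
  have hFi : ∀ n, IntervalIntegrable (F n) volume 0 1 := fun n => (hFc n).intervalIntegrable _ _
  have hs : Summable fun n => ∫ y in (0 : ℝ)..1, F n y := by
    refine summable_of_sum_le (c := ∫ y in (0 : ℝ)..1, G y) ?_ ?_
    · intro n
      exact intervalIntegral.integral_nonneg zero_le_one fun y _ => hF0 n y
    · intro s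
      rw [← intervalIntegral.integral_finsetSum (fun n _ => hFi n)]
      refine intervalIntegral.integral_mono_on zero_le_one ?_ (hGc.intervalIntegrable _ _) ?_
      · exact (continuous_finsetSum _ fun n _ => hFc n).intervalIntegrable _ _
      · intro y _
        exact sum_le_hasSum s (fun n _ => hF0 n y) (h1 y)
  simp only [intervalIntegral.integral_of_le zero_le_one] at hs ⊢
  have := MeasureTheory.hasSum_integral_of_summable_integral_norm
    (μ := volume.restrict (Ioc (0 : ℝ) 1)) (F := F)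
    (fun n => (hFi n).1) (by simpa [abs_of_nonneg (hF0 _ _)] using hs)
  have e : (∫ y in Ioc (0 : ℝ) 1, ∑' n, F n y) = ∫ y in Ioc (0 : ℝ) 1, G y := by
    congr 1
    funext y
    exact (h1 y).tsum_eq
  rw [e] at this
  exact this

theorem sum_prod (f : ℤ × ℤ → ℝ) (hf : ∀ n, 0 ≤ f n) (g : ℤ → ℝ) (S : ℝ)
    (h3 : ∀ n1, HasSum (fun n2 : ℤ => f (n1, n2)) (g n1)) (h2 : HasSum g S) : HasSum f S := by
  have hsum : Summable f := by
    rw [summable_prod_of_nonneg hf]
    refine ⟨fun n1 => (h3 n1).summable, ?_⟩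
    have : (fun n1 : ℤ => ∑' n2 : ℤ, f (n1, n2)) = g :=
      funext fun n1 => (h3 n1).tsum_eq
    rw [this]
    exact h2.summable
  have h4 := hsum.hasSum.prod_fiberwise h3
  have h5 := h4.unique h2
  rw [← h5]
  exact hsum.hasSum

theorem pars2 (p : ℝ → ℝ → ℂ) (hp : Continuous (Function.uncurry p)) :
    HasSum (fun n : ℤ × ℤ => ‖cf p n‖ ^ 2) (∫ y in (0 : ℝ)..1, ∫ x in (0 : ℝ)..1, ‖p x y‖ ^ 2) := by
  have h2 := sum_int (fun n y => ‖c1 (fun x => p x y) n‖ ^ 2) _
    (fun n => (c1_cont p hp n).norm.pow 2) (G_cont p hp) (fun y => pars1 _ (sl_cont hp y))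
    (fun n y => by positivity)
  have h3 : ∀ n1 : ℤ, HasSum (fun n2 : ℤ => ‖cf p (n1, n2)‖ ^ 2)
      (∫ y in (0 : ℝ)..1, ‖c1 (fun x => p x y) n1‖ ^ 2) := by
    intro n1
    have := pars1 _ (c1_cont p hp n1)
    simpa only [cf] using this
  exact sum_prod (fun n : ℤ × ℤ => ‖cf p n‖ ^ 2) (fun n => sq_nonneg _)
    (fun n1 => ∫ y in (0 : ℝ)..1, ‖c1 (fun x => p x y) n1‖ ^ 2) _ h3 h2

theorem zero_of_int (f : ℝ → ℝ) (hf : Continuous f) (h0 : ∀ x, 0 ≤ f x)
    (h : ∫ x in (0 : ℝ)..1, f x = 0) : ∀ x ∈ Icc (0 : ℝ) 1, f x = 0 := by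
  rw [intervalIntegral.integral_of_le zero_le_one, ← integral_Icc_eq_integral_Ioc] at h
  have h1 := (setIntegral_eq_zero_iff_of_nonneg_ae (μ := volume) (s := Icc (0 : ℝ) 1) (f := f)
    (.of_forall fun x => h0 x) (hf.integrableOn_Icc)).1 h
  have h2 := Measure.eqOn_Icc_of_ae_eq volume (zero_ne_one (α := ℝ)) h1 hf.continuousOn
    continuousOn_const
  intro x hx
  exact h2 hx

theorem zero_of_int2 (p : ℝ → ℝ → ℂ) (hp : Continuous (Function.uncurry p))
    (h : ∫ y in (0 : ℝ)..1, ∫ x in (0 : ℝ)..1, ‖p x y‖ ^ 2 = 0) :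
    ∀ x ∈ Icc (0 : ℝ) 1, ∀ y ∈ Icc (0 : ℝ) 1, p x y = 0 := by
  intro x hx y hy
  have h1 := zero_of_int _ (G_cont p hp)
    (fun y => intervalIntegral.integral_nonneg zero_le_one fun x _ => sq_nonneg _) h y hy
  have h2 := zero_of_int _ ((sl_cont hp y).norm.pow 2) (fun x => sq_nonneg _) h1 x hx
  simpa using h2

end Pool.Agent.KS6_68.FV
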