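import Pool.Agent.KS6_68.FV.Image
import Pool.Agent.KS6_68.FV.NoSq

/-! If the product of `D1² - 4` and the mirrored `D2² - 4` is a square, the curve is reducible. -/

set_option autoImplicit false

open Complex Filter Topology Set Function Metric

namespace Pool.Agent.KS6_68.FV

/-- one half of the curve -/
def half (φ ψ s : ℂ → ℂ) (ε : ℂ) : Set (ℂ × ℂ) :=
  {p | p ∈ torusC ∧ ∃ E, φ E = p.1 + p.1⁻¹ ∧ ψ E = p.2 + p.2⁻¹ ∧
    s E = ε * ((p.1 - p.1⁻¹) * (p.2 - p.2⁻¹))}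

theorem DiscProps.order_sub {D : ℂ → ℂ} {m : ℝ} (P : DiscProps D m) (E0 : ℂ) :
    analyticOrderAt (fun E => D E - D E0) E0 ≠ ⊤ := by
  refine order_ne_top (P.diff.sub_const _) ?_ E0
  obtain ⟨E1, -, h⟩ := P.large (‖D E0‖ + 1)
  refine ⟨E1, fun h0 => ?_⟩
  have h1 := h E1 le_rfl
  rw [sub_eq_zero.1 h0] at h1
  have := Complex.re_le_norm (D E0)
  linarith

theorem torusC_open : IsOpen torusC :=
  (isOpen_ne_fun continuous_fst continuous_const).inter
    (isOpen_ne_fun continuous_snd continuous_const)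

section

variable {D1 D2 : ℂ → ℂ} {m1 m2 : ℝ} (P1 : DiscProps D1 m1) (P2 : DiscProps D2 m2) (lam : ℂ)
  {s : ℂ → ℂ}

include P1 P2

theorem half_an (hs : Differentiable ℂ s) (ε : ℂ) :
    IsAnalyticSubset torusC (half D1 (fun E => D2 (lam - E)) s ε) := by
  refine ⟨fun p hp => hp.1, fun p hp => ?_⟩
  apply LocZ.toFin
  set C : ℝ := max |Real.log ‖p.1‖| |Real.log ‖p.2‖| + 1 with hC
  obtain ⟨R, hR⟩ := P1.proper P2 lam C
  have a1 : AnalyticAt ℂ (fun q : ℂ × ℂ => q.1⁻¹) p := analyticAt_fst.inv hp.1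
  have a2 : AnalyticAt ℂ (fun q : ℂ × ℂ => q.2⁻¹) p := analyticAt_snd.inv hp.2
  obtain ⟨O, hKO, hloc⟩ := compact_piece P1.diff (comp_diff P2.diff lam) hs P1.order_sub
    (α := fun q : ℂ × ℂ => q.1 + q.1⁻¹) (β := fun q => q.2 + q.2⁻¹)
    (γ := fun q => ε * ((q.1 - q.1⁻¹) * (q.2 - q.2⁻¹))) (p := p)
    (analyticAt_fst.add a1) (analyticAt_snd.add a2)
    (analyticAt_const.mul ((analyticAt_fst.sub a1).mul (analyticAt_snd.sub a2)))
    (isCompact_closedBall (0 : ℂ) R)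
  refine hloc.congr ?_
  have c1 : ContinuousAt (fun q : ℂ × ℂ => |Real.log ‖q.1‖|) p :=
    ((continuous_fst.norm.continuousAt (x := p)).log (norm_ne_zero_iff.2 hp.1)).abs
  have c2 : ContinuousAt (fun q : ℂ × ℂ => |Real.log ‖q.2‖|) p :=
    ((continuous_snd.norm.continuousAt (x := p)).log (norm_ne_zero_iff.2 hp.2)).abs
  have l1 : |Real.log ‖p.1‖| < C := by
    have := le_max_left |Real.log ‖p.1‖| |Real.log ‖p.2‖|
    linarith
  have l2 : |Real.log ‖p.2‖| < C := by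
    have := le_max_right |Real.log ‖p.1‖| |Real.log ‖p.2‖|
    linarith
  filter_upwards [c1.eventually (gt_mem_nhds l1), c2.eventually (gt_mem_nhds l2),
    torusC_open.mem_nhds hp] with q h1 h2 hq
  constructor
  · rintro ⟨-, E, e1, e2, e3⟩
    refine ⟨E, hKO ?_, e1, e2, e3⟩
    rw [mem_closedBall_zero_iff]
    exact hR E q.1 q.2 hq.1 hq.2 e1 e2 h1.le h2.le
  · rintro ⟨E, -, e1, e2, e3⟩
    exact ⟨hq, E, e1, e2, e3⟩

omit P1 P2 in
theorem half_union (φ ψ : ℂ → ℂ) (h2 : ∀ E, s E ^ 2 = dd φ E * dd ψ E) :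
    XX φ ψ = half φ ψ s 1 ∪ half φ ψ s (-1) := by
  ext ⟨z, w⟩
  constructor
  · rintro ⟨hp, E, e1, e2⟩
    have hz : z ≠ 0 := hp.1
    have hw : w ≠ 0 := hp.2
    simp only at e1 e2
    have h : s E ^ 2 = ((z - z⁻¹) * (w - w⁻¹)) ^ 2 := by
      rw [h2]
      unfold dd
      rw [e1, e2]
      field_simp
      ring
    rcases sq_eq_sq_iff_eq_or_eq_neg.1 h with h | h
    · exact Or.inl ⟨hp, E, e1, e2, by rw [one_mul]; exact h⟩
    · exact Or.inr ⟨hp, E, e1, e2, by rw [neg_one_mul]; exact h⟩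
  · rintro (⟨hp, E, e1, e2, -⟩ | ⟨hp, E, e1, e2, -⟩)
    · exact ⟨hp, E, e1, e2⟩
    · exact ⟨hp, E, e1, e2⟩

theorem exists_special (hlam : lam.im = 0) : ∃ (E : ℂ) (z w : ℂ), z ≠ 0 ∧ w ≠ 0 ∧
    D1 E = z + z⁻¹ ∧ D2 (lam - E) = w + w⁻¹ ∧ z - z⁻¹ ≠ 0 ∧ w - w⁻¹ ≠ 0 ∧
    ∀ E', D1 E' = z + z⁻¹ → D2 (lam - E') = w + w⁻¹ → E' = E := by
  set l : ℝ := lam.re with hl
  have hlam' : lam = (l : ℂ) := Complex.ext (by simp [hl]) (by simp [hlam])
  -- a bound of `D1` on a compact interval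
  obtain ⟨M, hM⟩ : ∃ M : ℝ, ∀ E ∈ Set.Icc m1 (l - m2), ‖D1 ((E : ℝ) : ℂ)‖ ≤ M := by
    have hc : ContinuousOn (fun E : ℝ => D1 (E : ℂ)) (Set.Icc m1 (l - m2)) :=
      (P1.diff.continuous.comp Complex.continuous_ofReal).continuousOn
    exact isCompact_Icc.exists_bound_of_continuousOn hc
  obtain ⟨E0, hE0m, hE0⟩ := P1.large (max M 2 + 1)
  obtain ⟨E1, hE1, hE1'⟩ := P2.osc (l - E0)
  set e : ℝ := l - E1 with he
  have heE0 : e ≤ E0 := by linarith
  have hD1 := hE0 e heE0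
  have hD1r := P1.eq_re e
  have hlE : lam - (e : ℂ) = (E1 : ℂ) := by rw [hlam', he]; push_cast; ring
  have hD2r := P2.eq_re E1
  obtain ⟨r, hr⟩ := IsAlgClosed.exists_pow_nat_eq (dd D1 e) (n := 2) (by norm_num)
  obtain ⟨t, ht⟩ := IsAlgClosed.exists_pow_nat_eq (dd (fun E => D2 (lam - E)) e) (n := 2)
    (by norm_num)
  have b1 : dd D1 e ≠ 0 := by
    intro h
    unfold dd at h
    rw [hD1r] at h
    have h1 : ((D1 e).re) ^ 2 - 4 = 0 := by exact_mod_cast h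
    have := le_max_right M 2
    nlinarith
  have b2 : dd (fun E => D2 (lam - E)) e ≠ 0 := by
    intro h
    have h0 : D2 (lam - e) ^ 2 - 4 = 0 := h
    rw [hlE, hD2r] at h0
    have h1 : ((D2 E1).re) ^ 2 - 4 = 0 := by exact_mod_cast h0
    have := abs_lt.1 hE1'
    nlinarith [this.1, this.2]
  have p1 := pt_mem (a := D1 e) (r := r) hr
  have p2 := pt_mem (a := D2 (lam - e)) (r := t) ht
  have hr0 : r ≠ 0 := by
    rintro rfl
    apply b1
    rw [← hr]; norm_num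
  have ht0 : t ≠ 0 := by
    rintro rfl
    apply b2
    rw [← ht]; norm_num
  have i1 : (D1 e + r) / 2 - ((D1 e + r) / 2)⁻¹ = r := by
    have := p1.2
    linear_combination this
  have i2 : (D2 (lam - e) + t) / 2 - ((D2 (lam - e) + t) / 2)⁻¹ = t := by
    have := p2.2
    linear_combination this
  refine ⟨e, (D1 e + r) / 2, (D2 (lam - e) + t) / 2, p1.1, p2.1, p1.2, p2.2,
    by rw [i1]; exact hr0, by rw [i2]; exact ht0, fun E' h1 h2 => ?_⟩
  rw [← p1.2] at h1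
  rw [← p2.2, hlE, hD2r] at h2
  -- `E'` is real and at most `l - m2`
  have h3 := P2.band (abs_lt.2 (abs_lt.1 hE1')).le h2
  rw [hlam', Complex.sub_im, Complex.ofReal_im, zero_sub, neg_eq_zero, Complex.sub_re,
    Complex.ofReal_re] at h3
  have h4 : E' = ((E'.re : ℝ) : ℂ) := Complex.ext (by simp) (by simp [h3.1])
  set x : ℝ := E'.re with hx
  rw [h4] at h1 ⊢
  have h5 : (D1 x).re = (D1 e).re := by rw [h1]
  rcases le_or_gt m1 x with h6 | h6
  · exfalso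
    have h7 := hM x ⟨h6, by linarith [h3.2]⟩
    have h8 := Complex.re_le_norm (D1 x)
    have := le_max_left M 2
    linarith
  · have he1 : e ≤ m1 := heE0.trans hE0m
    rcases lt_trichotomy x e with h9 | h9 | h9
    · have := P1.anti x e h9 he1
      linarith
    · rw [h9]
    · have := P1.anti e x h9 h6.le
      linarith

theorem reducible_of_sqrt (hlam : lam.im = 0) (hs : Differentiable ℂ s)
    (h2 : ∀ E, s E ^ 2 = dd D1 E * dd (fun E => D2 (lam - E)) E) :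
    Reducible torusC (XX D1 fun E => D2 (lam - E)) := by
  obtain ⟨E, z, w, hz, hw, e1, e2, nz, nw, huniq⟩ := exists_special P1 P2 lam hlam
  have hn : (z - z⁻¹) * (w - w⁻¹) ≠ 0 := mul_ne_zero nz nw
  have hsE : s E ^ 2 = ((z - z⁻¹) * (w - w⁻¹)) ^ 2 := by
    rw [h2]
    show (D1 E ^ 2 - 4) * (D2 (lam - E) ^ 2 - 4) = _
    rw [e1, e2]
    field_simp
    ring
  -- the two points
  have key : ∀ ε : ℂ, ε = 1 ∨ ε = -1 → ∃ q ∈ XX D1 (fun E => D2 (lam - E)),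
      q ∉ half D1 (fun E => D2 (lam - E)) s ε := by
    intro ε hε
    have hε0 : ε ≠ 0 := by rcases hε with rfl | rfl <;> norm_num
    by_cases hq : s E = ε * ((z - z⁻¹) * (w - w⁻¹))
    · refine ⟨(z, w⁻¹), ⟨⟨hz, inv_ne_zero hw⟩, E, e1, ?_⟩, ?_⟩
      · show D2 (lam - E) = w⁻¹ + (w⁻¹)⁻¹
        rw [inv_inv, e2]; ring
      · rintro ⟨-, E', f1, f2, f3⟩
        simp only [inv_inv] at f1 f2 f3
        have hE' : E' = E := huniq E' f1 (by rw [f2]; ring)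
        rw [hE', hq] at f3
        have h5 : ε * ((z - z⁻¹) * (w - w⁻¹)) = 0 := by linear_combination (1 / 2 : ℂ) * f3
        exact (mul_ne_zero hε0 hn) h5
    · refine ⟨(z, w), ⟨⟨hz, hw⟩, E, e1, e2⟩, ?_⟩
      rintro ⟨-, E', f1, f2, f3⟩
      simp only at f1 f2 f3
      rw [huniq E' f1 f2] at f3
      exact hq f3
  refine ⟨_, _, half_an P1 P2 lam hs 1, half_an P1 P2 lam hs (-1), half_union D1 _ h2, ?_, ?_⟩
  · intro h
    obtain ⟨q, hq1, hq2⟩ := key 1 (Or.inl rfl)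
    rw [h] at hq2
    exact hq2 hq1
  · intro h
    obtain ⟨q, hq1, hq2⟩ := key (-1) (Or.inr rfl)
    rw [h] at hq2
    exact hq2 hq1

end

end Pool.Agent.KS6_68.FV
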