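import Pool.Agent.KS6_68.FV.Sol
import Pool.Agent.KS6_68.FV.Par

set_option autoImplicit false

open Complex Filter Topology Set MeasureTheory

namespace Pool.Agent.KS6_68.FV

/-- differentiation under the integral sign -/
theorem under_int {F F' : ℝ → ℝ → ℂ} (hF : Continuous (Function.uncurry F))
    (hF' : Continuous (Function.uncurry F')) (hd : ∀ t y, HasDerivAt (fun y => F t y) (F' t y) y)
    (y : ℝ) : HasDerivAt (fun y => ∫ t in (0 : ℝ)..1, F t y) (∫ t in (0 : ℝ)..1, F' t y) y := by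
  obtain ⟨C, hC⟩ := ((isCompact_Icc (a := (0 : ℝ)) (b := 1)).prod
    (isCompact_Icc (a := y - 1) (b := y + 1))).exists_bound_of_continuousOn hF'.continuousOn
  refine (intervalIntegral.hasDerivAt_integral_of_dominated_loc_of_deriv_le
    (F := fun y t => F t y) (F' := fun y t => F' t y) (bound := fun _ => C) (s := Metric.ball y 1)
    (Metric.ball_mem_nhds y one_pos) ?_ ?_ ?_ ?_ ?_ ?_).2
  · exact .of_forall fun w => (sl_cont hF w).aestronglyMeasurable
  · exact (sl_cont hF y).intervalIntegrable _ _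
  · exact (sl_cont hF' y).aestronglyMeasurable
  · refine .of_forall fun t ht w hw => ?_
    rw [uIoc_of_le zero_le_one] at ht
    rw [Metric.mem_ball, Real.dist_eq, abs_lt] at hw
    exact hC (t, w) ⟨⟨ht.1.le, ht.2⟩, by constructor <;> linarith⟩
  · exact intervalIntegrable_const
  · exact .of_forall fun t _ w _ => hd t w

/-- moving average -/
noncomputable def mv (h : ℝ → ℂ) (x : ℝ) : ℂ := ∫ t in (0 : ℝ)..1, h (x + t)

theorem mv_eq (h : ℝ → ℂ) (x : ℝ) : mv h x = ∫ t in x..(x + 1), h t := by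
  unfold mv
  rw [intervalIntegral.integral_comp_add_left (fun t => h t) x]
  simp

theorem mv_deriv {h : ℝ → ℂ} (hc : Continuous h) {w : ℂ} (hw : ∀ x, h (x + 1) = w * h x) (x : ℝ) :
    HasDerivAt (mv h) ((w - 1) * h x) x := by
  have e : mv h = fun x => (∫ t in (0 : ℝ)..(x + 1), h t) - ∫ t in (0 : ℝ)..x, h t := by
    funext x
    rw [mv_eq, intervalIntegral.integral_interval_sub_left
      (hc.intervalIntegrable _ _) (hc.intervalIntegrable _ _)]
  rw [e]
  have d1 : HasDerivAt (fun x : ℝ => ∫ t in (0 : ℝ)..(x + 1), h t) (h (x + 1)) x :=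
    HasDerivAt.comp_add_const x 1 (intervalIntegral.integral_hasDerivAt_right
      (hc.intervalIntegrable _ _) (hc.stronglyMeasurableAtFilter _ _) hc.continuousAt)
  have d2 : HasDerivAt (fun x : ℝ => ∫ t in (0 : ℝ)..x, h t) (h x) x :=
    intervalIntegral.integral_hasDerivAt_right
      (hc.intervalIntegrable _ _) (hc.stronglyMeasurableAtFilter _ _) hc.continuousAt
  refine (d1.sub d2).congr_deriv ?_
  rw [hw]
  ring

theorem mv_anti {H h : ℝ → ℂ} (hc : Continuous h) (hH : ∀ x, HasDerivAt H (h x) x) {w : ℂ}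
    (hw : ∀ x, H (x + 1) = w * H x) (x : ℝ) : mv h x = (w - 1) * H x := by
  rw [mv_eq, intervalIntegral.integral_eq_sub_of_hasDerivAt (fun t _ => hH t)
    (hc.intervalIntegrable _ _), hw]
  ring

/-- data for the resolvent: two solutions with different multipliers -/
structure RD (q f1 g1 f2 g2 : ℝ → ℂ) (m1 m2 z : ℂ) : Prop where
  s1 : Sol q f1 g1
  s2 : Sol q f2 g2
  p1 : ∀ x, f1 (x + 1) = m1 * f1 x
  p2 : ∀ x, f2 (x + 1) = m2 * f2 x
  m12 : m1 * m2 = 1
  n1 : z * m1 - 1 ≠ 0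
  n2 : z * m2 - 1 ≠ 0
  wr : f1 0 * g2 0 - g1 0 * f2 0 ≠ 0

theorem Sol.cont {q f g : ℝ → ℂ} (h : Sol q f g) : Continuous f :=
  continuous_iff_continuousAt.2 fun x => (h.1 x).continuousAt

theorem Sol.cont' {q f g : ℝ → ℂ} (h : Sol q f g) : Continuous g :=
  continuous_iff_continuousAt.2 fun x => (h.2 x).continuousAt

/-- the resolvent -/
noncomputable def Rs (f1 f2 : ℝ → ℂ) (m1 m2 z : ℂ) (F : ℝ → ℂ) (x : ℝ) : ℂ :=
  f2 x * ((z * m1 - 1)⁻¹ * mv (fun t => F t * f1 t) x) -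
    f1 x * ((z * m2 - 1)⁻¹ * mv (fun t => F t * f2 t) x)

noncomputable def Rs' (f1 g1 f2 g2 : ℝ → ℂ) (m1 m2 z : ℂ) (F : ℝ → ℂ) (x : ℝ) : ℂ :=
  g2 x * ((z * m1 - 1)⁻¹ * mv (fun t => F t * f1 t) x) -
    g1 x * ((z * m2 - 1)⁻¹ * mv (fun t => F t * f2 t) x)

variable {q f1 g1 f2 g2 : ℝ → ℂ} {m1 m2 z : ℂ}

theorem RD.J1 (D : RD q f1 g1 f2 g2 m1 m2 z) {F : ℝ → ℂ} (hF : Continuous F)
    (hz : ∀ x, F (x + 1) = z * F x) (x : ℝ) :
    HasDerivAt (fun x => (z * m1 - 1)⁻¹ * mv (fun t => F t * f1 t) x) (F x * f1 x) x := by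
  have h := (mv_deriv (h := fun t => F t * f1 t) (hF.mul D.s1.cont) (w := z * m1)
    (fun x => by rw [hz, D.p1]; ring) x).const_mul (z * m1 - 1)⁻¹
  refine h.congr_deriv ?_
  rw [← mul_assoc, inv_mul_cancel₀ D.n1, one_mul]

theorem RD.J2 (D : RD q f1 g1 f2 g2 m1 m2 z) {F : ℝ → ℂ} (hF : Continuous F)
    (hz : ∀ x, F (x + 1) = z * F x) (x : ℝ) :
    HasDerivAt (fun x => (z * m2 - 1)⁻¹ * mv (fun t => F t * f2 t) x) (F x * f2 x) x := by
  have h := (mv_deriv (h := fun t => F t * f2 t) (hF.mul D.s2.cont) (w := z * m2)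
    (fun x => by rw [hz, D.p2]; ring) x).const_mul (z * m2 - 1)⁻¹
  refine h.congr_deriv ?_
  rw [← mul_assoc, inv_mul_cancel₀ D.n2, one_mul]

theorem RD.R1 (D : RD q f1 g1 f2 g2 m1 m2 z) {F : ℝ → ℂ} (hF : Continuous F)
    (hz : ∀ x, F (x + 1) = z * F x) (x : ℝ) :
    HasDerivAt (Rs f1 f2 m1 m2 z F) (Rs' f1 g1 f2 g2 m1 m2 z F x) x := by
  have h := ((D.s2.1 x).mul (D.J1 hF hz x)).sub ((D.s1.1 x).mul (D.J2 hF hz x))
  refine h.congr_deriv ?_
  unfold Rs'
  ring

theorem RD.R2 (D : RD q f1 g1 f2 g2 m1 m2 z) {F : ℝ → ℂ} (hF : Continuous F)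
    (hz : ∀ x, F (x + 1) = z * F x) (x : ℝ) :
    HasDerivAt (Rs' f1 g1 f2 g2 m1 m2 z F)
      (q x * Rs f1 f2 m1 m2 z F x + (f1 0 * g2 0 - g1 0 * f2 0) * F x) x := by
  have h := ((D.s2.2 x).mul (D.J1 hF hz x)).sub ((D.s1.2 x).mul (D.J2 hF hz x))
  refine h.congr_deriv ?_
  rw [← D.s1.wr D.s2 x]
  unfold Rs
  ring

theorem RD.R3 (D : RD q f1 g1 f2 g2 m1 m2 z) (hq : Continuous q) {F F' F'' : ℝ → ℂ}
    (h1 : ∀ x, HasDerivAt F (F' x) x) (h2 : ∀ x, HasDerivAt F' (F'' x) x) (hc : Continuous F'')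
    (hz : ∀ x, F (x + 1) = z * F x) (x : ℝ) :
    Rs f1 f2 m1 m2 z (fun x => F'' x - q x * F x) x = (f1 0 * g2 0 - g1 0 * f2 0) * F x := by
  have hFc : Continuous F := continuous_iff_continuousAt.2 fun x => (h1 x).continuousAt
  have hz' : ∀ x, F' (x + 1) = z * F' x := by
    intro x
    have d1 : HasDerivAt (fun x => F (x + 1)) (F' (x + 1)) x :=
      HasDerivAt.comp_add_const x 1 (h1 _)
    have d2 : HasDerivAt (fun x => F (x + 1)) (z * F' x) x := by
      have : (fun x => F (x + 1)) = fun x => z * F x := funext hz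
      rw [this]
      exact (h1 x).const_mul z
    exact d1.unique d2
  have k1 : mv (fun t => (F'' t - q t * F t) * f1 t) x = (z * m1 - 1) * (F' x * f1 x - F x * g1 x) := by
    refine mv_anti ?_ (H := fun x => F' x * f1 x - F x * g1 x) ?_ ?_ x
    · exact (hc.sub (hq.mul hFc)).mul D.s1.cont
    · intro x
      refine (((h2 x).mul (D.s1.1 x)).sub ((h1 x).mul (D.s1.2 x))).congr_deriv ?_
      ring
    · intro x
      rw [hz, hz', D.p1, D.s1.shift D.p1]
      ring
  have k2 : mv (fun t => (F'' t - q t * F t) * f2 t) x = (z * m2 - 1) * (F' x * f2 x - F x * g2 x) := by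
    refine mv_anti ?_ (H := fun x => F' x * f2 x - F x * g2 x) ?_ ?_ x
    · exact (hc.sub (hq.mul hFc)).mul D.s2.cont
    · intro x
      refine (((h2 x).mul (D.s2.1 x)).sub ((h1 x).mul (D.s2.2 x))).congr_deriv ?_
      ring
    · intro x
      rw [hz, hz', D.p2, D.s2.shift D.p2]
      ring
  unfold Rs
  rw [k1, k2, inv_mul_cancel_left₀ D.n1, inv_mul_cancel_left₀ D.n2, ← D.s1.wr D.s2 x]
  ring

theorem mv_shift {h : ℝ → ℂ} {w : ℂ} (hw : ∀ x, h (x + 1) = w * h x) (x : ℝ) :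
    mv h (x + 1) = w * mv h x := by
  unfold mv
  rw [← intervalIntegral.integral_const_mul]
  congr 1
  funext t
  rw [← hw]
  congr 1
  ring

theorem RD.R4 (D : RD q f1 g1 f2 g2 m1 m2 z) {F : ℝ → ℂ}
    (hz : ∀ x, F (x + 1) = z * F x) (x : ℝ) :
    Rs f1 f2 m1 m2 z F (x + 1) = z * Rs f1 f2 m1 m2 z F x := by
  unfold Rs
  rw [mv_shift (h := fun t => F t * f1 t) (w := z * m1) (fun x => by rw [hz, D.p1]; ring),
    mv_shift (h := fun t => F t * f2 t) (w := z * m2) (fun x => by rw [hz, D.p2]; ring), D.p1, D.p2]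
  have := D.m12
  linear_combination (f2 x * ((z * m1 - 1)⁻¹ * z * mv (fun t => F t * f1 t) x) -
    f1 x * ((z * m2 - 1)⁻¹ * z * mv (fun t => F t * f2 t) x)) * this

theorem mv_lin {h k : ℝ → ℂ} (hh : Continuous h) (hk : Continuous k) (c d : ℂ) (x : ℝ) :
    mv (fun t => c * h t + d * k t) x = c * mv h x + d * mv k x := by
  unfold mv
  rw [← intervalIntegral.integral_const_mul, ← intervalIntegral.integral_const_mul,
    ← intervalIntegral.integral_add]
  · exact (continuous_const.mul (hh.comp (by fun_prop))).intervalIntegrable _ _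
  · exact (continuous_const.mul (hk.comp (by fun_prop))).intervalIntegrable _ _

theorem RD.R5 (D : RD q f1 g1 f2 g2 m1 m2 z) {F G : ℝ → ℂ} (hF : Continuous F)
    (hG : Continuous G) (c d : ℂ) (x : ℝ) :
    Rs f1 f2 m1 m2 z (fun t => c * F t + d * G t) x =
      c * Rs f1 f2 m1 m2 z F x + d * Rs f1 f2 m1 m2 z G x := by
  unfold Rs
  have e1 := mv_lin (h := fun t => F t * f1 t) (k := fun t => G t * f1 t)
    (hF.mul D.s1.cont) (hG.mul D.s1.cont) c d x
  have e2 := mv_lin (h := fun t => F t * f2 t) (k := fun t => G t * f2 t)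
    (hF.mul D.s2.cont) (hG.mul D.s2.cont) c d x
  have e3 : (fun t => (c * F t + d * G t) * f1 t) = fun t => c * (F t * f1 t) + d * (G t * f1 t) := by
    funext t; ring
  have e4 : (fun t => (c * F t + d * G t) * f2 t) = fun t => c * (F t * f2 t) + d * (G t * f2 t) := by
    funext t; ring
  rw [e3, e4, e1, e2]
  ring

/-- parametric moving averages -/
theorem mv_cont2 {u : ℝ → ℝ → ℂ} (hu : Continuous (Function.uncurry u)) {f : ℝ → ℂ}
    (hf : Continuous f) :
    Continuous (Function.uncurry fun x y => mv (fun t => u t y * f t) x) := by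
  unfold mv Function.uncurry
  refine intervalIntegral.continuous_parametric_intervalIntegral_of_continuous' ?_ 0 1
  have h1 : Continuous fun r : (ℝ × ℝ) × ℝ => u (r.1.1 + r.2) r.1.2 :=
    hu.comp (f := fun r : (ℝ × ℝ) × ℝ => (r.1.1 + r.2, r.1.2)) (by fun_prop)
  exact h1.mul (hf.comp (by fun_prop))

theorem RD.cont2 (D : RD q f1 g1 f2 g2 m1 m2 z) {u : ℝ → ℝ → ℂ}
    (hu : Continuous (Function.uncurry u)) :
    Continuous (Function.uncurry fun x y => Rs f1 f2 m1 m2 z (fun t => u t y) x) := by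
  have h1 := mv_cont2 hu D.s1.cont
  have h2 := mv_cont2 hu D.s2.cont
  unfold Rs Function.uncurry
  exact ((D.s2.cont.comp continuous_fst).mul (continuous_const.mul h1)).sub
    ((D.s1.cont.comp continuous_fst).mul (continuous_const.mul h2))

theorem RD.cont2' (D : RD q f1 g1 f2 g2 m1 m2 z) {u : ℝ → ℝ → ℂ}
    (hu : Continuous (Function.uncurry u)) :
    Continuous (Function.uncurry fun x y => Rs' f1 g1 f2 g2 m1 m2 z (fun t => u t y) x) := by
  have h1 := mv_cont2 hu D.s1.cont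
  have h2 := mv_cont2 hu D.s2.cont
  unfold Rs' Function.uncurry
  exact ((D.s2.cont'.comp continuous_fst).mul (continuous_const.mul h1)).sub
    ((D.s1.cont'.comp continuous_fst).mul (continuous_const.mul h2))

theorem mv_under {u uy : ℝ → ℝ → ℂ} (hu : Continuous (Function.uncurry u))
    (huy : Continuous (Function.uncurry uy)) (hd : ∀ t y, HasDerivAt (fun y => u t y) (uy t y) y)
    {f : ℝ → ℂ} (hf : Continuous f) (x y : ℝ) :
    HasDerivAt (fun y => mv (fun t => u t y * f t) x) (mv (fun t => uy t y * f t) x) y := by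
  unfold mv
  refine under_int (F := fun t y => u (x + t) y * f (x + t)) (F' := fun t y => uy (x + t) y * f (x + t))
    ?_ ?_ ?_ y
  · have h1 : Continuous fun r : ℝ × ℝ => u (x + r.1) r.2 :=
      hu.comp (f := fun r : ℝ × ℝ => (x + r.1, r.2)) (by fun_prop)
    exact h1.mul (hf.comp (by fun_prop))
  · have h1 : Continuous fun r : ℝ × ℝ => uy (x + r.1) r.2 :=
      huy.comp (f := fun r : ℝ × ℝ => (x + r.1, r.2)) (by fun_prop)
    exact h1.mul (hf.comp (by fun_prop))
  · intro t y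
    exact (hd (x + t) y).mul_const _

theorem RD.under (D : RD q f1 g1 f2 g2 m1 m2 z) {u uy : ℝ → ℝ → ℂ}
    (hu : Continuous (Function.uncurry u))
    (huy : Continuous (Function.uncurry uy)) (hd : ∀ t y, HasDerivAt (fun y => u t y) (uy t y) y)
    (x y : ℝ) :
    HasDerivAt (fun y => Rs f1 f2 m1 m2 z (fun t => u t y) x)
      (Rs f1 f2 m1 m2 z (fun t => uy t y) x) y := by
  unfold Rs
  exact (((mv_under hu huy hd D.s1.cont x y).const_mul _).const_mul _).sub
    (((mv_under hu huy hd D.s2.cont x y).const_mul _).const_mul _)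

end Pool.Agent.KS6_68.FV
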