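import Pool.Agent.KS6_68.FV.Defs

/-! Square roots of entire functions and analytic curves in analytic subsets. -/

set_option autoImplicit false

open Complex Filter Topology Set Function

namespace Pool.Agent.KS6_68.FV

/-- the nonvanishing set of a nonzero entire function -/
theorem ne_punctured {F : ℂ → ℂ} (hF : Differentiable ℂ F) (h0 : ∃ z, F z ≠ 0) (z0 : ℂ) :
    ∀ᶠ z in 𝓝[≠] z0, F z ≠ 0 := by
  have ha : AnalyticOnNhd ℂ F univ := fun z _ => hF.analyticAt z
  rcases (ha z0 trivial).eventually_eq_zero_or_eventually_ne_zero with h | h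
  · exfalso
    obtain ⟨w, hw⟩ := h0
    exact hw (ha.eqOn_zero_of_preconnected_of_eventuallyEq_zero isPreconnected_univ trivial h
      (mem_univ w))
  · exact h

theorem zeros_countable {F : ℂ → ℂ} (hF : Differentiable ℂ F) (h0 : ∃ z, F z ≠ 0) :
    {z | F z = 0}.Countable := by
  have hd : DiscreteTopology {z | F z = 0} := by
    rw [discreteTopology_subtype_iff]
    intro z hz
    rw [← disjoint_iff, Filter.disjoint_principal_right]
    filter_upwards [ne_punctured hF h0 z] with w hw using hw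
  exact (TopologicalSpace.separableSpace_iff_countable (α := {z | F z = 0})).1 inferInstance

theorem ne_connected {F : ℂ → ℂ} (hF : Differentiable ℂ F) (h0 : ∃ z, F z ≠ 0) :
    IsPreconnected {z | F z ≠ 0} := by
  have h := (zeros_countable hF h0).isConnected_compl_of_one_lt_rank (E := ℂ) (by
    rw [Complex.rank_real_complex]; norm_num)
  exact h.isPreconnected

/-- a square root on the complement of a discrete set extends -/
theorem ext_sqrt {F G s : ℂ → ℂ} (hF : Differentiable ℂ F) (hG : Differentiable ℂ G)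
    (h0 : ∃ z, G z ≠ 0) (hs : ∀ z, G z ≠ 0 → AnalyticAt ℂ s z)
    (h2 : ∀ z, G z ≠ 0 → s z ^ 2 = F z) : ∃ t : ℂ → ℂ, Differentiable ℂ t ∧
      (∀ z, t z ^ 2 = F z) ∧ ∀ z, G z ≠ 0 → t z = s z := by
  have hGo : IsOpen {z | G z ≠ 0} := isOpen_ne_fun hG.continuous continuous_const
  set t : ℂ → ℂ := fun z => limUnder (𝓝[≠] z) s with ht
  have hts : ∀ z, G z ≠ 0 → t z = s z := by
    intro z hz
    have := (hs z hz).continuousAt.tendsto.mono_left (nhdsWithin_le_nhds (s := {z}ᶜ))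
    exact this.limUnder_eq
  have hd : Differentiable ℂ t := by
    intro z0
    obtain ⟨U, hU, hUo, hzU⟩ := eventually_nhds_iff.1 (eventually_nhdsWithin_iff.1
      (ne_punctured hG h0 z0))
    obtain ⟨C, hC⟩ : ∃ C, ∀ᶠ z in 𝓝 z0, ‖F z‖ ≤ C := by
      refine ⟨‖F z0‖ + 1, ?_⟩
      have := (hF z0).continuousAt.norm.tendsto
      filter_upwards [this.eventually (gt_mem_nhds (show ‖F z0‖ < ‖F z0‖ + 1 by linarith))]
        with z hz using hz.le
    obtain ⟨W, hW, hWo, hzW⟩ := eventually_nhds_iff.1 hC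
    have hUW : U ∩ W ∈ 𝓝 z0 := (hUo.inter hWo).mem_nhds ⟨hzU, hzW⟩
    have hG' : ∀ z ∈ (U ∩ W) \ {z0}, G z ≠ 0 := fun z hz => hU z hz.1.1 hz.2
    have k1 : DifferentiableOn ℂ s ((U ∩ W) \ {z0}) := fun z hz =>
      (hs z (hG' z hz)).differentiableAt.differentiableWithinAt
    have k2 : BddAbove (norm ∘ s '' ((U ∩ W) \ {z0})) := by
      refine ⟨C + 1, ?_⟩
      rintro _ ⟨z, hz, rfl⟩
      have e1 := h2 z (hG' z hz)
      have e2 : ‖s z‖ ^ 2 ≤ C := by
        rw [← norm_pow, e1]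
        exact hW z hz.1.2
      show ‖s z‖ ≤ C + 1
      nlinarith [norm_nonneg (s z), sq_nonneg (‖s z‖ - 1)]
    have k3 := differentiableOn_update_limUnder_of_bddAbove hUW k1 k2
    have k4 : DifferentiableAt ℂ (update s z0 (limUnder (𝓝[≠] z0) s)) z0 :=
      k3.differentiableAt hUW
    refine k4.congr_of_eventuallyEq ?_
    filter_upwards [hUW] with z hz
    by_cases h : z = z0
    · subst h
      simp [ht]
    · rw [update_of_ne h]
      exact hts z (hG' z ⟨hz, h⟩)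
  refine ⟨t, hd, ?_, hts⟩
  -- the identity extends by continuity
  intro z0
  have h1 : ∀ᶠ z in 𝓝[≠] z0, t z ^ 2 = F z := by
    filter_upwards [ne_punctured hG h0 z0] with z hz
    rw [hts z hz, h2 z hz]
  have h3 : Tendsto (fun z => t z ^ 2) (𝓝[≠] z0) (𝓝 (t z0 ^ 2)) :=
    ((hd.continuous.pow 2).tendsto z0).mono_left nhdsWithin_le_nhds
  have h4 : Tendsto F (𝓝[≠] z0) (𝓝 (F z0)) :=
    (hF.continuous.tendsto z0).mono_left nhdsWithin_le_nhds
  exact tendsto_nhds_unique (h3.congr' h1) h4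

/-- a local square root of `F` with value `r` at `z0` -/
noncomputable def rt (F : ℂ → ℂ) (z0 r : ℂ) : ℂ → ℂ := fun z => r * (F z / F z0) ^ (1 / 2 : ℂ)

theorem half_sq (x : ℂ) : (x ^ (1 / 2 : ℂ)) ^ 2 = x := by
  rw [← Complex.cpow_nat_mul]
  norm_num

theorem rt_sq {F : ℂ → ℂ} {z0 r : ℂ} (h0 : F z0 ≠ 0) (hr : r ^ 2 = F z0) (z : ℂ) :
    rt F z0 r z ^ 2 = F z := by
  unfold rt
  rw [mul_pow, half_sq, hr, mul_div_cancel₀ _ h0]

theorem rt_self {F : ℂ → ℂ} {z0 r : ℂ} (h0 : F z0 ≠ 0) : rt F z0 r z0 = r := by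
  unfold rt
  rw [div_self h0, one_cpow, mul_one]

theorem rt_neg (F : ℂ → ℂ) (z0 r z : ℂ) : rt F z0 (-r) z = -rt F z0 r z := by
  unfold rt
  ring

/-- a neighbourhood where the local roots are analytic -/
theorem rt_an {F : ℂ → ℂ} (hF : Differentiable ℂ F) {z0 : ℂ} (h0 : F z0 ≠ 0) :
    ∀ᶠ z in 𝓝 z0, F z ≠ 0 ∧ ∀ r, AnalyticAt ℂ (rt F z0 r) z := by
  have h1 : Tendsto (fun z => F z / F z0) (𝓝 z0) (𝓝 1) := by
    have := (hF.continuous.div_const (F z0)).tendsto z0
    rwa [div_self h0] at this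
  have h2 := h1.eventually (Complex.isOpen_slitPlane.mem_nhds Complex.one_mem_slitPlane)
  filter_upwards [h2] with z hz
  have hz' : F z / F z0 ∈ slitPlane := hz
  constructor
  · intro h
    rw [h, zero_div] at hz'
    exact Complex.zero_notMem_slitPlane hz'
  · intro r
    unfold rt
    refine analyticAt_const.mul ?_
    exact AnalyticAt.cpow ((hF.analyticAt z).div_const) analyticAt_const hz'

/-- two square roots which agree at a point agree nearby -/
theorem roots_eq {F ρ σ : ℂ → ℂ} {z0 : ℂ} (h0 : F z0 ≠ 0) (h1 : ContinuousAt ρ z0)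
    (h2 : ContinuousAt σ z0) (k1 : ∀ᶠ z in 𝓝 z0, ρ z ^ 2 = F z) (k2 : ∀ᶠ z in 𝓝 z0, σ z ^ 2 = F z)
    (e : ρ z0 = σ z0) : ∀ᶠ z in 𝓝 z0, ρ z = σ z := by
  have hρ0 : ρ z0 ≠ 0 := by
    intro h
    have := k1.self_of_nhds
    rw [h] at this
    apply h0
    rw [← this]
    norm_num
  have h3 : ∀ᶠ z in 𝓝 z0, ρ z + σ z ≠ 0 := by
    have : ContinuousAt (fun z => ρ z + σ z) z0 := h1.add h2
    refine this.eventually_ne ?_
    rw [← e]
    intro h
    apply hρ0
    linear_combination h / 2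
  filter_upwards [h3, k1, k2] with z h4 h5 h6
  have : (ρ z - σ z) * (ρ z + σ z) = 0 := by linear_combination h5 - h6
  rcases mul_eq_zero.1 this with h7 | h7
  · exact sub_eq_zero.1 h7
  · exact absurd h7 h4

/-- an analytic curve which meets an analytic subset often is contained in it -/
theorem curve_sub {U A : Set (ℂ × ℂ)} (hA : IsAnalyticSubset U A) {N : Set ℂ}
    (hN : IsPreconnected N) {γ : ℂ → ℂ × ℂ} (hγ : ∀ z ∈ N, AnalyticAt ℂ γ z)
    (hU : ∀ z ∈ N, γ z ∈ U) {z0 : ℂ} (hz0 : z0 ∈ N) (hf : ∃ᶠ z in 𝓝[≠] z0, γ z ∈ A) :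
    ∀ z ∈ N, ∀ᶠ w in 𝓝 z, γ w ∈ A := by
  -- local statement
  have key : ∀ z ∈ N, (∃ᶠ w in 𝓝[≠] z, γ w ∈ A) → ∀ᶠ w in 𝓝 z, γ w ∈ A := by
    intro z hz hfr
    obtain ⟨n, h, hh, hev⟩ := hA.2 (γ z) (hU z hz)
    have hev' : ∀ᶠ w in 𝓝 z, (γ w ∈ A ↔ ∀ i, h i (γ w) = 0) :=
      (hγ z hz).continuousAt.eventually hev
    have hfr' : ∃ᶠ w in 𝓝[≠] z, ∀ i, h i (γ w) = 0 := by
      refine (hfr.and_eventually (hev'.filter_mono nhdsWithin_le_nhds)).mono ?_
      rintro w ⟨h1, h2⟩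
      exact h2.1 h1
    have hall : ∀ᶠ w in 𝓝 z, ∀ i, h i (γ w) = 0 := by
      rw [eventually_all]
      intro i
      have ha : AnalyticAt ℂ (fun w => h i (γ w)) z := (hh i).comp (hγ z hz)
      exact ha.frequently_zero_iff_eventually_zero.1 (hfr'.mono fun w hw => hw i)
    filter_upwards [hev', hall] with w h1 h2
    exact h1.2 h2
  set V : Set ℂ := {z | ∀ᶠ w in 𝓝 z, γ w ∈ A} with hV
  have hVo : IsOpen V := by
    rw [isOpen_iff_mem_nhds]
    intro z hz
    exact (eventually_eventually_nhds.2 hz)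
  have hsub : N ⊆ V := by
    refine hN.subset_of_closure_inter_subset hVo ⟨z0, hz0, key z0 hz0 hf⟩ ?_
    rintro z ⟨hz1, hz2⟩
    by_cases hzV : z ∈ V
    · exact hzV
    · apply key z hz2
      rw [mem_closure_iff_frequently] at hz1
      rw [frequently_nhdsWithin_iff]
      refine hz1.mono fun w hw => ⟨?_, ?_⟩
      · exact (show ∀ᶠ w' in 𝓝 w, γ w' ∈ A from hw).self_of_nhds
      · rintro rfl
        exact hzV hw
  exact fun z hz => hsub hz

end Pool.Agent.KS6_68.FV
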