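import Pool.Agent.KS6_68.FV.Res

set_option autoImplicit false

open Complex Filter Topology Set MeasureTheory

namespace Pool.Agent.KS6_68.FV

theorem c1_add {f g : ℝ → ℂ} (hf : Continuous f) (hg : Continuous g) (n : ℤ) :
    c1 (fun x => f x + g x) n = c1 f n + c1 g n := by
  unfold c1
  rw [← intervalIntegral.integral_add]
  · congr 1; funext x; ring
  · exact (Continuous.mul (by fun_prop) hf).intervalIntegrable _ _
  · exact (Continuous.mul (by fun_prop) hg).intervalIntegrable _ _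

theorem c1_smul (c : ℂ) (f : ℝ → ℂ) (n : ℤ) : c1 (fun x => c * f x) n = c * c1 f n := by
  unfold c1
  rw [← intervalIntegral.integral_const_mul]
  congr 1; funext x; ring

theorem cf_add {p r : ℝ → ℝ → ℂ} (hp : Continuous (Function.uncurry p))
    (hr : Continuous (Function.uncurry r)) (n : ℤ × ℤ) :
    cf (fun x y => p x y + r x y) n = cf p n + cf r n := by
  unfold cf
  rw [← c1_add (c1_cont p hp n.1) (c1_cont r hr n.1)]
  congr 1
  funext y
  exact c1_add (sl_cont hp y) (sl_cont hr y) n.1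

theorem cf_smul (c : ℂ) (p : ℝ → ℝ → ℂ) (n : ℤ × ℤ) :
    cf (fun x y => c * p x y) n = c * cf p n := by
  unfold cf
  simp only [c1_smul]

/-- Fourier coefficients of the second derivative -/
theorem c1_two {f f' f'' : ℝ → ℂ} (h1 : ∀ x, HasDerivAt f (f' x) x)
    (h2 : ∀ x, HasDerivAt f' (f'' x) x) (hc : Continuous f'') (k : ℂ)
    (hz : ∀ x, f (x + 1) = exp (2 * Real.pi * I * k) * f x) (n : ℤ) :
    c1 (fun x => exp (-(2 * Real.pi * I * k * x)) * f'' x) n =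
      (2 * Real.pi * I * (n + k)) ^ 2 * c1 (fun x => exp (-(2 * Real.pi * I * k * x)) * f x) n := by
  set z : ℂ := exp (2 * Real.pi * I * k) with hzd
  have hz' : ∀ x, f' (x + 1) = z * f' x := by
    intro x
    have d1 : HasDerivAt (fun x => f (x + 1)) (f' (x + 1)) x :=
      HasDerivAt.comp_add_const x 1 (h1 _)
    have d2 : HasDerivAt (fun x => f (x + 1)) (z * f' x) x := by
      have : (fun x => f (x + 1)) = fun x => z * f x := funext hz
      rw [this]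
      exact (h1 x).const_mul z
    exact d1.unique d2
  set κ : ℂ := 2 * Real.pi * I * (n + k) with hκ
  have hfc : Continuous f := continuous_iff_continuousAt.2 fun x => (h1 x).continuousAt
  have hE : ∀ (g : ℝ → ℂ), c1 (fun x => exp (-(2 * Real.pi * I * k * x)) * g x) n =
      ∫ x in (0 : ℝ)..1, exp (-(κ * x)) * g x := by
    intro g
    unfold c1
    congr 1
    funext x
    rw [← mul_assoc, ← exp_add]
    congr 2
    rw [hκ]; ring
  rw [hE, hE]
  have hd : ∀ x : ℝ, HasDerivAt (fun x : ℝ => exp (-(κ * x))) (-κ * exp (-(κ * x))) x := by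
    intro x
    have h0 : HasDerivAt (fun x : ℝ => (x : ℂ)) 1 x := Complex.ofRealCLM.hasDerivAt
    have h3 : HasDerivAt (fun x : ℝ => -(κ * (x : ℂ))) (-(κ * 1)) x := (h0.const_mul κ).neg
    refine h3.cexp.congr_deriv ?_
    ring
  have hH : ∀ x : ℝ, HasDerivAt (fun x : ℝ => exp (-(κ * x)) * f' x + κ * (exp (-(κ * x)) * f x))
      (exp (-(κ * x)) * f'' x - κ ^ 2 * (exp (-(κ * x)) * f x)) x := by
    intro x
    refine (((hd x).mul (h2 x)).add (((hd x).mul (h1 x)).const_mul κ)).congr_deriv ?_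
    ring
  have hI := intervalIntegral.integral_eq_sub_of_hasDerivAt (a := 0) (b := 1) (fun t _ => hH t)
    (Continuous.intervalIntegrable (by fun_prop) _ _)
  have hk : exp (-(κ * ((1 : ℝ) : ℂ))) * z = 1 := by
    rw [hzd, hκ, ← exp_add]
    have : -(2 * Real.pi * I * (n + k) * ((1 : ℝ) : ℂ)) + 2 * Real.pi * I * k
        = ((-n : ℤ) : ℂ) * (2 * Real.pi * I) := by
      push_cast; ring
    rw [this, Complex.exp_int_mul_two_pi_mul_I]
  have e1 : f 1 = z * f 0 := by simpa using hz 0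
  have e2 : f' 1 = z * f' 0 := by simpa using hz' 0
  rw [e1, e2] at hI
  have hI2 : exp (-(κ * ((1 : ℝ) : ℂ))) * (z * f' 0) + κ * (exp (-(κ * ((1 : ℝ) : ℂ))) * (z * f 0)) -
      (exp (-(κ * ((0 : ℝ) : ℂ))) * f' 0 + κ * (exp (-(κ * ((0 : ℝ) : ℂ))) * f 0)) = 0 := by
    have h0 : exp (-(κ * ((0 : ℝ) : ℂ))) = 1 := by simp
    rw [h0]
    linear_combination (f' 0 + κ * f 0) * hk
  rw [hI2, intervalIntegral.integral_sub] at hI
  · rw [intervalIntegral.integral_const_mul] at hI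
    linear_combination hI
  · exact Continuous.intervalIntegrable (by fun_prop) _ _
  · exact Continuous.intervalIntegrable (by fun_prop) _ _

/-- classical quasi-periodic solutions -/
structure Cl (v1 v2 : ℝ → ℝ) (z1 z2 lam : ℂ) (u ux uxx uy uyy : ℝ → ℝ → ℂ) : Prop where
  cu : Continuous (Function.uncurry u)
  cux : Continuous (Function.uncurry ux)
  cuxx : Continuous (Function.uncurry uxx)
  cuy : Continuous (Function.uncurry uy)
  cuyy : Continuous (Function.uncurry uyy)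
  hx : ∀ x y, HasDerivAt (fun s => u s y) (ux x y) x
  hxx : ∀ x y, HasDerivAt (fun s => ux s y) (uxx x y) x
  hy : ∀ x y, HasDerivAt (fun s => u x s) (uy x y) y
  hyy : ∀ x y, HasDerivAt (fun s => uy x s) (uyy x y) y
  pde : ∀ x y, uxx x y + uyy x y = ((v1 x : ℂ) + v2 y - lam) * u x y
  p1 : ∀ x y, u (x + 1) y = z1 * u x y
  p2 : ∀ x y, u x (y + 1) = z2 * u x y

variable {v1 v2 : ℝ → ℝ} {z1 z2 lam : ℂ} {u ux uxx uy uyy : ℝ → ℝ → ℂ}

/-- the weight -/
noncomputable def wt (k1 k2 : ℂ) (x y : ℝ) : ℂ :=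
  exp (-(2 * Real.pi * I * k1 * x)) * exp (-(2 * Real.pi * I * k2 * y))

theorem wt_cont (k1 k2 : ℂ) : Continuous (Function.uncurry (wt k1 k2)) := by
  unfold wt Function.uncurry
  fun_prop

theorem wt_ne (k1 k2 : ℂ) (x y : ℝ) : wt k1 k2 x y ≠ 0 :=
  mul_ne_zero (exp_ne_zero _) (exp_ne_zero _)

theorem cf_wt (k1 k2 : ℂ) (p : ℝ → ℝ → ℂ) (n : ℤ × ℤ) :
    cf (fun x y => wt k1 k2 x y * p x y) n =
      c1 (fun y => exp (-(2 * Real.pi * I * k2 * y)) *
        c1 (fun x => exp (-(2 * Real.pi * I * k1 * x)) * p x y) n.1) n.2 := by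
  unfold cf wt
  congr 1
  funext y
  rw [← c1_smul]
  congr 1
  funext x
  ring

theorem Cl.c_xx (h : Cl v1 v2 z1 z2 lam u ux uxx uy uyy) {k1 : ℂ} (k2 : ℂ)
    (hk1 : z1 = exp (2 * Real.pi * I * k1)) (n : ℤ × ℤ) :
    cf (fun x y => wt k1 k2 x y * uxx x y) n =
      (2 * Real.pi * I * (n.1 + k1)) ^ 2 * cf (fun x y => wt k1 k2 x y * u x y) n := by
  rw [cf_wt, cf_wt, ← c1_smul]
  congr 1
  funext y
  rw [c1_two (fun x => h.hx x y) (fun x => h.hxx x y) (sl_cont h.cuxx y) k1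
    (fun x => by rw [← hk1]; exact h.p1 x y)]
  ring

theorem c1_under {u uy : ℝ → ℝ → ℂ} (hu : Continuous (Function.uncurry u))
    (huy : Continuous (Function.uncurry uy)) (hd : ∀ t y, HasDerivAt (fun y => u t y) (uy t y) y)
    (k : ℂ) (n : ℤ) (y : ℝ) :
    HasDerivAt (fun y => c1 (fun x => exp (-(2 * Real.pi * I * k * x)) * u x y) n)
      (c1 (fun x => exp (-(2 * Real.pi * I * k * x)) * uy x y) n) y := by
  unfold c1
  refine under_int
    (F := fun x y => exp (-(2 * Real.pi * I * n * x)) * (exp (-(2 * Real.pi * I * k * x)) * u x y))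
    (F' := fun x y => exp (-(2 * Real.pi * I * n * x)) * (exp (-(2 * Real.pi * I * k * x)) * uy x y))
    ?_ ?_ ?_ y
  · exact Continuous.mul (by fun_prop) (Continuous.mul (by fun_prop) hu)
  · exact Continuous.mul (by fun_prop) (Continuous.mul (by fun_prop) huy)
  · intro t y
    exact ((hd t y).const_mul _).const_mul _

theorem Cl.c_yy (h : Cl v1 v2 z1 z2 lam u ux uxx uy uyy) (k1 : ℂ) {k2 : ℂ}
    (hk2 : z2 = exp (2 * Real.pi * I * k2)) (n : ℤ × ℤ) :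
    cf (fun x y => wt k1 k2 x y * uyy x y) n =
      (2 * Real.pi * I * (n.2 + k2)) ^ 2 * cf (fun x y => wt k1 k2 x y * u x y) n := by
  rw [cf_wt, cf_wt]
  refine c1_two (f' := fun y => c1 (fun x => exp (-(2 * Real.pi * I * k1 * x)) * uy x y) n.1)
    (c1_under h.cu h.cuy (fun t y => h.hy t y) k1 n.1)
    (c1_under h.cuy h.cuyy (fun t y => h.hyy t y) k1 n.1) ?_ k2 ?_ n.2
  · refine c1_cont (fun x y => exp (-(2 * Real.pi * I * k1 * x)) * uyy x y) ?_ n.1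
    exact Continuous.mul (by fun_prop) h.cuyy
  · intro y
    rw [← hk2, ← c1_smul]
    congr 1
    funext x
    rw [h.p2]
    ring

theorem Cl.c_lap (h : Cl v1 v2 z1 z2 lam u ux uxx uy uyy) {k1 k2 : ℂ}
    (hk1 : z1 = exp (2 * Real.pi * I * k1))
    (hk2 : z2 = exp (2 * Real.pi * I * k2)) (n : ℤ × ℤ) :
    cf (fun x y => wt k1 k2 x y * (((v1 x : ℂ) + v2 y - lam) * u x y)) n =
      ((2 * Real.pi * I * (n.1 + k1)) ^ 2 + (2 * Real.pi * I * (n.2 + k2)) ^ 2) *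
        cf (fun x y => wt k1 k2 x y * u x y) n := by
  rw [add_mul, ← h.c_xx k2 hk1, ← h.c_yy k1 hk2,
    ← cf_add (p := fun x y => wt k1 k2 x y * uxx x y) (r := fun x y => wt k1 k2 x y * uyy x y)
    ((wt_cont k1 k2).mul h.cuxx) ((wt_cont k1 k2).mul h.cuyy)]
  congr 1
  funext x y
  rw [← h.pde]
  ring

theorem pot_bdd (hv1 : Continuous v1) (hp1 : ∀ x, v1 (x + 1) = v1 x) (hv2 : Continuous v2)
    (hp2 : ∀ x, v2 (x + 1) = v2 x) (lam : ℂ) :
    ∃ C : ℝ, 0 ≤ C ∧ ∀ x y : ℝ, ‖(v1 x : ℂ) + v2 y - lam‖ ≤ C := by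
  obtain ⟨C1, h1⟩ := pot1_bdd hv1 hp1 0
  obtain ⟨C2, h2⟩ := pot1_bdd hv2 hp2 lam
  refine ⟨C1 + C2, add_nonneg ((norm_nonneg _).trans (h1 0)) ((norm_nonneg _).trans (h2 0)), ?_⟩
  intro x y
  have e : (v1 x : ℂ) + v2 y - lam = ((v1 x : ℂ) - 0) + ((v2 y : ℂ) - lam) := by ring
  rw [e]
  exact (norm_add_le _ _).trans (add_le_add (h1 x) (h2 y))

/-- the symbol -/
noncomputable def sy (k1 k2 : ℂ) (n : ℤ × ℤ) : ℂ :=
  (2 * Real.pi * I * (n.1 + k1)) ^ 2 + (2 * Real.pi * I * (n.2 + k2)) ^ 2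

theorem int_fin (a B : ℝ) : {n : ℤ | |(n : ℝ) + a| ≤ B}.Finite := by
  refine (Set.finite_Icc ⌊-B - a⌋ ⌈B - a⌉).subset fun n hn => ?_
  have h := abs_le.1 (show |(n : ℝ) + a| ≤ B from hn)
  refine ⟨?_, ?_⟩
  · have : (⌊-B - a⌋ : ℝ) ≤ n := (Int.floor_le _).trans (by linarith)
    exact_mod_cast this
  · have : (n : ℝ) ≤ ⌈B - a⌉ := le_trans (by linarith) (Int.le_ceil _)
    exact_mod_cast this

theorem sy_fin (k1 k2 : ℂ) (C : ℝ) : {n : ℤ × ℤ | ‖sy k1 k2 n‖ ≤ C}.Finite := by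
  set B : ℝ := |C| + k1.im ^ 2 + k2.im ^ 2 + 1 with hB
  refine ((int_fin k1.re B).prod (int_fin k2.re B)).subset fun n hn => ?_
  have hn' : ‖sy k1 k2 n‖ ≤ C := hn
  have e : (sy k1 k2 n).re = -(4 * Real.pi ^ 2) * ((((n.1 : ℝ) + k1.re) ^ 2 - k1.im ^ 2) +
      (((n.2 : ℝ) + k2.re) ^ 2 - k2.im ^ 2)) := by
    unfold sy
    simp [pow_two]
    ring
  have h1 : |(sy k1 k2 n).re| ≤ C := (Complex.abs_re_le_norm _).trans hn'
  rw [e, abs_mul, abs_neg, abs_of_pos (by positivity : (0 : ℝ) < 4 * Real.pi ^ 2)] at h1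
  have hpi : (1 : ℝ) ≤ 4 * Real.pi ^ 2 := by nlinarith [Real.pi_gt_three]
  have h2 : |(((n.1 : ℝ) + k1.re) ^ 2 - k1.im ^ 2) + (((n.2 : ℝ) + k2.re) ^ 2 - k2.im ^ 2)| ≤ |C| := by
    have h3 := abs_nonneg ((((n.1 : ℝ) + k1.re) ^ 2 - k1.im ^ 2) + (((n.2 : ℝ) + k2.re) ^ 2 - k2.im ^ 2))
    calc _ = 1 * |(((n.1 : ℝ) + k1.re) ^ 2 - k1.im ^ 2) + (((n.2 : ℝ) + k2.re) ^ 2 - k2.im ^ 2)| := by ring
      _ ≤ 4 * Real.pi ^ 2 * |(((n.1 : ℝ) + k1.re) ^ 2 - k1.im ^ 2) + (((n.2 : ℝ) + k2.re) ^ 2 - k2.im ^ 2)| := by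
        gcongr
      _ ≤ C := h1
      _ ≤ |C| := le_abs_self C
  have h4 := (abs_le.1 h2).2
  have hC0 := abs_nonneg C
  have hB1 : 1 ≤ B := by
    rw [hB]; nlinarith [sq_nonneg k1.im, sq_nonneg k2.im]
  have sqle : ∀ t : ℝ, t ^ 2 ≤ B → |t| ≤ B := by
    intro t ht
    by_contra hc
    push Not at hc
    have : |t| ^ 2 = t ^ 2 := sq_abs t
    nlinarith
  refine ⟨sqle _ ?_, sqle _ ?_⟩
  · rw [hB]
    nlinarith [sq_nonneg ((n.2 : ℝ) + k2.re)]
  · rw [hB]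
    nlinarith [sq_nonneg ((n.1 : ℝ) + k1.re)]

theorem Cl.inj (hv1 : Continuous v1) (hv2 : Continuous v2)
    (h : Cl v1 v2 z1 z2 lam u ux uxx uy uyy) {k1 k2 : ℂ}
    (hk1 : z1 = exp (2 * Real.pi * I * k1)) (hk2 : z2 = exp (2 * Real.pi * I * k2))
    {C : ℝ} (hC0 : 0 ≤ C) (hC : ∀ x y : ℝ, ‖(v1 x : ℂ) + v2 y - lam‖ ≤ C)
    (h0 : ∀ n, ‖sy k1 k2 n‖ ≤ C → cf (fun x y => wt k1 k2 x y * u x y) n = 0) : u = 0 := by
  set p : ℝ → ℝ → ℂ := fun x y => wt k1 k2 x y * u x y with hp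
  set r : ℝ → ℝ → ℂ := fun x y => wt k1 k2 x y * (((v1 x : ℂ) + v2 y - lam) * u x y) with hr
  have hpc : Continuous (Function.uncurry p) := (wt_cont k1 k2).mul h.cu
  have hvc : Continuous fun x : ℝ => (v1 x : ℂ) := Complex.continuous_ofReal.comp hv1
  have hvc2 : Continuous fun x : ℝ => (v2 x : ℂ) := Complex.continuous_ofReal.comp hv2
  have hrc : Continuous (Function.uncurry r) := by
    refine (wt_cont k1 k2).mul (Continuous.mul ?_ h.cu)
    exact ((hvc.comp continuous_fst).add (hvc2.comp continuous_snd)).sub continuous_const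
  have S1 := pars2 p hpc
  have S2 := pars2 r hrc
  have hle : (∫ y in (0 : ℝ)..1, ∫ x in (0 : ℝ)..1, ‖r x y‖ ^ 2) ≤
      C ^ 2 * ∫ y in (0 : ℝ)..1, ∫ x in (0 : ℝ)..1, ‖p x y‖ ^ 2 := by
    rw [← intervalIntegral.integral_const_mul]
    refine intervalIntegral.integral_mono_on zero_le_one ((G_cont r hrc).intervalIntegrable _ _)
      ((continuous_const.mul (G_cont p hpc)).intervalIntegrable _ _) fun y _ => ?_
    rw [← intervalIntegral.integral_const_mul]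
    refine intervalIntegral.integral_mono_on zero_le_one
      (((sl_cont hrc y).norm.pow 2).intervalIntegrable _ _)
      ((continuous_const.mul ((sl_cont hpc y).norm.pow 2)).intervalIntegrable _ _) fun x _ => ?_
    simp only [hp, hr]
    rw [norm_mul, norm_mul, norm_mul]
    have h1 := hC x y
    have h2 : ‖(v1 x : ℂ) + v2 y - lam‖ ^ 2 ≤ C ^ 2 := by gcongr
    have h3 : 0 ≤ (‖wt k1 k2 x y‖ * ‖u x y‖) ^ 2 := sq_nonneg _
    calc (‖wt k1 k2 x y‖ * (‖(v1 x : ℂ) + v2 y - lam‖ * ‖u x y‖)) ^ 2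
        = ‖(v1 x : ℂ) + v2 y - lam‖ ^ 2 * (‖wt k1 k2 x y‖ * ‖u x y‖) ^ 2 := by ring
      _ ≤ C ^ 2 * (‖wt k1 k2 x y‖ * ‖u x y‖) ^ 2 := by gcongr
  have hcf : ∀ n, cf r n = sy k1 k2 n * cf p n := fun n => h.c_lap hk1 hk2 n
  have S3 := S2.sub (S1.mul_left (C ^ 2))
  have hterm : ∀ n, 0 ≤ ‖cf r n‖ ^ 2 - C ^ 2 * ‖cf p n‖ ^ 2 := by
    intro n
    by_cases hn : ‖sy k1 k2 n‖ ≤ C
    · rw [hcf, h0 n hn]; simp
    · push Not at hn
      rw [hcf, norm_mul, mul_pow, ← sub_mul]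
      have : C ^ 2 ≤ ‖sy k1 k2 n‖ ^ 2 := by gcongr
      exact mul_nonneg (by linarith) (sq_nonneg _)
  have hS : (∫ y in (0 : ℝ)..1, ∫ x in (0 : ℝ)..1, ‖r x y‖ ^ 2) -
      C ^ 2 * (∫ y in (0 : ℝ)..1, ∫ x in (0 : ℝ)..1, ‖p x y‖ ^ 2) = 0 :=
    le_antisymm (by linarith) (S3.nonneg hterm)
  rw [hS] at S3
  have hz := (hasSum_zero_iff_of_nonneg hterm).1 S3
  have hp0 : ∀ n, cf p n = 0 := by
    intro n
    by_cases hn : ‖sy k1 k2 n‖ ≤ C
    · exact h0 n hn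
    · push Not at hn
      have := congrFun hz n
      simp only [Pi.zero_apply] at this
      rw [hcf, norm_mul, mul_pow, ← sub_mul] at this
      have h5 : C ^ 2 < ‖sy k1 k2 n‖ ^ 2 := by gcongr
      rcases mul_eq_zero.1 this with h6 | h6
      · linarith
      · simpa using h6
  have hI : (∫ y in (0 : ℝ)..1, ∫ x in (0 : ℝ)..1, ‖p x y‖ ^ 2) = 0 := by
    have : HasSum (fun n : ℤ × ℤ => ‖cf p n‖ ^ 2) 0 := by
      simp only [hp0]
      simp
    exact S1.unique this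
  have hu0 : ∀ x ∈ Icc (0 : ℝ) 1, ∀ y ∈ Icc (0 : ℝ) 1, u x y = 0 := by
    intro x hx y hy
    have := zero_of_int2 p hpc hI x hx y hy
    exact (mul_eq_zero.1 this).resolve_left (wt_ne _ _ _ _)
  have hz1 : z1 ≠ 0 := by rw [hk1]; exact exp_ne_zero _
  have hz2 : z2 ≠ 0 := by rw [hk2]; exact exp_ne_zero _
  have sx : ∀ (n : ℤ) x y, u (x + n) y = z1 ^ n * u x y := by
    intro n
    induction n using Int.induction_on with
    | zero => intro x y; simp
    | succ i ih =>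
      intro x y
      have : x + ((i : ℤ) + 1 : ℤ) = (x + (i : ℤ)) + 1 := by push_cast; ring
      rw [this, h.p1, ih, zpow_add₀ hz1]
      simp; ring
    | pred i ih =>
      intro x y
      have h1 := h.p1 (x + ((-(i : ℤ) - 1 : ℤ) : ℝ)) y
      have : x + ((-(i : ℤ) - 1 : ℤ) : ℝ) + 1 = x + ((-(i : ℤ) : ℤ) : ℝ) := by push_cast; ring
      rw [this, ih] at h1
      rw [zpow_sub₀ hz1, zpow_one]
      field_simp
      linear_combination -h1
  have sy' : ∀ (n : ℤ) x y, u x (y + n) = z2 ^ n * u x y := by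
    intro n
    induction n using Int.induction_on with
    | zero => intro x y; simp
    | succ i ih =>
      intro x y
      have : y + ((i : ℤ) + 1 : ℤ) = (y + (i : ℤ)) + 1 := by push_cast; ring
      rw [this, h.p2, ih, zpow_add₀ hz2]
      simp; ring
    | pred i ih =>
      intro x y
      have h1 := h.p2 x (y + ((-(i : ℤ) - 1 : ℤ) : ℝ))
      have : y + ((-(i : ℤ) - 1 : ℤ) : ℝ) + 1 = y + ((-(i : ℤ) : ℤ) : ℝ) := by push_cast; ring
      rw [this, ih] at h1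
      rw [zpow_sub₀ hz2, zpow_one]
      field_simp
      linear_combination -h1
  funext x y
  have h1 := sx ⌊x⌋ (Int.fract x) y
  have h2 := sy' ⌊y⌋ (Int.fract x) (Int.fract y)
  rw [Int.fract_add_floor] at h1 h2
  rw [h1, h2, hu0 _ ⟨Int.fract_nonneg x, (Int.fract_lt_one x).le⟩ _
    ⟨Int.fract_nonneg y, (Int.fract_lt_one y).le⟩]
  simp

end Pool.Agent.KS6_68.FV
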