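import Pool.Agent.KS6_68.FV.Roots

/-! Entire functions whose zeros all have even order are squares. -/

set_option autoImplicit false

open Complex Filter Topology Set Function Metric

namespace Pool.Agent.KS6_68.FV

theorem order_ne_top {F : ℂ → ℂ} (hF : Differentiable ℂ F) (h0 : ∃ z, F z ≠ 0) (a : ℂ) :
    analyticOrderAt F a ≠ ⊤ := by
  intro h
  rw [analyticOrderAt_eq_top] at h
  obtain ⟨z, hz, hz'⟩ := ((h.filter_mono (nhdsWithin_le_nhds (s := {a}ᶜ))).and
    (ne_punctured hF h0 a)).exists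
  exact hz' hz

theorem exists_div {F : ℂ → ℂ} (hF : Differentiable ℂ F) {a : ℂ} {n : ℕ}
    (h : analyticOrderAt F a = n) :
    ∃ F1 : ℂ → ℂ, Differentiable ℂ F1 ∧ F1 a ≠ 0 ∧ ∀ z, F z = (z - a) ^ n * F1 z := by
  classical
  obtain ⟨g, hg, hga, hgz⟩ := ((hF.analyticAt a).analyticOrderAt_eq_natCast).1 h
  set F1 : ℂ → ℂ := fun z => if z = a then g a else F z / (z - a) ^ n with hF1
  have h1 : F1 =ᶠ[𝓝 a] g := by
    filter_upwards [hgz] with z hz
    by_cases hza : z = a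
    · rw [hF1]; simp only [hza, if_true]
    · rw [hF1]; simp only [hza, if_false]
      rw [hz, smul_eq_mul, mul_div_cancel_left₀ _ (pow_ne_zero n (sub_ne_zero.2 hza))]
  refine ⟨F1, fun z => ?_, ?_, fun z => ?_⟩
  · by_cases hza : z = a
    · rw [hza]
      exact hg.differentiableAt.congr_of_eventuallyEq h1
    · have h2 : F1 =ᶠ[𝓝 z] fun z => F z / (z - a) ^ n := by
        filter_upwards [isOpen_ne.mem_nhds hza] with w hw
        rw [hF1]; simp only [show w ≠ a from hw, if_false]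
      refine DifferentiableAt.congr_of_eventuallyEq ?_ h2
      exact (hF z).div (((differentiable_id z).sub_const a).pow n)
        (pow_ne_zero n (sub_ne_zero.2 hza))
  · rw [h1.eq_of_nhds]; exact hga
  · by_cases hza : z = a
    · rw [hza, hgz.self_of_nhds, smul_eq_mul, h1.eq_of_nhds]
    · rw [hF1]; simp only [hza, if_false]
      rw [mul_div_cancel₀ _ (pow_ne_zero n (sub_ne_zero.2 hza))]

theorem order_of_mul {F F1 : ℂ → ℂ} (hF1 : Differentiable ℂ F1) {a : ℂ} {n : ℕ}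
    (h : ∀ z, F z = (z - a) ^ n * F1 z) {z : ℂ} (hz : z ≠ a) :
    analyticOrderAt F z = analyticOrderAt F1 z := by
  have e : F = (fun z => (z - a) ^ n) * F1 := funext h
  have h1 : AnalyticAt ℂ (fun z : ℂ => (z - a) ^ n) z := by fun_prop
  rw [e, analyticOrderAt_mul h1 (hF1.analyticAt z)]
  have : analyticOrderAt (fun z : ℂ => (z - a) ^ n) z = 0 := by
    rw [h1.analyticOrderAt_eq_zero]
    exact pow_ne_zero n (sub_ne_zero.2 hz)
  rw [this, zero_add]

theorem zeros_finite {F : ℂ → ℂ} (hF : Differentiable ℂ F) (h0 : ∃ z, F z ≠ 0) {K : Set ℂ}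
    (hK : IsCompact K) : {z | z ∈ K ∧ F z = 0}.Finite := by
  have hc : IsClosed {z | F z = 0} := isClosed_eq hF.continuous continuous_const
  have hd : DiscreteTopology {z | z ∈ K ∧ F z = 0} := by
    rw [discreteTopology_subtype_iff]
    intro z hz
    rw [← disjoint_iff, Filter.disjoint_principal_right]
    filter_upwards [ne_punctured hF h0 z] with w hw h
    exact hw h.2
  have hcomp : IsCompact {z | z ∈ K ∧ F z = 0} := hK.inter_right hc
  exact hcomp.finite ((isDiscrete_iff_discreteTopology).2 hd)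

/-- a continuous square root of a nonvanishing entire function is holomorphic -/
theorem root_diff {F s : ℂ → ℂ} (hF : Differentiable ℂ F) {U : Set ℂ} (hU : IsOpen U)
    (hs : ContinuousOn s U) (h2 : ∀ z ∈ U, s z ^ 2 = F z) (hn : ∀ z ∈ U, F z ≠ 0) :
    DifferentiableOn ℂ s U := by
  intro z hz
  have h1 := hn z hz
  have k := (rt_an hF h1).self_of_nhds.2 (s z)
  have e : ∀ᶠ w in 𝓝 z, s w = rt F z (s z) w :=
    roots_eq h1 (hs.continuousAt (hU.mem_nhds hz)) k.continuousAt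
      (by filter_upwards [hU.mem_nhds hz] with w hw using h2 w hw)
      (Eventually.of_forall fun w => rt_sq h1 (h2 z hz) w) (rt_self h1).symm
  exact (k.differentiableAt.congr_of_eventuallyEq e).differentiableWithinAt

theorem sqrt_ball (R : ℝ) (hR : 0 < R) : ∀ (n : ℕ) (F : ℂ → ℂ), Differentiable ℂ F →
    (∃ z, F z ≠ 0) → (∀ z, Even (analyticOrderNatAt F z)) →
    {z | z ∈ closedBall (0 : ℂ) R ∧ F z = 0}.ncard = n →
    ∃ s : ℂ → ℂ, DifferentiableOn ℂ s (ball 0 R) ∧ ∀ z ∈ ball (0 : ℂ) R, s z ^ 2 = F z := by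
  intro n
  induction n with
  | zero =>
    intro F hF h0 hev hn
    have hfin := zeros_finite hF h0 (isCompact_closedBall (0 : ℂ) R)
    rw [Set.ncard_eq_zero hfin] at hn
    have hne : ∀ z ∈ ball (0 : ℂ) R, F z ≠ 0 := by
      intro z hz h
      have : z ∈ ({z | z ∈ closedBall (0 : ℂ) R ∧ F z = 0} : Set ℂ) := ⟨ball_subset_closedBall hz, h⟩
      rw [hn] at this
      exact this
    have hsc : IsSimplyConnected (ball (0 : ℂ) R) := by
      have : ContractibleSpace (ball (0 : ℂ) R) :=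
        (convex_ball (0 : ℂ) R).contractibleSpace (nonempty_ball.2 hR)
      exact (inferInstance : SimplyConnectedSpace (ball (0 : ℂ) R))
    obtain ⟨s, hs, hs2⟩ := Complex.exists_continuousOn_pow_eq hsc isOpen_ball
      (hF.continuous.continuousOn (s := ball (0 : ℂ) R))
      (by rintro ⟨z, hz, h⟩; exact hne z hz h) two_ne_zero
    exact ⟨s, root_diff hF isOpen_ball hs (fun z _ => hs2 z) hne, fun z _ => hs2 z⟩
  | succ n ih =>
    intro F hF h0 hev hn
    have hfin := zeros_finite hF h0 (isCompact_closedBall (0 : ℂ) R)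
    obtain ⟨a, ha⟩ : ({z | z ∈ closedBall (0 : ℂ) R ∧ F z = 0} : Set ℂ).Nonempty := by
      rw [← Set.ncard_pos hfin, hn]; omega
    obtain ⟨k, hk⟩ := hev a
    have hord : analyticOrderAt F a = ((k + k : ℕ) : ℕ∞) := by
      rw [← hk, Nat.cast_analyticOrderNatAt (order_ne_top hF h0 a)]
    obtain ⟨F1, hF1, hF1a, hF1z⟩ := exists_div hF hord
    have hk0 : k + k ≠ 0 := by
      intro hk0
      apply hF1a
      have := hF1z a
      rw [hk0, pow_zero, one_mul, ha.2] at this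
      exact this.symm
    have hev1 : ∀ z, Even (analyticOrderNatAt F1 z) := by
      intro z
      by_cases hz : z = a
      · rw [hz]
        have : analyticOrderAt F1 a = 0 := ((hF1.analyticAt a).analyticOrderAt_eq_zero).2 hF1a
        rw [analyticOrderNatAt, this]
        simp
      · have := order_of_mul hF1 hF1z hz
        rw [analyticOrderNatAt, ← this]
        exact hev z
    have hset : {z | z ∈ closedBall (0 : ℂ) R ∧ F z = 0} =
        insert a {z | z ∈ closedBall (0 : ℂ) R ∧ F1 z = 0} := by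
      ext z
      simp only [mem_setOf_eq, mem_insert_iff]
      constructor
      · rintro ⟨h1, h2⟩
        rw [hF1z] at h2
        rcases mul_eq_zero.1 h2 with h3 | h3
        · exact Or.inl (sub_eq_zero.1 (pow_eq_zero_iff hk0 |>.1 h3))
        · exact Or.inr ⟨h1, h3⟩
      · rintro (rfl | ⟨h1, h2⟩)
        · exact ha
        · exact ⟨h1, by rw [hF1z, h2, mul_zero]⟩
    have hn1 : {z | z ∈ closedBall (0 : ℂ) R ∧ F1 z = 0}.ncard = n := by
      rw [hset, Set.ncard_insert_of_notMem (fun h => hF1a h.2)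
        (zeros_finite hF1 ⟨a, hF1a⟩ (isCompact_closedBall (0 : ℂ) R))] at hn
      omega
    obtain ⟨s, hs, hs2⟩ := ih F1 hF1 ⟨a, hF1a⟩ hev1 hn1
    refine ⟨fun z => (z - a) ^ k * s z, ?_, fun z hz => ?_⟩
    · exact ((differentiable_id.sub_const a).pow k).differentiableOn.mul hs
    · show ((z - a) ^ k * s z) ^ 2 = F z
      rw [mul_pow, hs2 z hz, hF1z z, ← pow_mul, mul_two]

theorem exists_sqrt {F : ℂ → ℂ} (hF : Differentiable ℂ F) (h0 : ∃ z, F z ≠ 0)
    (hev : ∀ z, Even (analyticOrderNatAt F z)) :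
    ∃ s : ℂ → ℂ, Differentiable ℂ s ∧ ∀ z, s z ^ 2 = F z := by
  obtain ⟨z0, hz0⟩ := h0
  set r0 : ℂ := F z0 ^ (1 / 2 : ℂ) with hr0
  have hr2 : r0 ^ 2 = F z0 := half_sq _
  have key : ∀ n : ℕ, ∃ s : ℂ → ℂ, DifferentiableOn ℂ s (ball 0 (‖z0‖ + n + 1)) ∧
      (∀ z ∈ ball (0 : ℂ) (‖z0‖ + n + 1), s z ^ 2 = F z) ∧ s z0 = r0 := by
    intro n
    have hR : 0 < ‖z0‖ + n + 1 := by positivity
    obtain ⟨s, hs, hs2⟩ := sqrt_ball _ hR _ F hF ⟨z0, hz0⟩ hev rfl
    have hz0' : z0 ∈ ball (0 : ℂ) (‖z0‖ + n + 1) := by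
      rw [mem_ball_zero_iff]
      have : (0 : ℝ) ≤ n := n.cast_nonneg
      linarith
    rcases sq_eq_sq_iff_eq_or_eq_neg.1 ((hs2 z0 hz0').trans hr2.symm) with h | h
    · exact ⟨s, hs, hs2, h⟩
    · refine ⟨fun z => -s z, hs.neg, fun z hz => ?_, ?_⟩
      · show (-s z) ^ 2 = F z
        rw [neg_sq, hs2 z hz]
      · show -s z0 = r0
        rw [h, neg_neg]
  choose s hs hs2 hs0 using key
  have mem0 : ∀ n : ℕ, z0 ∈ ball (0 : ℂ) (‖z0‖ + n + 1) := by
    intro n
    rw [mem_ball_zero_iff]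
    have : (0 : ℝ) ≤ n := n.cast_nonneg
    linarith
  have hle : ∀ m n : ℕ, m ≤ n → ∀ z ∈ ball (0 : ℂ) (‖z0‖ + m + 1), s m z = s n z := by
    intro m n hmn
    have hsub : ball (0 : ℂ) (‖z0‖ + m + 1) ⊆ ball (0 : ℂ) (‖z0‖ + n + 1) := by
      apply ball_subset_ball
      have : (m : ℝ) ≤ n := Nat.cast_le.2 hmn
      linarith
    have hm : AnalyticOnNhd ℂ (s m) (ball (0 : ℂ) (‖z0‖ + m + 1)) :=
      (hs m).analyticOnNhd isOpen_ball
    have hn : AnalyticOnNhd ℂ (s n) (ball (0 : ℂ) (‖z0‖ + m + 1)) :=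
      ((hs n).mono hsub).analyticOnNhd isOpen_ball
    have hnh : ball (0 : ℂ) (‖z0‖ + m + 1) ∈ 𝓝 z0 := isOpen_ball.mem_nhds (mem0 m)
    have he : s m =ᶠ[𝓝 z0] s n := by
      refine roots_eq hz0 (hm z0 (mem0 m)).continuousAt (hn z0 (mem0 m)).continuousAt ?_ ?_
        ((hs0 m).trans (hs0 n).symm)
      · filter_upwards [hnh] with w hw using hs2 m w hw
      · filter_upwards [hnh] with w hw using hs2 n w (hsub hw)
    exact hm.eqOn_of_preconnected_of_eventuallyEq hn (convex_ball _ _).isPreconnected (mem0 m) he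
  have heq : ∀ m n : ℕ, ∀ z ∈ ball (0 : ℂ) (‖z0‖ + m + 1), z ∈ ball (0 : ℂ) (‖z0‖ + n + 1) →
      s m z = s n z := by
    intro m n z hm hn
    rcases le_total m n with h | h
    · exact hle m n h z hm
    · exact (hle n m h z hn).symm
  set N : ℂ → ℕ := fun z => ⌈‖z‖⌉₊ with hN
  have hmem : ∀ z, z ∈ ball (0 : ℂ) (‖z0‖ + N z + 1) := by
    intro z
    rw [mem_ball_zero_iff]
    have h1 : ‖z‖ ≤ N z := Nat.le_ceil _
    have := norm_nonneg z0
    linarith
  refine ⟨fun z => s (N z) z, fun z => ?_, fun z => hs2 _ z (hmem z)⟩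
  have hnh : ball (0 : ℂ) (‖z0‖ + N z + 1) ∈ 𝓝 z := isOpen_ball.mem_nhds (hmem z)
  have he : (fun z => s (N z) z) =ᶠ[𝓝 z] s (N z) := by
    filter_upwards [hnh] with w hw
    exact heq _ _ w (hmem w) hw
  exact ((hs (N z)).differentiableAt hnh).congr_of_eventuallyEq he

/-- an entire function with a square root has zeros of even order -/
theorem even_of_sqrt {F s : ℂ → ℂ} (hs : Differentiable ℂ s) (h2 : ∀ z, s z ^ 2 = F z)
    (h0 : ∃ z, F z ≠ 0) (z : ℂ) : Even (analyticOrderNatAt F z) := by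
  have hF : Differentiable ℂ F := by
    have : F = fun z => s z ^ 2 := funext fun z => (h2 z).symm
    rw [this]
    exact hs.pow 2
  have e : F = s ^ 2 := funext fun z => (h2 z).symm
  have hs0 : analyticOrderAt s z ≠ ⊤ := by
    apply order_ne_top hs
    obtain ⟨w, hw⟩ := h0
    refine ⟨w, fun h => hw ?_⟩
    rw [← h2, h]; norm_num
  rw [e, analyticOrderNatAt_pow (hs.analyticAt z)]
  exact ⟨analyticOrderNatAt s z, by rw [smul_eq_mul, two_mul]⟩

theorem sqrt_iff {F : ℂ → ℂ} (hF : Differentiable ℂ F) (h0 : ∃ z, F z ≠ 0) :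
    (∃ s : ℂ → ℂ, Differentiable ℂ s ∧ ∀ z, s z ^ 2 = F z) ↔
      ∀ z, Even (analyticOrderNatAt F z) :=
  ⟨fun ⟨_, h1, h2⟩ => even_of_sqrt h1 h2 h0, exists_sqrt hF h0⟩

end Pool.Agent.KS6_68.FV
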